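import Pool.Agent.SpecR.Defs

/-!
# The relative algebraic closure (MP_1824d7_lc)
-/

set_option autoImplicit false

open Polynomial

namespace Pool.Agent.SpecR

/-- the elements algebraic over the subring generated by `S` -/
private noncomputable def rac {K : Type} [Field K] (S : Set K) : Subfield K :=
  { (Subalgebra.algebraicClosure (Subring.closure S) K).toSubring with
    inv_mem' := fun _ hx => IsAlgebraic.inv hx }

private theorem mem_rac {K : Type} [Field K] (S : Set K) (x : K) :
    x ∈ rac S ↔ IsAlgebraic (Subring.closure S) x := Iff.rfl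

private theorem rac_closed {K : Type} [Field K] (S : Set K) (x : K) (P : K[X]) (hP : P ≠ 0)
    (hc : ∀ i, P.coeff i ∈ rac S) (h0 : P.eval x = 0) : x ∈ rac S := by
  let B := Subalgebra.algebraicClosure (Subring.closure S) K
  have h1 : P ∈ Polynomial.lifts (algebraMap B K) := by
    rw [Polynomial.lifts_iff_coeff_lifts]
    intro i
    exact ⟨⟨P.coeff i, hc i⟩, rfl⟩
  obtain ⟨Q, hQ⟩ := (Polynomial.mem_lifts P).1 h1
  have h2 : IsAlgebraic B x := by
    refine ⟨Q, ?_, ?_⟩
    · rintro rfl
      simp at hQ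
      exact hP hQ.symm
    · rw [← Polynomial.eval_map_algebraMap, hQ, h0]
  exact h2.restrictScalars (Subring.closure S)

private theorem card_rac {K : Type} [Field K] (S : Set K) :
    Cardinal.mk (rac S) ≤ max (Cardinal.mk S) Cardinal.aleph0 := by
  have h1 : Cardinal.mk (Subring.closure S) ≤ max (Cardinal.mk S) Cardinal.aleph0 := by
    refine le_trans ?_ (Subfield.cardinalMk_closure_le_max S)
    exact Cardinal.mk_le_mk_of_subset (Subfield.subring_closure_le S)
  have h2 : Cardinal.mk (rac S) ≤ max (Cardinal.mk (Subring.closure S)) Cardinal.aleph0 :=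
    Algebraic.cardinalMk_le_max (Subring.closure S) K
  exact h2.trans (max_le h1 (le_max_right _ _))

private theorem quad_coeff {K : Type} [Field K] (a b : K) :
    ((X - C a) ^ 2 + C (b ^ 2) : K[X]).coeff 1 = -(2 * a) ∧
      ((X - C a) ^ 2 + C (b ^ 2) : K[X]).coeff 0 = a ^ 2 + b ^ 2 := by
  have h : ((X - C a) ^ 2 + C (b ^ 2) : K[X]) = X ^ 2 + C (-(2 * a)) * X + C (a ^ 2 + b ^ 2) := by
    simp only [map_neg, map_mul, map_add, map_pow, map_ofNat]
    ring
  rw [h]
  generalize a ^ 2 + b ^ 2 = t
  constructor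
  · simp [coeff_C]
  · simp

private theorem quad_monic {K : Type} [Field K] (a b : K) :
    ((X - C a) ^ 2 + C (b ^ 2) : K[X]).Monic := by
  refine Monic.add_of_left ((monic_X_sub_C a).pow 2) ?_
  rw [degree_pow, degree_X_sub_C]
  refine lt_of_le_of_lt degree_C_le ?_
  norm_num

theorem exists_alg {K : Type} [Field K] [CharZero K] (hK : Factors K)
    (S : Set K) : ∃ R : Subfield K, S ⊆ R ∧ Factors R ∧
      Cardinal.mk R ≤ max (Cardinal.mk S) Cardinal.aleph0 ∧
      ∀ x ∈ R, ∃ P : K[X], P ≠ 0 ∧ (∀ i, P.coeff i ∈ Subring.closure S) ∧ P.eval x = 0 := by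
  refine ⟨rac S, ?_, ?_, card_rac S, ?_⟩
  · intro x hx
    exact isAlgebraic_algebraMap (⟨x, Subring.subset_closure hx⟩ : Subring.closure S)
  · intro f hf
    have hinj : Function.Injective (algebraMap (rac S) K) := (algebraMap (rac S) K).injective
    have hf' : f.map (algebraMap (rac S) K) ≠ 0 :=
      (Polynomial.map_ne_zero_iff hinj).2 hf
    obtain ⟨c, s, q, hc, hq, h⟩ := hK _ hf'
    have hms : (s.map fun a => X - C a).prod.Monic :=
      monic_multiset_prod_of_monic _ _ fun a _ => monic_X_sub_C a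
    have hmq : (q.map fun p : K × K => (X - C p.1) ^ 2 + C (p.2 ^ 2)).prod.Monic :=
      monic_multiset_prod_of_monic _ _ fun p _ => quad_monic p.1 p.2
    have hlc : (f.map (algebraMap (rac S) K)).leadingCoeff = c := by
      rw [h, mul_assoc, leadingCoeff_mul, leadingCoeff_C, (hms.mul hmq).leadingCoeff, mul_one]
    have hcR : c = algebraMap (rac S) K f.leadingCoeff := by
      rw [← hlc, leadingCoeff_map_of_injective hinj]
    have hfc : ∀ i, (f.map (algebraMap (rac S) K)).coeff i ∈ rac S := by
      intro i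
      rw [coeff_map]
      exact (f.coeff i).2
    -- roots
    have hs : ∀ a ∈ s, a ∈ rac S := by
      intro a ha
      refine rac_closed S a _ hf' hfc ?_
      have : (X - C a) ∣ (f.map (algebraMap (rac S) K)) := by
        rw [h]
        refine Dvd.dvd.mul_right (Dvd.dvd.mul_left ?_ _) _
        exact Multiset.dvd_prod (Multiset.mem_map_of_mem _ ha)
      exact dvd_iff_isRoot.1 this
    -- quadratic factors
    have hlf : f.leadingCoeff ≠ 0 := leadingCoeff_ne_zero.2 hf
    have hint : ∀ p ∈ q, ∀ i, ((X - C p.1) ^ 2 + C (p.2 ^ 2) : K[X]).coeff i ∈ rac S := by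
      intro p hp i
      have h3 : ((X - C p.1) ^ 2 + C (p.2 ^ 2) : K[X]) ∣
          (C (f.leadingCoeff)⁻¹ * f).map (algebraMap (rac S) K) := by
        rw [Polynomial.map_mul, h]
        refine Dvd.dvd.mul_left (Dvd.dvd.mul_left ?_ _) _
        exact Multiset.dvd_prod (Multiset.mem_map_of_mem
          (fun p : K × K => ((X - C p.1) ^ 2 + C (p.2 ^ 2) : K[X])) hp)
      have h4 : (C (f.leadingCoeff)⁻¹ * f).Monic := by
        rw [mul_comm]
        exact monic_mul_leadingCoeff_inv hf
      have h5 := isIntegral_coeff_of_dvd _ _ h4 (quad_monic p.1 p.2) h3 i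
      obtain ⟨Q, hQm, hQ⟩ := h5
      refine rac_closed S _ (Q.map (algebraMap (rac S) K)) (hQm.map _).ne_zero ?_ ?_
      · intro j
        rw [coeff_map]
        exact (Q.coeff j).2
      · rw [eval_map]
        exact hQ
    have hq1 : ∀ p ∈ q, p.1 ∈ rac S := by
      intro p hp
      have h6 := hint p hp 1
      rw [(quad_coeff p.1 p.2).1] at h6
      have h7 : p.1 = -(-(2 * p.1)) / 2 := by
        field_simp
      rw [h7]
      exact div_mem (neg_mem h6) (ofNat_mem _ 2)
    have hq2 : ∀ p ∈ q, p.2 ∈ rac S := by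
      intro p hp
      have h6 := hint p hp 0
      rw [(quad_coeff p.1 p.2).2] at h6
      have h7 : p.2 ^ 2 ∈ rac S := by
        have h8 : p.2 ^ 2 = (p.1 ^ 2 + p.2 ^ 2) - p.1 ^ 2 := by ring
        rw [h8]
        exact sub_mem h6 (pow_mem (hq1 p hp) 2)
      refine rac_closed S _ (X ^ 2 - C (p.2 ^ 2)) (X_pow_sub_C_ne_zero (by norm_num) _) ?_ ?_
      · intro i
        rw [coeff_sub, coeff_X_pow, coeff_C]
        split_ifs
        · exact sub_mem (one_mem _) h7
        · exact sub_mem (one_mem _) (zero_mem _)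
        · exact sub_mem (zero_mem _) h7
        · exact sub_mem (zero_mem _) (zero_mem _)
      · simp
    have hcast : ∀ p ∈ q, p.1 ∈ rac S ∧ p.2 ∈ rac S := fun p hp => ⟨hq1 p hp, hq2 p hp⟩
    refine ⟨f.leadingCoeff, s.pmap (fun a ha => (⟨a, ha⟩ : rac S)) hs,
      q.pmap (fun p hp => ((⟨p.1, hp.1⟩, ⟨p.2, hp.2⟩) : rac S × rac S)) hcast, hlf, ?_, ?_⟩
    · intro p hp
      rw [Multiset.mem_pmap] at hp
      obtain ⟨p', hp', rfl⟩ := hp
      intro h0
      exact hq p' hp' (congrArg Subtype.val h0)
    · apply Polynomial.map_injective _ hinj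
      rw [h, Polynomial.map_mul, Polynomial.map_mul, Polynomial.map_multiset_prod,
        Polynomial.map_multiset_prod, map_C, ← hcR, Multiset.map_map, Multiset.map_map,
        Multiset.map_pmap, Multiset.map_pmap]
      congr 1
      · congr 2
        rw [← Multiset.pmap_eq_map (p := fun a => a ∈ rac S) (H := hs)]
        refine Multiset.pmap_congr _ fun a _ h1 h2 => ?_
        simp
        rfl
      · congr 1
        rw [← Multiset.pmap_eq_map (p := fun p : K × K => p.1 ∈ rac S ∧ p.2 ∈ rac S) (H := hcast)]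
        refine Multiset.pmap_congr _ fun a _ h1 h2 => ?_
        simp
        rfl
  · intro x hx
    obtain ⟨p, hp, h0⟩ := (mem_rac S x).1 hx
    refine ⟨p.map (algebraMap (Subring.closure S) K), ?_, ?_, ?_⟩
    · exact (Polynomial.map_ne_zero_iff Subtype.val_injective).2 hp
    · intro i
      rw [coeff_map]
      exact (p.coeff i).2
    · rw [Polynomial.eval_map_algebraMap]
      exact h0

end Pool.Agent.SpecR
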