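import Pool.Agent.SpecR.Defs

/-!
# SpecR: finite unions of intervals
-/

set_option autoImplicit false

open Polynomial

namespace Pool.Agent.SpecR

section Poly

variable {R : Type} [Field R] [LinearOrder R] [IsStrictOrderedRing R]

private lemma mem_posSet (f : R[X]) (n : ℕ) (x : R) : some x ∈ posSet f n ↔ 0 < f.eval x := by
  show 0 < f.eval x / (1 + x ^ 2) ^ n ↔ _
  have h : 0 < (1 + x ^ 2) ^ n := by positivity
  exact div_pos_iff_of_pos_right h

private lemma sign_eval {f : R[X]} {c : R} {s : Multiset R} {q : Multiset (R × R)}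
    (hq : ∀ p ∈ q, p.2 ≠ 0)
    (hf : f = C c * (s.map fun a => X - C a).prod *
      (q.map fun p => (X - C p.1) ^ 2 + C (p.2 ^ 2)).prod) {x y : R}
    (h : ∀ a ∈ s, SignType.sign (x - a) = SignType.sign (y - a)) :
    (0 < f.eval x ↔ 0 < f.eval y) := by
  have key : ∀ z : R, SignType.sign (f.eval z) =
      SignType.sign c * (s.map fun a => SignType.sign (z - a)).prod := by
    intro z
    have h1 : f.eval z = c * (s.map fun a => z - a).prod *
        (q.map fun p => (z - p.1) ^ 2 + p.2 ^ 2).prod := by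
      rw [hf, eval_mul, eval_mul, eval_C, eval_multiset_prod, eval_multiset_prod,
        Multiset.map_map, Multiset.map_map]
      simp
    have h2 : 0 < (q.map fun p : R × R => (z - p.1) ^ 2 + p.2 ^ 2).prod := by
      refine Multiset.prod_pos ?_
      intro w hw
      obtain ⟨p, hp, rfl⟩ := Multiset.mem_map.mp hw
      have := hq p hp
      positivity
    rw [h1, sign_mul, sign_mul, sign_pos h2, mul_one]
    congr 1
    have h3 := map_multiset_prod (signHom (α := R)) (s.map fun a => z - a)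
    rw [Multiset.map_map] at h3
    exact h3
  have h4 : SignType.sign (f.eval x) = SignType.sign (f.eval y) := by
    rw [key, key]
    congr 2
    exact Multiset.map_congr rfl h
  rw [← sign_eq_one_iff, ← sign_eq_one_iff, h4]

private lemma exists_delta (x : R) (F : Finset R) (h : ∀ a ∈ F, a ≠ x) :
    ∃ δ > 0, ∀ a ∈ F, δ ≤ |x - a| := by
  classical
  induction F using Finset.induction_on with
  | empty => exact ⟨1, one_pos, by simp⟩
  | insert b F hb ih =>
    obtain ⟨δ, hδ, h1⟩ := ih fun a ha => h a (Finset.mem_insert_of_mem ha)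
    have h2 : 0 < |x - b| := abs_pos.mpr (sub_ne_zero.mpr (h b (Finset.mem_insert_self _ _)).symm)
    refine ⟨min δ |x - b|, lt_min hδ h2, fun a ha => ?_⟩
    rcases Finset.mem_insert.mp ha with rfl | ha
    · exact min_le_right _ _
    · exact (min_le_left _ _).trans (h1 a ha)

private lemma sign_eq_of_lt {x y a : R} (h : |y - x| < |x - a|) :
    SignType.sign (x - a) = SignType.sign (y - a) := by
  rcases lt_trichotomy x a with h1 | h1 | h1
  · have h2 : x - a < 0 := sub_neg.mpr h1
    rw [abs_of_neg h2] at h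
    have h3 := (abs_lt.mp h).2
    have h4 : y - a < 0 := by linarith
    rw [sign_neg h2, sign_neg h4]
  · rw [h1, sub_self, abs_zero] at h
    exact absurd h (not_lt.mpr (abs_nonneg _))
  · have h2 : 0 < x - a := sub_pos.mpr h1
    rw [abs_of_pos h2] at h
    have h3 := (abs_lt.mp h).1
    have h4 : 0 < y - a := by linarith
    rw [sign_pos h2, sign_pos h4]

theorem tame (hR : Factors R) {U : Set (Option R)} (hU : Gen (basic R) U) :
    (∃ F : Finset R, ∀ x y : R, x < y → (∀ z ∈ F, z < x ∨ y < z) →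
      (some x ∈ U ↔ some y ∈ U)) ∧
    ∀ x : R, some x ∈ U → ∃ δ > 0, ∀ y : R, |y - x| < δ → some y ∈ U := by
  classical
  induction hU with
  | base h =>
    obtain ⟨f, n, -, rfl⟩ := h
    by_cases hf : f = 0
    · subst hf
      refine ⟨⟨∅, fun x y _ _ => ?_⟩, fun x hx => ?_⟩
      · rw [mem_posSet, mem_posSet, eval_zero, eval_zero]
      · rw [mem_posSet, eval_zero] at hx
        exact absurd hx (lt_irrefl 0)
    · obtain ⟨c, s, q, hc, hq, hfe⟩ := hR f hf
      refine ⟨⟨s.toFinset, fun x y hxy h => ?_⟩, fun x hx => ?_⟩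
      · rw [mem_posSet, mem_posSet]
        refine sign_eval hq hfe fun a ha => ?_
        rcases h a (Multiset.mem_toFinset.mpr ha) with h1 | h1
        · rw [sign_pos (sub_pos.mpr h1), sign_pos (sub_pos.mpr (h1.trans hxy))]
        · rw [sign_neg (sub_neg.mpr h1), sign_neg (sub_neg.mpr (hxy.trans h1))]
      · rw [mem_posSet] at hx
        have hroot : ∀ a ∈ s.toFinset, a ≠ x := by
          rintro a ha rfl
          have h1 : f.eval a = 0 := by
            rw [hfe, eval_mul, eval_mul, eval_multiset_prod, Multiset.map_map]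
            have h2 : (s.map ((eval a) ∘ fun b => X - C b)).prod = 0 := by
              refine Multiset.prod_eq_zero (Multiset.mem_map.mpr ⟨a, Multiset.mem_toFinset.mp ha, ?_⟩)
              simp
            rw [h2, mul_zero, zero_mul]
          rw [h1] at hx
          exact lt_irrefl 0 hx
        obtain ⟨δ, hδ, h1⟩ := exists_delta x s.toFinset hroot
        refine ⟨δ, hδ, fun y hy => ?_⟩
        rw [mem_posSet]
        refine (sign_eval hq hfe fun a ha => ?_).mp hx
        exact sign_eq_of_lt (hy.trans_le (h1 a (Multiset.mem_toFinset.mpr ha)))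
  | empty => exact ⟨⟨∅, fun _ _ _ _ => Iff.rfl⟩, fun x hx => absurd hx (Set.notMem_empty _)⟩
  | univ => exact ⟨⟨∅, fun _ _ _ _ => Iff.rfl⟩, fun x _ => ⟨1, one_pos, fun _ _ => trivial⟩⟩
  | union _ _ h1 h2 =>
    obtain ⟨⟨F1, hF1⟩, hd1⟩ := h1
    obtain ⟨⟨F2, hF2⟩, hd2⟩ := h2
    refine ⟨⟨F1 ∪ F2, fun x y hxy h => ?_⟩, fun x hx => ?_⟩
    · exact or_congr (hF1 x y hxy fun z hz => h z (Finset.mem_union_left _ hz))
        (hF2 x y hxy fun z hz => h z (Finset.mem_union_right _ hz))
    · rcases hx with hx | hx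
      · obtain ⟨δ, hδ, h3⟩ := hd1 x hx
        exact ⟨δ, hδ, fun y hy => Or.inl (h3 y hy)⟩
      · obtain ⟨δ, hδ, h3⟩ := hd2 x hx
        exact ⟨δ, hδ, fun y hy => Or.inr (h3 y hy)⟩
  | inter _ _ h1 h2 =>
    obtain ⟨⟨F1, hF1⟩, hd1⟩ := h1
    obtain ⟨⟨F2, hF2⟩, hd2⟩ := h2
    refine ⟨⟨F1 ∪ F2, fun x y hxy h => ?_⟩, fun x hx => ?_⟩
    · exact and_congr (hF1 x y hxy fun z hz => h z (Finset.mem_union_left _ hz))
        (hF2 x y hxy fun z hz => h z (Finset.mem_union_right _ hz))
    · obtain ⟨δ, hδ, h3⟩ := hd1 x hx.1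
      obtain ⟨δ', hδ', h4⟩ := hd2 x hx.2
      exact ⟨min δ δ', lt_min hδ hδ', fun y hy =>
        ⟨h3 y (hy.trans_le (min_le_left _ _)), h4 y (hy.trans_le (min_le_right _ _))⟩⟩

theorem exists_left (hR : Factors R) {U : Set (Option R)} (hU : Gen (basic R) U) {a b : R}
    (hab : a < b) (ha : some a ∉ U) (hb : some b ∈ U) :
    ∃ c, a ≤ c ∧ c < b ∧ some c ∉ U ∧ ∀ y, c < y → y ≤ b → some y ∈ U := by
  classical
  obtain ⟨⟨F, hF⟩, hd⟩ := tame hR hU
  obtain ⟨c, hc, hmax⟩ := Finset.exists_max_image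
    ((insert a F).filter fun z => a ≤ z ∧ z < b ∧ some z ∉ U) id
    ⟨a, Finset.mem_filter.mpr ⟨Finset.mem_insert_self _ _, le_rfl, hab, ha⟩⟩
  obtain ⟨-, hc1, hc2, hc3⟩ := Finset.mem_filter.mp hc
  refine ⟨c, hc1, hc2, hc3, fun y hcy hyb => ?_⟩
  by_contra hy
  have hyb' : y < b := lt_of_le_of_ne hyb fun h => hy (h ▸ hb)
  by_cases hex : ∃ z ∈ F, y ≤ z ∧ z ≤ b
  · obtain ⟨z, hz, hmin⟩ := Finset.exists_min_image (F.filter fun z => y ≤ z ∧ z ≤ b) id
      (by
        obtain ⟨z, hz, h1⟩ := hex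
        exact ⟨z, Finset.mem_filter.mpr ⟨hz, h1⟩⟩)
    obtain ⟨hzF, hyz, hzb⟩ := Finset.mem_filter.mp hz
    have hzU : some z ∉ U := by
      rcases eq_or_lt_of_le hyz with h1 | h1
      · rwa [← h1]
      · intro hzU
        obtain ⟨δ, hδ, h2⟩ := hd z hzU
        have h3 : some (max y (z - δ / 2)) ∈ U := by
          refine h2 _ ?_
          have h4 : max y (z - δ / 2) < z := max_lt h1 (by linarith)
          have h5 : z - δ / 2 ≤ max y (z - δ / 2) := le_max_right _ _
          rw [abs_lt]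
          constructor <;> linarith
        rcases eq_or_lt_of_le (le_max_left y (z - δ / 2)) with h4 | h4
        · rw [← h4] at h3
          exact hy h3
        · refine hy ((hF y _ h4 fun w hw => ?_).mpr h3)
          by_contra hcon
          push Not at hcon
          have h5 : max y (z - δ / 2) < z := max_lt h1 (by linarith)
          have h6 := hmin w (Finset.mem_filter.mpr ⟨hw, hcon.1, (hcon.2.trans h5.le).trans hzb⟩)
          exact absurd (hcon.2.trans_lt h5) (not_lt.mpr h6)
    rcases eq_or_lt_of_le hzb with h1 | h1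
    · exact hzU (h1 ▸ hb)
    · have h2 := hmax z (Finset.mem_filter.mpr ⟨Finset.mem_insert_of_mem hzF,
        (hc1.trans hcy.le).trans hyz, h1, hzU⟩)
      exact absurd (hcy.trans_le hyz) (not_lt.mpr h2)
  · push Not at hex
    refine hy ((hF y b hyb' fun z hz => ?_).mpr hb)
    by_contra hcon
    push Not at hcon
    exact absurd (hex z hz hcon.1) (not_lt.mpr hcon.2)

theorem exists_right (hR : Factors R) {U : Set (Option R)} (hU : Gen (basic R) U) {a b : R}
    (hab : a < b) (ha : some a ∈ U) (hb : some b ∉ U) :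
    ∃ c, a < c ∧ c ≤ b ∧ some c ∉ U ∧ ∀ y, a ≤ y → y < c → some y ∈ U := by
  classical
  obtain ⟨⟨F, hF⟩, hd⟩ := tame hR hU
  obtain ⟨c, hc, hmin⟩ := Finset.exists_min_image
    ((insert b F).filter fun z => a < z ∧ z ≤ b ∧ some z ∉ U) id
    ⟨b, Finset.mem_filter.mpr ⟨Finset.mem_insert_self _ _, hab, le_rfl, hb⟩⟩
  obtain ⟨-, hc1, hc2, hc3⟩ := Finset.mem_filter.mp hc
  refine ⟨c, hc1, hc2, hc3, fun y hay hyc => ?_⟩
  by_contra hy
  have hay' : a < y := lt_of_le_of_ne hay fun h => hy (h ▸ ha)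
  by_cases hex : ∃ z ∈ F, a ≤ z ∧ z ≤ y
  · obtain ⟨z, hz, hmax⟩ := Finset.exists_max_image (F.filter fun z => a ≤ z ∧ z ≤ y) id
      (by
        obtain ⟨z, hz, h1⟩ := hex
        exact ⟨z, Finset.mem_filter.mpr ⟨hz, h1⟩⟩)
    obtain ⟨hzF, haz, hzy⟩ := Finset.mem_filter.mp hz
    have hzU : some z ∉ U := by
      rcases eq_or_lt_of_le hzy with h1 | h1
      · rwa [h1]
      · intro hzU
        obtain ⟨δ, hδ, h2⟩ := hd z hzU
        have h3 : some (min y (z + δ / 2)) ∈ U := by
          refine h2 _ ?_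
          have h4 : z < min y (z + δ / 2) := lt_min h1 (by linarith)
          have h5 : min y (z + δ / 2) ≤ z + δ / 2 := min_le_right _ _
          rw [abs_lt]
          constructor <;> linarith
        rcases eq_or_lt_of_le (min_le_left y (z + δ / 2)) with h4 | h4
        · rw [h4] at h3
          exact hy h3
        · refine hy ((hF _ y h4 fun w hw => ?_).mp h3)
          by_contra hcon
          push Not at hcon
          have h5 : z < min y (z + δ / 2) := lt_min h1 (by linarith)
          have h6 := hmax w (Finset.mem_filter.mpr ⟨hw, (haz.trans h5.le).trans hcon.1, hcon.2⟩)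
          exact absurd (h5.trans_le hcon.1) (not_lt.mpr h6)
    rcases eq_or_lt_of_le haz with h1 | h1
    · exact hzU (h1 ▸ ha)
    · have h2 := hmin z (Finset.mem_filter.mpr ⟨Finset.mem_insert_of_mem hzF, h1,
        (hzy.trans hyc.le).trans hc2, hzU⟩)
      exact absurd (hzy.trans_lt hyc) (not_lt.mpr h2)
  · push Not at hex
    refine hy ((hF a y hay' fun z hz => ?_).mp ha)
    by_contra hcon
    push Not at hcon
    exact absurd (hex z hz hcon.1) (not_lt.mpr hcon.2)

end Poly

end Pool.Agent.SpecR
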