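import Pool.Agent.SpecR.RepOf
import Pool.Agent.SpecR.Tame

/-!
# The lattice which is not the lattice of a real spectrum
-/

set_option autoImplicit false

open Polynomial

namespace Pool.Agent.SpecR

universe u

section

variable {R : Type} [Field R] [LinearOrder R]

/-- the elements of the lattice as sets -/
private def bρ (C : Type) [LinearOrder C] (x : (D1 R).carrier ⊕ WithTop C) :
    Set (Option R ⊕ WithTop C) :=
  match x with
  | .inl U => Sum.inl '' U.1
  | .inr l => Set.range Sum.inl ∪ Sum.inr '' {k | k ≤ l}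

private theorem inl_mem_inr {C : Type} [LinearOrder C] (y : Option R) (l : WithTop C) :
    Sum.inl y ∈ bρ (R := R) C (.inr l) := Or.inl ⟨y, rfl⟩

private theorem inr_mem_inr {C : Type} [LinearOrder C] (k l : WithTop C) :
    Sum.inr k ∈ bρ (R := R) C (.inr l) ↔ k ≤ l := by
  simp [bρ]

private theorem inl_mem_inl {C : Type} [LinearOrder C] (y : Option R) (U : (D1 R).carrier) :
    Sum.inl y ∈ bρ (R := R) C (.inl U) ↔ y ∈ U.1 := by
  simp [bρ]

private theorem inr_mem_inl {C : Type} [LinearOrder C] (k : WithTop C) (U : (D1 R).carrier) :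
    ¬ Sum.inr k ∈ bρ (R := R) C (.inl U) := by
  simp [bρ]

private theorem bρ_inj (C : Type) [LinearOrder C] : Function.Injective (bρ (R := R) C) := by
  rintro (U | l) (V | k) h
  · congr 1
    apply Subtype.ext
    ext y
    rw [← inl_mem_inl (C := C), ← inl_mem_inl (C := C), h]
  · exfalso
    have h1 : Sum.inr k ∈ bρ (R := R) C (.inr k) := (inr_mem_inr k k).2 le_rfl
    rw [← h] at h1
    exact inr_mem_inl _ _ h1
  · exfalso
    have h1 : Sum.inr l ∈ bρ (R := R) C (.inr l) := (inr_mem_inr l l).2 le_rfl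
    rw [h] at h1
    exact inr_mem_inl _ _ h1
  · congr 1
    apply le_antisymm
    · rw [← inr_mem_inr (R := R), ← h, inr_mem_inr]
    · rw [← inr_mem_inr (R := R), h, inr_mem_inr]

omit [Field R] [LinearOrder R] in
private theorem bρ_ext {C : Type} [LinearOrder C] {S T : Set (Option R ⊕ WithTop C)}
    (h1 : ∀ y, Sum.inl y ∈ S ↔ Sum.inl y ∈ T) (h2 : ∀ k, Sum.inr k ∈ S ↔ Sum.inr k ∈ T) :
    S = T := by
  ext (y | k)
  · exact h1 y
  · exact h2 k

private theorem bρ_sup (C : Type) [LinearOrder C] (x y : (ordSum (D1 R) C).carrier) :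
    bρ (R := R) C ((ordSum (D1 R) C).sup x y) = bρ C x ∪ bρ C y := by
  rcases x with U | l <;> rcases y with V | k <;> apply bρ_ext
  · intro y
    change Sum.inl y ∈ bρ C (.inl _) ↔ _
    rw [Set.mem_union, inl_mem_inl, inl_mem_inl, inl_mem_inl]
    rfl
  · intro j
    change Sum.inr j ∈ bρ C (.inl _) ↔ _
    simp [bρ]
  · intro y
    change Sum.inl y ∈ bρ C (.inr _) ↔ _
    simp [bρ]
  · intro j
    change Sum.inr j ∈ bρ C (.inr _) ↔ _
    simp [bρ]
  · intro y
    change Sum.inl y ∈ bρ C (.inr _) ↔ _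
    simp [bρ]
  · intro j
    change Sum.inr j ∈ bρ C (.inr _) ↔ _
    simp [bρ]
  · intro y
    change Sum.inl y ∈ bρ C (.inr _) ↔ _
    simp [bρ]
  · intro j
    change Sum.inr j ∈ bρ C (.inr (max l k)) ↔ _
    simp [bρ]

private theorem bρ_inf (C : Type) [LinearOrder C] (x y : (ordSum (D1 R) C).carrier) :
    bρ (R := R) C ((ordSum (D1 R) C).inf x y) = bρ C x ∩ bρ C y := by
  rcases x with U | l <;> rcases y with V | k <;> apply bρ_ext
  · intro y
    change Sum.inl y ∈ bρ C (.inl _) ↔ _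
    rw [Set.mem_inter_iff, inl_mem_inl, inl_mem_inl, inl_mem_inl]
    rfl
  · intro j
    change Sum.inr j ∈ bρ C (.inl _) ↔ _
    simp [bρ]
  · intro y
    change Sum.inl y ∈ bρ C (.inl _) ↔ _
    simp [bρ]
  · intro j
    change Sum.inr j ∈ bρ C (.inl _) ↔ _
    simp [bρ]
  · intro y
    change Sum.inl y ∈ bρ C (.inl _) ↔ _
    simp [bρ]
  · intro j
    change Sum.inr j ∈ bρ C (.inl _) ↔ _
    simp [bρ]
  · intro y
    change Sum.inl y ∈ bρ C (.inr _) ↔ _
    simp [bρ]
  · intro j
    change Sum.inr j ∈ bρ C (.inr (min l k)) ↔ _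
    simp [bρ]

private theorem bρ_zero (C : Type) [LinearOrder C] :
    bρ (R := R) C (ordSum (D1 R) C).zero = ∅ := by
  apply bρ_ext
  · intro y
    change Sum.inl y ∈ bρ C (.inl (D1 R).zero) ↔ _
    rw [inl_mem_inl]
    rfl
  · intro j
    change Sum.inr j ∈ bρ C (.inl (D1 R).zero) ↔ _
    simp [bρ]

private theorem bρ_one (C : Type) [LinearOrder C] :
    bρ (R := R) C (ordSum (D1 R) C).one = Set.univ := by
  apply bρ_ext
  · intro y
    change Sum.inl y ∈ bρ C (.inr ⊤) ↔ _
    simp [bρ]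
  · intro j
    change Sum.inr j ∈ bρ C (.inr ⊤) ↔ _
    simp [bρ]

/-- elements of the chain which are generated are generators -/
private theorem chain_gen {C : Type} [LinearOrder C] {G : Set (ordSum (D1 R) C).carrier}
    {x : (ordSum (D1 R) C).carrier} (hx : GenD (ordSum (D1 R) C) G x) :
    ∀ l : C, x = Sum.inr (l : WithTop C) → x ∈ G := by
  induction hx with
  | base h => exact fun _ _ => h
  | zero =>
    intro l h
    exact absurd h (by
      change (Sum.inl _ : (D1 R).carrier ⊕ WithTop C) ≠ _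
      simp)
  | one =>
    intro l h
    exfalso
    have h1 : (Sum.inr ⊤ : (D1 R).carrier ⊕ WithTop C) = Sum.inr (l : WithTop C) := h
    rw [Sum.inr.injEq] at h1
    exact WithTop.coe_ne_top h1.symm
  | @sup x y _ _ ihx ihy =>
    intro l h
    rcases x with U | a <;> rcases y with V | b
    · exact absurd h (by
        change (Sum.inl _ : (D1 R).carrier ⊕ WithTop C) ≠ _
        simp)
    · exact ihy l h
    · exact ihx l h
    · have h1 : (Sum.inr (max a b) : (D1 R).carrier ⊕ WithTop C) = Sum.inr (l : WithTop C) := h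
      have h2 : max a b = (l : WithTop C) := Sum.inr.inj h1
      rcases max_choice a b with h3 | h3
      · have h4 : a = (l : WithTop C) := h3.symm.trans h2
        have h5 : (ordSum (D1 R) C).sup (Sum.inr a) (Sum.inr b) = Sum.inr a := by
          change (Sum.inr (max a b) : (D1 R).carrier ⊕ WithTop C) = _
          rw [h3]
        rw [h5]
        exact ihx l (by rw [h4])
      · have h4 : b = (l : WithTop C) := h3.symm.trans h2
        have h5 : (ordSum (D1 R) C).sup (Sum.inr a) (Sum.inr b) = Sum.inr b := by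
          change (Sum.inr (max a b) : (D1 R).carrier ⊕ WithTop C) = _
          rw [h3]
        rw [h5]
        exact ihy l (by rw [h4])
  | @inf x y _ _ ihx ihy =>
    intro l h
    rcases x with U | a <;> rcases y with V | b
    · exact absurd h (by
        change (Sum.inl _ : (D1 R).carrier ⊕ WithTop C) ≠ _
        simp)
    · exact absurd h (by
        change (Sum.inl _ : (D1 R).carrier ⊕ WithTop C) ≠ _
        simp)
    · exact absurd h (by
        change (Sum.inl _ : (D1 R).carrier ⊕ WithTop C) ≠ _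
        simp)
    · have h1 : (Sum.inr (min a b) : (D1 R).carrier ⊕ WithTop C) = Sum.inr (l : WithTop C) := h
      have h2 : min a b = (l : WithTop C) := Sum.inr.inj h1
      rcases min_choice a b with h3 | h3
      · have h4 : a = (l : WithTop C) := h3.symm.trans h2
        have h5 : (ordSum (D1 R) C).inf (Sum.inr a) (Sum.inr b) = Sum.inr a := by
          change (Sum.inr (min a b) : (D1 R).carrier ⊕ WithTop C) = _
          rw [h3]
        rw [h5]
        exact ihx l (by rw [h4])
      · have h4 : b = (l : WithTop C) := h3.symm.trans h2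
        have h5 : (ordSum (D1 R) C).inf (Sum.inr a) (Sum.inr b) = Sum.inr b := by
          change (Sum.inr (min a b) : (D1 R).carrier ⊕ WithTop C) = _
          rw [h3]
        rw [h5]
        exact ihy l (by rw [h4])

/-- generators separate points -/
private theorem separate {D : LStr} {Y : Type} {ρ : D.carrier → Set Y}
    (hsup : ∀ x y, ρ (D.sup x y) = ρ x ∪ ρ y) (hinf : ∀ x y, ρ (D.inf x y) = ρ x ∩ ρ y)
    (hzero : ρ D.zero = ∅) (hone : ρ D.one = Set.univ) {G : Set D.carrier} {x : D.carrier}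
    (hx : GenD D G x) {y y' : Y} : y ∈ ρ x → y' ∉ ρ x → ∃ g ∈ G, y ∈ ρ g ∧ y' ∉ ρ g := by
  induction hx with
  | base h => exact fun h1 h2 => ⟨_, h, h1, h2⟩
  | zero =>
    intro h1
    rw [hzero] at h1
    exact absurd h1 (Set.notMem_empty _)
  | one =>
    intro _ h2
    rw [hone] at h2
    exact absurd (Set.mem_univ _) h2
  | sup _ _ ihx ihy =>
    intro h1 h2
    rw [hsup] at h1 h2
    rw [Set.mem_union, not_or] at h2
    rcases h1 with h1 | h1
    · exact ihx h1 h2.1
    · exact ihy h1 h2.2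
  | inf _ _ ihx ihy =>
    intro h1 h2
    rw [hinf] at h1 h2
    rw [Set.mem_inter_iff, not_and_or] at h2
    rcases h2 with h2 | h2
    · exact ihx h1.1 h2
    · exact ihy h1.2 h2

end

variable {R : Type} [Field R] [LinearOrder R] [IsStrictOrderedRing R]

/-- the elements of the lattice are open sets -/
private theorem open_pt (hR : Factors R) {C : Type} [LinearOrder C]
    (d : (D1 R).carrier ⊕ WithTop C) {x : R} (hx : Sum.inl (some x) ∈ bρ (R := R) C d) :
    ∃ δ > 0, ∀ y : R, |y - x| < δ → Sum.inl (some y) ∈ bρ (R := R) C d := by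
  rcases d with U | l
  · rw [inl_mem_inl] at hx
    obtain ⟨δ, h1, h2⟩ := (tame hR U.2).2 x hx
    exact ⟨δ, h1, fun y hy => (inl_mem_inl _ _).2 (h2 y hy)⟩
  · exact ⟨1, one_pos, fun y _ => inl_mem_inr _ _⟩

private theorem left_pt (hR : Factors R) {C : Type} [LinearOrder C]
    (d : (D1 R).carrier ⊕ WithTop C) {x y : R} (hxy : x < y)
    (hx : Sum.inl (some x) ∉ bρ (R := R) C d) (hy : Sum.inl (some y) ∈ bρ (R := R) C d) :
    ∃ c, x ≤ c ∧ c < y ∧ Sum.inl (some c) ∉ bρ (R := R) C d ∧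
      ∀ z, c < z → z ≤ y → Sum.inl (some z) ∈ bρ (R := R) C d := by
  rcases d with U | l
  · rw [inl_mem_inl] at hx hy
    obtain ⟨c, h1, h2, h3, h4⟩ := exists_left hR U.2 hxy hx hy
    exact ⟨c, h1, h2, fun h => h3 ((inl_mem_inl _ _).1 h),
      fun z hz hz' => (inl_mem_inl _ _).2 (h4 z hz hz')⟩
  · exact absurd (inl_mem_inr _ _) hx

private theorem right_pt (hR : Factors R) {C : Type} [LinearOrder C]
    (d : (D1 R).carrier ⊕ WithTop C) {x y : R} (hxy : x < y)
    (hx : Sum.inl (some x) ∈ bρ (R := R) C d) (hy : Sum.inl (some y) ∉ bρ (R := R) C d) :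
    ∃ c, x < c ∧ c ≤ y ∧ Sum.inl (some c) ∉ bρ (R := R) C d ∧
      ∀ z, x ≤ z → z < c → Sum.inl (some z) ∈ bρ (R := R) C d := by
  rcases d with U | l
  · rw [inl_mem_inl] at hx hy
    obtain ⟨c, h1, h2, h3, h4⟩ := exists_right hR U.2 hxy hx hy
    exact ⟨c, h1, h2, fun h => h3 ((inl_mem_inl _ _).1 h),
      fun z hz hz' => (inl_mem_inl _ _).2 (h4 z hz hz')⟩
  · exact absurd (inl_mem_inr _ _) hy

private theorem exists_near_right {x b δ : R} (hδ : 0 < δ) (hx : x < b) :
    ∃ y, x < y ∧ y ≤ b ∧ |y - x| < δ := by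
  refine ⟨min (x + δ / 2) b, ?_, min_le_right _ _, ?_⟩
  · exact lt_min (by linarith) hx
  · rw [abs_of_nonneg]
    · have := min_le_left (x + δ / 2) b
      linarith
    · have : x ≤ min (x + δ / 2) b := le_min (by linarith) hx.le
      linarith

private theorem exists_near_left {x b δ : R} (hδ : 0 < δ) (hx : b < x) :
    ∃ y, y < x ∧ b ≤ y ∧ |y - x| < δ := by
  refine ⟨max (x - δ / 2) b, ?_, le_max_right _ _, ?_⟩
  · exact max_lt (by linarith) hx
  · rw [abs_of_nonpos]
    · have := le_max_left (x - δ / 2) b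
      linarith
    · have : max (x - δ / 2) b ≤ x := max_le (by linarith) hx.le
      linarith

/-- the argument for the relations `P x a`: `a` is positive at the point `x` -/
private theorem embed {C : Type} [LinearOrder C] {A : Type u} [CommRing A] (P : R → A → Prop)
    (hP : ∀ x, IsPos (P x))
    (hopen : ∀ x a, P x a → ∃ δ > 0, ∀ y : R, |y - x| < δ → P y a)
    (hleft : ∀ (a : A) (x y : R), x < y → ¬ P x a → P y a →
      ∃ c, x ≤ c ∧ c < y ∧ ¬ P c a ∧ ∀ z, c < z → z ≤ y → P z a)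
    (hright : ∀ (a : A) (x y : R), x < y → P x a → ¬ P y a →
      ∃ c, x < c ∧ c ≤ y ∧ ¬ P c a ∧ ∀ z, x ≤ z → z < c → P z a)
    (hsep : ∀ x y : R, x ≠ y → ∃ a, P x a ∧ ¬ P y a)
    (t : C → A) (htP : ∀ l x, P x (t l)) (htt : ∀ l m, l < m → ∀ x, P x (t m - t l)) :
    ∃ c : C → R, StrictMono c := by
  -- the function `f`
  obtain ⟨f, hf1, hf0⟩ := hsep 1 0 one_ne_zero
  obtain ⟨a', -, ha1, hfa, hfa'⟩ := hleft f 0 1 one_pos hf0 hf1
  -- the function `g`
  obtain ⟨g, hga, hg1⟩ := hsep a' 1 ha1.ne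
  obtain ⟨b', hab, hb1, hgb, hgb'⟩ := hright g a' 1 ha1 hga hg1
  have hZb : ∀ l, P b' (f - t l * g) := by
    intro l
    have h1 : P b' ((f - t l * g) + t l * g) := by
      rw [sub_add_cancel]
      exact hfa' b' hab hb1
    rcases (hP b').of_add _ _ h1 with h2 | h2
    · exact h2
    · rcases (hP b').of_mul _ _ h2 with h3 | h3
      · exact absurd h3.2 hgb
      · exact absurd h3.1 ((hP b').neg _ (htP l b'))
  have hWa : ∀ l, P a' (t l * g - f) := by
    intro l
    have h1 : P a' ((t l * g - f) + f) := by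
      rw [sub_add_cancel]
      exact (hP a').mul _ _ (htP l a') hga
    rcases (hP a').of_add _ _ h1 with h2 | h2
    · exact h2
    · exact absurd h2 hfa
  have hZa : ∀ l, ¬ P a' (f - t l * g) := by
    intro l h
    have h1 := (hP a').neg _ (hWa l)
    rw [neg_sub] at h1
    exact h1 h
  choose c hc1 hc2 hc3 hc4 using fun l => hleft (f - t l * g) a' b' hab (hZa l) (hZb l)
  refine ⟨c, ?_⟩
  intro l m hlm
  have h1 : P (c l) ((t m * g - f) + (f - t l * g)) := by
    have h2 : (t m * g - f) + (f - t l * g) = (t m - t l) * g := by ring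
    rw [h2]
    exact (hP _).mul _ _ (htt l m hlm _) (hgb' _ (hc1 l) (hc2 l))
  have h2 : P (c l) (t m * g - f) := by
    rcases (hP _).of_add _ _ h1 with h2 | h2
    · exact h2
    · exact absurd h2 (hc3 l)
  obtain ⟨δ, hδ, h3⟩ := hopen _ _ h2
  by_contra hle
  rw [not_lt] at hle
  obtain ⟨y, hy1, hy2, hy3⟩ := exists_near_right hδ (hc2 l)
  have h4 := hc4 m y (hle.trans_lt hy1) hy2
  have h5 := (hP y).neg _ (h3 y hy3)
  rw [neg_sub] at h5
  exact h5 h4

omit [IsStrictOrderedRing R] in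
private theorem basic_sq (y : R) : posSet ((X - Polynomial.C y) ^ 2 : R[X]) 1 ∈ basic R := by
  refine ⟨(X - Polynomial.C y) ^ 2, 1, ?_, rfl⟩
  have h1 := natDegree_pow_le (p := (X - Polynomial.C y : R[X])) (n := 2)
  rw [natDegree_X_sub_C] at h1
  exact h1

private theorem mem_sq (x y : R) : some x ∈ posSet ((X - Polynomial.C y) ^ 2 : R[X]) 1 ↔ x ≠ y := by
  change 0 < ((X - Polynomial.C y) ^ 2 : R[X]).eval x / (1 + x ^ 2) ^ 1 ↔ _
  have h1 : 0 < (1 + x ^ 2) ^ 1 := by positivity
  rw [eval_pow, eval_sub, eval_X, eval_C]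
  constructor
  · rintro h rfl
    rw [sub_self] at h
    simp at h
  · intro h
    have h2 : 0 < (x - y) ^ 2 := by
      have h3 : x - y ≠ 0 := sub_ne_zero.2 h
      positivity
    exact div_pos h2 h1

omit [IsStrictOrderedRing R] in
private theorem htt_aux {C : Type} [LinearOrder C] {A : Type u} [CommRing A]
    (U : A → (D1 R).carrier ⊕ WithTop C)
    (hpos : ∀ y, IsPos fun a => y ∈ bρ (R := R) C (U a))
    (t : C → A) (ht : ∀ l, U (t l) = Sum.inr (l : WithTop C)) (l m : C) (hlm : l < m)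
    (y : Option R) : Sum.inl y ∈ bρ (R := R) C (U (t m - t l)) := by
  have h1 : Sum.inr (m : WithTop C) ∈ bρ (R := R) C (U ((t m - t l) + t l)) := by
    rw [sub_add_cancel, ht m]
    exact (inr_mem_inr _ _).2 le_rfl
  rcases (hpos (Sum.inr (m : WithTop C))).of_add _ _ h1 with h2 | h2
  · generalize U (t m - t l) = d at h2 ⊢
    rcases d with V | k
    · exact absurd h2 (inr_mem_inl _ _)
    · exact inl_mem_inr _ _
  · change Sum.inr (m : WithTop C) ∈ bρ (R := R) C (U (t l)) at h2
    rw [ht l] at h2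
    have h3 := (inr_mem_inr _ _).1 h2
    exact absurd (WithTop.coe_le_coe.1 h3) (not_le.2 hlm)

private theorem hsep_aux {C : Type} [LinearOrder C] {A : Type u}
    (U : A → (ordSum (D1 R) C).carrier) (hgen : ∀ d, GenD (ordSum (D1 R) C) (Set.range U) d)
    (x y : R) (hxy : x ≠ y) :
    ∃ a, Sum.inl (some x) ∈ bρ (R := R) C (U a) ∧ ¬ Sum.inl (some y) ∈ bρ (R := R) C (U a) := by
  have h1 : Sum.inl (some x) ∈ bρ (R := R) C
      (.inl ⟨posSet ((X - Polynomial.C y) ^ 2 : R[X]) 1, .base (basic_sq y)⟩) :=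
    (inl_mem_inl _ _).2 ((mem_sq x y).2 hxy)
  have h2 : ¬ Sum.inl (some y) ∈ bρ (R := R) C
      (.inl ⟨posSet ((X - Polynomial.C y) ^ 2 : R[X]) 1, .base (basic_sq y)⟩) :=
    fun h => (mem_sq y y).1 ((inl_mem_inl _ _).1 h) rfl
  obtain ⟨g, ⟨a, rfl⟩, h3, h4⟩ := separate (ρ := bρ (R := R) C) (bρ_sup C) (bρ_inf C) (bρ_zero C)
    (bρ_one C) (hgen (.inl ⟨posSet ((X - Polynomial.C y) ^ 2 : R[X]) 1, .base (basic_sq y)⟩)) h1 h2
  exact ⟨a, h3, h4⟩

omit [IsStrictOrderedRing R] in
private theorem ht_aux {C : Type} [LinearOrder C] {A : Type u}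
    (U : A → (ordSum (D1 R) C).carrier) (hgen : ∀ d, GenD (ordSum (D1 R) C) (Set.range U) d)
    (l : C) : ∃ a : A, U a = Sum.inr (l : WithTop C) := by
  obtain ⟨a, ha⟩ := chain_gen (hgen (Sum.inr (l : WithTop C))) l rfl
  exact ⟨a, ha⟩

theorem not_rep {C : Type} [LinearOrder C] (hR : Factors R)
    (h : Rep.{u} (ordSum (D1 R) C)) : ∃ c : C → R, StrictMono c := by
  obtain ⟨A, _, U, hpos, hgen⟩ := rep_umap _ h (bρ (R := R) C) (bρ_inj C) (bρ_sup C) (bρ_inf C)
    (bρ_zero C) (bρ_one C)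
  choose t ht using ht_aux U hgen
  exact embed (fun x a => Sum.inl (some x) ∈ bρ (R := R) C (U a))
    (fun x => hpos (Sum.inl (some x))) (fun x a hx => open_pt hR (U a) hx)
    (fun a x y hxy hx hy => left_pt hR (U a) hxy hx hy)
    (fun a x y hxy hx hy => right_pt hR (U a) hxy hx hy)
    (fun x y hxy => hsep_aux U hgen x y hxy) t
    (fun l x => by
      rw [ht l]
      exact inl_mem_inr _ _)
    (fun l m hlm x => htt_aux U hpos t ht l m hlm (some x))

end Pool.Agent.SpecR
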