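import Pool.Agent.SpecR.Defs

/-!
# SR23: cardinality
-/

set_option autoImplicit false

open Polynomial

namespace Pool.Agent.SpecR

private def cardArity {Y : Type} (𝒰 : Set (Set Y)) : (𝒰 ⊕ Bool) ⊕ Bool → Type
  | .inl _ => Empty
  | .inr _ => Bool

private def cardVal {Y : Type} (𝒰 : Set (Set Y)) :
    (Σ a : (𝒰 ⊕ Bool) ⊕ Bool, cardArity 𝒰 a → Set Y) → Set Y
  | ⟨.inl (.inl U), _⟩ => U.1
  | ⟨.inl (.inr false), _⟩ => ∅
  | ⟨.inl (.inr true), _⟩ => Set.univ
  | ⟨.inr false, g⟩ => g false ∪ g true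
  | ⟨.inr true, g⟩ => g false ∩ g true

private lemma gen_subset {Y : Type} (𝒰 : Set (Set Y)) :
    {U | Gen 𝒰 U} ⊆ Set.range (WType.elim (β := cardArity 𝒰) (Set Y) (cardVal 𝒰)) := by
  intro U hU
  induction hU with
  | @base U h => exact ⟨WType.mk (.inl (.inl ⟨U, h⟩)) (fun e => e.elim), rfl⟩
  | empty => exact ⟨WType.mk (.inl (.inr false)) (fun e => e.elim), rfl⟩
  | univ => exact ⟨WType.mk (.inl (.inr true)) (fun e => e.elim), rfl⟩
  | union _ _ h1 h2 =>
    obtain ⟨w1, rfl⟩ := h1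
    obtain ⟨w2, rfl⟩ := h2
    exact ⟨WType.mk (.inr false) (fun b : Bool => match b with
      | false => w1
      | true => w2), rfl⟩
  | inter _ _ h1 h2 =>
    obtain ⟨w1, rfl⟩ := h1
    obtain ⟨w2, rfl⟩ := h2
    exact ⟨WType.mk (.inr true) (fun b : Bool => match b with
      | false => w1
      | true => w2), rfl⟩

private lemma card_gen {Y : Type} (𝒰 : Set (Set Y)) (h : Cardinal.mk 𝒰 ≤ Cardinal.aleph 1) :
    Cardinal.mk {U : Set Y // Gen 𝒰 U} ≤ Cardinal.aleph 1 := by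
  have h1 : Cardinal.mk {U : Set Y // Gen 𝒰 U} ≤ Cardinal.mk (WType (cardArity 𝒰)) :=
    (Cardinal.mk_le_mk_of_subset (gen_subset 𝒰)).trans Cardinal.mk_range_le
  have hfin : ∀ a, Finite (cardArity 𝒰 a) := by
    intro a
    cases a with
    | inl a => exact inferInstanceAs (Finite Empty)
    | inr a => exact inferInstanceAs (Finite Bool)
  have hinf : Cardinal.aleph0 ≤ Cardinal.aleph 1 := Cardinal.aleph0_le_aleph 1
  have hb : Cardinal.mk Bool ≤ Cardinal.aleph 1 := (Cardinal.mk_le_aleph0).trans hinf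
  refine h1.trans ((WType.cardinalMk_le_max_aleph0_of_finite).trans (max_le ?_ hinf))
  rw [← Cardinal.add_def, ← Cardinal.add_def]
  exact Cardinal.add_le_of_le hinf (Cardinal.add_le_of_le hinf h hb) hb

variable {R : Type} [Field R] [LinearOrder R] [IsStrictOrderedRing R]

theorem card_ordSum (hR : Cardinal.mk R ≤ Cardinal.aleph 1) (C : Type) [LinearOrder C]
    (hC : Cardinal.mk C ≤ Cardinal.aleph 1) :
    Cardinal.mk (ordSum (D1 R) C).carrier ≤ Cardinal.aleph 1 := by
  have hinf : Cardinal.aleph0 ≤ Cardinal.aleph 1 := Cardinal.aleph0_le_aleph 1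
  have h1 : Cardinal.mk (basic R) ≤ Cardinal.aleph 1 := by
    have h2 : basic R ⊆ Set.range fun p : R[X] × ℕ => posSet p.1 p.2 := by
      rintro U ⟨f, n, _, rfl⟩
      exact ⟨(f, n), rfl⟩
    refine (Cardinal.mk_le_mk_of_subset h2).trans (Cardinal.mk_range_le.trans ?_)
    rw [Cardinal.mk_prod, Cardinal.lift_id, Cardinal.lift_id]
    refine Cardinal.mul_le_of_le hinf ?_ (Cardinal.mk_le_aleph0.trans hinf)
    exact Polynomial.cardinalMk_le_max.trans (max_le hR hinf)
  have h3 := card_gen (basic R) h1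
  show Cardinal.mk ({U : Set (Option R) // Gen (basic R) U} ⊕ Option C) ≤ _
  rw [← Cardinal.add_def]
  refine Cardinal.add_le_of_le hinf h3 ?_
  rw [Cardinal.mk_option]
  exact Cardinal.add_le_of_le hinf hC (Cardinal.one_le_aleph0.trans hinf)

end Pool.Agent.SpecR
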