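import Pool.Agent.SpecR.Defs

/-! SR16. Signs of polynomials -/

set_option autoImplicit false

open Polynomial

namespace Pool.Agent.SpecR

universe u

section Poly

variable {R : Type} [Field R] [LinearOrder R] [IsStrictOrderedRing R]

private theorem prod_quad_pos (q : Multiset (R × R)) (hq : ∀ p ∈ q, p.2 ≠ 0) (x : R) :
    0 < ((q.map fun p => (X - C p.1) ^ 2 + C (p.2 ^ 2)).prod : R[X]).eval x := by
  induction q using Multiset.induction_on with
  | empty => simp
  | cons p q ih =>
    rw [Multiset.map_cons, Multiset.prod_cons, eval_mul]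
    have h1 := ih fun p' hp' => hq p' (Multiset.mem_cons_of_mem hp')
    have h2 : 0 < (((X - C p.1) ^ 2 + C (p.2 ^ 2) : R[X])).eval x := by
      have h3 : p.2 ≠ 0 := hq p (Multiset.mem_cons_self p q)
      simp only [eval_add, eval_pow, eval_sub, eval_X, eval_C]
      positivity
    exact mul_pos h2 h1

theorem exists_sqrt (hR : Factors R) {c : R} (hc : 0 ≤ c) : ∃ b, 0 ≤ b ∧ b * b = c := by
  rcases hc.eq_or_lt with rfl | hc
  · exact ⟨0, le_rfl, by simp⟩
  have hne : (X ^ 2 - C c : R[X]) ≠ 0 := X_pow_sub_C_ne_zero (by norm_num) c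
  obtain ⟨d, s, q, hd, hq, hf⟩ := hR _ hne
  rcases s.empty_or_exists_mem with rfl | ⟨a, ha⟩
  · exfalso
    have h0 := congrArg (eval 0) hf
    have h1 := congrArg (eval (c + 1)) hf
    simp only [eval_sub, eval_pow, eval_X, eval_C, Multiset.map_zero, Multiset.prod_zero,
      mul_one, eval_mul] at h0 h1
    have p0 := prod_quad_pos q hq 0
    have p1 := prod_quad_pos q hq (c + 1)
    have hd0 : d < 0 := by
      by_contra hcon
      push Not at hcon
      have := mul_nonneg hcon p0.le
      rw [← h0] at this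
      nlinarith
    have := mul_neg_of_neg_of_pos hd0 p1
    rw [← h1] at this
    nlinarith
  · have h0 := congrArg (eval a) hf
    obtain ⟨s', rfl⟩ := Multiset.exists_cons_of_mem ha
    simp only [eval_sub, eval_pow, eval_X, eval_C, Multiset.map_cons, Multiset.prod_cons,
      eval_mul, sub_self, zero_mul, mul_zero] at h0
    exact ⟨|a|, abs_nonneg a, by rw [abs_mul_abs_self]; linear_combination h0⟩

private theorem IsPos.not_zero {P : R[X] → Prop} (hP : IsPos P) : ¬ P 0 := fun h =>
  hP.neg 0 h (by simpa using h)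

private theorem IsPos.not_neg_mul_self {P : R[X] → Prop} (hP : IsPos P) (f : R[X]) :
    ¬ P (-(f * f)) := by
  intro h
  rw [show -(f * f) = f * (-f) by ring] at h
  rcases hP.of_mul _ _ h with ⟨h1, h2⟩ | ⟨h1, h2⟩
  · exact hP.neg _ h1 h2
  · exact hP.neg _ h1 h2

private theorem IsPos.C_pos {P : R[X] → Prop} (hR : Factors R) (hP : IsPos P) {c : R}
    (hc : 0 < c) : P (C c) := by
  obtain ⟨b, -, hb⟩ := exists_sqrt hR hc.le
  have hb0 : b ≠ 0 := by
    rintro rfl
    simp at hb
    exact hc.ne hb
  have h1 : P (C b * C b⁻¹) := by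
    rw [← C_mul, mul_inv_cancel₀ hb0, C_1]
    exact hP.one
  rw [← hb, C_mul]
  rcases hP.of_mul _ _ h1 with ⟨h, -⟩ | ⟨h, -⟩
  · exact hP.mul _ _ h h
  · have := hP.mul _ _ h h
    rwa [neg_mul_neg] at this

/-- `P` and evaluation at `y` give the same sign to `f` -/
private def Agree (P : R[X] → Prop) (y : R) (f : R[X]) : Prop :=
  (P f ↔ 0 < f.eval y) ∧ (P (-f) ↔ f.eval y < 0)

private theorem Agree.mul {P : R[X] → Prop} (hP : IsPos P) {y : R} {f g : R[X]}
    (hf : Agree P y f) (hg : Agree P y g) : Agree P y (f * g) := by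
  have key : ∀ f g : R[X], P (f * g) ↔ (P f ∧ P g) ∨ (P (-f) ∧ P (-g)) := by
    intro f g
    constructor
    · exact hP.of_mul f g
    · rintro (⟨h1, h2⟩ | ⟨h1, h2⟩)
      · exact hP.mul _ _ h1 h2
      · have := hP.mul _ _ h1 h2
        rwa [neg_mul_neg] at this
  constructor
  · rw [key, hf.1, hf.2, hg.1, hg.2, eval_mul, mul_pos_iff]
  · rw [← neg_mul, key, neg_neg, hf.1, hf.2, hg.1, hg.2, eval_mul, mul_neg_iff]
    tauto

private theorem Agree.one {P : R[X] → Prop} (hP : IsPos P) {y : R} : Agree P y 1 := by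
  refine ⟨by simp [hP.one], ?_⟩
  have := hP.neg 1 hP.one
  simp [this, zero_le_one]

private theorem Agree.prod {P : R[X] → Prop} (hP : IsPos P) {y : R} (s : Multiset R[X])
    (hs : ∀ f ∈ s, Agree P y f) : Agree P y s.prod := by
  induction s using Multiset.induction_on with
  | empty => simpa using Agree.one hP
  | cons p q ih =>
    rw [Multiset.prod_cons]
    exact (hs p (Multiset.mem_cons_self p q)).mul hP
      (ih fun p' hp' => hs p' (Multiset.mem_cons_of_mem hp'))

private theorem Agree.of_pos {P : R[X] → Prop} (hP : IsPos P) {y : R} {f : R[X]} (h : P f)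
    (h' : 0 < f.eval y) : Agree P y f :=
  ⟨iff_of_true h h', iff_of_false (hP.neg f h) h'.le.not_gt⟩

private theorem Agree.of_neg {P : R[X] → Prop} (hP : IsPos P) {y : R} {f : R[X]} (h : P (-f))
    (h' : f.eval y < 0) : Agree P y f :=
  ⟨iff_of_false (fun h2 => hP.neg f h2 h) h'.le.not_gt, iff_of_true h h'⟩

private theorem Agree.C {P : R[X] → Prop} (hR : Factors R) (hP : IsPos P) {y : R} {c : R}
    (hc : c ≠ 0) : Agree P y (C c) := by
  rcases lt_or_gt_of_ne hc with h | h
  · refine Agree.of_neg hP ?_ (by simpa using h)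
    rw [← C_neg]
    exact hP.C_pos hR (by linarith)
  · exact Agree.of_pos hP (hP.C_pos hR h) (by simpa using h)

private theorem Agree.quad {P : R[X] → Prop} (hR : Factors R) (hP : IsPos P) {y a b : R}
    (hb : b ≠ 0) : Agree P y ((X - Polynomial.C a) ^ 2 + Polynomial.C (b ^ 2)) := by
  refine Agree.of_pos hP ?_ ?_
  · have h1 : P (Polynomial.C (b ^ 2)) := hP.C_pos hR (by positivity)
    have h2 : P (((X - Polynomial.C a) ^ 2 + Polynomial.C (b ^ 2)) +
        (-((X - Polynomial.C a) * (X - Polynomial.C a)))) := by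
      rw [show ((X - Polynomial.C a) ^ 2 + Polynomial.C (b ^ 2)) +
        (-((X - Polynomial.C a) * (X - Polynomial.C a))) = Polynomial.C (b ^ 2) by ring]
      exact h1
    rcases hP.of_add _ _ h2 with h | h
    · exact h
    · exact (hP.not_neg_mul_self _ h).elim
  · simp only [eval_add, eval_pow, eval_sub, eval_X, eval_C]
    positivity

private theorem IsPos.lin {P : R[X] → Prop} (hR : Factors R) (hP : IsPos P) {a b : R}
    (hab : a < b) : P (X - C a) ∨ P (-(X - C b)) := by
  apply hP.of_add
  rw [show (X - C a) + -(X - C b) = C (b - a) by rw [C_sub]; ring]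
  exact hP.C_pos hR (by linarith)

private theorem exists_lin {P : R[X] → Prop} (hR : Factors R) (hP : IsPos P) (S : Finset R) :
    ∃ y : R, ∀ a ∈ S, Agree P y (X - C a) := by
  classical
  by_cases hZ : ∃ a0, ¬ P (X - C a0) ∧ ¬ P (-(X - C a0))
  · obtain ⟨y, h1, h2⟩ := hZ
    refine ⟨y, fun a _ => ?_⟩
    rcases lt_trichotomy a y with h | rfl | h
    · exact Agree.of_pos hP ((hP.lin hR h).resolve_right h2) (by simpa using h)
    · exact ⟨iff_of_false h1 (by simp), iff_of_false h2 (by simp)⟩
    · exact Agree.of_neg hP ((hP.lin hR h).resolve_left h1) (by simpa using h)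
  · push Not at hZ
    obtain ⟨y, hy1, hy2⟩ := Order.exists_between_finsets (S.filter fun a => P (X - C a))
      (S.filter fun a => ¬ P (X - C a)) (by
        intro a ha b hb
        rw [Finset.mem_filter] at ha hb
        by_contra hcon
        push Not at hcon
        rcases hcon.lt_or_eq with h | h
        · rcases hP.lin hR h with h' | h'
          · exact hb.2 h'
          · exact hP.neg _ ha.2 h'
        · rw [h] at hb
          exact hb.2 ha.2)
    refine ⟨y, fun a ha => ?_⟩
    by_cases h : P (X - C a)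
    · have := hy1 a (by simp [ha, h])
      exact Agree.of_pos hP h (by simpa using this)
    · have := hy2 a (by simp [ha, h])
      exact Agree.of_neg hP (hZ a h) (by simpa using this)

/-- signs of finitely many polynomials are realised by a point of `R` -/
theorem exists_sign (hR : Factors R) {P : R[X] → Prop} (hP : IsPos P) (F : Finset R[X]) :
    ∃ y : R, ∀ f ∈ F, (P f ↔ 0 < f.eval y) := by
  classical
  choose! c s q hc hq hf using hR
  obtain ⟨y, hy⟩ := exists_lin (fun f hf0 => ⟨c f, s f, q f, hc f hf0, hq f hf0, hf f hf0⟩) hP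
    (F.biUnion fun f => (s f).toFinset)
  have hR : Factors R := fun f hf0 => ⟨c f, s f, q f, hc f hf0, hq f hf0, hf f hf0⟩
  refine ⟨y, fun f hfF => ?_⟩
  rcases eq_or_ne f 0 with rfl | hf0
  · simp [hP.not_zero]
  suffices h : Agree P y f from h.1
  rw [hf f hf0]
  refine Agree.mul hP (Agree.mul hP (Agree.C hR hP (hc f hf0)) (Agree.prod hP _ ?_))
    (Agree.prod hP _ ?_)
  · intro g hg
    obtain ⟨a, ha, rfl⟩ := Multiset.mem_map.1 hg
    exact hy a (Finset.mem_biUnion.2 ⟨f, hfF, Multiset.mem_toFinset.2 ha⟩)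
  · intro g hg
    obtain ⟨p, hp, rfl⟩ := Multiset.mem_map.1 hg
    exact Agree.quad hR hP (hq f hf0 p hp)

end Poly

end Pool.Agent.SpecR
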