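import Pool.Agent.SpecR.Defs

/-!
# The ring `A` generated by the bounded constants and by the functions with small coefficients
-/

set_option autoImplicit false
set_option linter.unusedSectionVars false

open Polynomial

namespace Pool.Agent.SpecR

variable {R : Type} [Field R] [LinearOrder R] [IsStrictOrderedRing R]

variable {τ : R}

private theorem infl_lt_one (hτ : Infl τ) : τ < 1 := by
  simpa using hτ.2 1

theorem small_add (hτ : Infl τ) {x y : R} (hx : Small τ x) (hy : Small τ y) :
    Small τ (x + y) := by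
  obtain ⟨n, hn, hxn⟩ := hx
  obtain ⟨m, hm, hym⟩ := hy
  have hτ1 := infl_lt_one hτ
  have hpow : ∀ j : ℕ, 0 < j → τ ^ j ≤ τ := by
    intro j hj
    have := pow_le_pow_of_le_one hτ.1.le hτ1.le (Nat.succ_le_of_lt hj)
    simpa using this
  have h1 : |x| ^ (n * m) ≤ τ := by
    rw [pow_mul]
    exact (pow_le_pow_left₀ (pow_nonneg (abs_nonneg x) n) hxn m).trans (hpow m hm)
  have h2 : |y| ^ (n * m) ≤ τ := by
    rw [mul_comm, pow_mul]
    exact (pow_le_pow_left₀ (pow_nonneg (abs_nonneg y) m) hym n).trans (hpow n hn)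
  set K := n * m with hK
  set M := max |x| |y| with hM
  have hM0 : 0 ≤ M := le_max_of_le_left (abs_nonneg x)
  have h3 : M ^ K ≤ τ := by
    rcases max_choice |x| |y| with h | h
    · rw [hM, h]
      exact h1
    · rw [hM, h]
      exact h2
  have h4 : |x + y| ≤ 2 * M := by
    refine (abs_add_le x y).trans ?_
    have e1 : |x| ≤ M := le_max_left _ _
    have e2 : |y| ≤ M := le_max_right _ _
    linarith
  have h5 : |x + y| ^ K ≤ 2 ^ K * τ := by
    refine (pow_le_pow_left₀ (abs_nonneg _) h4 K).trans ?_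
    rw [mul_pow]
    exact mul_le_mul_of_nonneg_left h3 (by positivity)
  refine ⟨K + K, by positivity, ?_⟩
  rw [pow_add]
  calc |x + y| ^ K * |x + y| ^ K ≤ (2 ^ K * τ) * (2 ^ K * τ) :=
        mul_le_mul h5 h5 (by positivity) (mul_nonneg (by positivity) hτ.1.le)
    _ = (((2 ^ K * 2 ^ K : ℕ) : R) * τ) * τ := by
        push_cast
        ring
    _ ≤ 1 * τ := mul_le_mul_of_nonneg_right (hτ.2 _).le hτ.1.le
    _ = τ := one_mul τ

theorem small_mul (hτ : Infl τ) {x y : R} (hx : Small τ x) (hy : Bdd y) : Small τ (x * y) := by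
  obtain ⟨n, hn, hxn⟩ := hx
  obtain ⟨N, hN⟩ := hy
  refine ⟨n + n, by omega, ?_⟩
  rw [abs_mul, mul_pow, pow_add]
  calc |x| ^ n * |x| ^ n * |y| ^ (n + n) ≤ τ * τ * (N : R) ^ (n + n) := by
        refine mul_le_mul (mul_le_mul hxn hxn (by positivity) hτ.1.le)
          (pow_le_pow_left₀ (abs_nonneg y) hN _) (by positivity) ?_
        exact mul_nonneg hτ.1.le hτ.1.le
    _ = (((N ^ (n + n) : ℕ) : R) * τ) * τ := by
        push_cast
        ring
    _ ≤ 1 * τ := mul_le_mul_of_nonneg_right (hτ.2 _).le hτ.1.le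
    _ = τ := one_mul τ

theorem bdd_add {x y : R} (hx : Bdd x) (hy : Bdd y) : Bdd (x + y) := by
  obtain ⟨n, hn⟩ := hx
  obtain ⟨m, hm⟩ := hy
  refine ⟨n + m, (abs_add_le x y).trans ?_⟩
  push_cast
  exact add_le_add hn hm

theorem bdd_mul {x y : R} (hx : Bdd x) (hy : Bdd y) : Bdd (x * y) := by
  obtain ⟨n, hn⟩ := hx
  obtain ⟨m, hm⟩ := hy
  refine ⟨n * m, ?_⟩
  rw [abs_mul]
  push_cast
  exact mul_le_mul hn hm (abs_nonneg y) (Nat.cast_nonneg n)

theorem small_bdd (hτ : Infl τ) {x : R} (hx : Small τ x) : Bdd x := by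
  obtain ⟨n, _, hxn⟩ := hx
  refine ⟨1, ?_⟩
  rw [Nat.cast_one]
  by_contra hcon
  push Not at hcon
  have h1 : 1 ≤ |x| ^ n := one_le_pow₀ hcon.le
  exact absurd (h1.trans hxn) (not_le.2 (infl_lt_one hτ))

private theorem small_zero (hτ : Infl τ) : Small τ (0 : R) := by
  refine ⟨1, one_pos, ?_⟩
  rw [abs_zero, pow_one]
  exact hτ.1.le

private theorem small_neg {x : R} (hx : Small τ x) : Small τ (-x) := by
  obtain ⟨n, hn, h⟩ := hx
  exact ⟨n, hn, by rwa [abs_neg]⟩

private theorem bdd_neg {x : R} (hx : Bdd x) : Bdd (-x) := by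
  obtain ⟨n, h⟩ := hx
  exact ⟨n, by rwa [abs_neg]⟩

private theorem bdd_zero : Bdd (0 : R) := ⟨0, by simp⟩

private theorem bdd_one : Bdd (1 : R) := ⟨1, by simp⟩

private theorem small_sum (hτ : Infl τ) {ι : Type} (s : Finset ι) (g : ι → R)
    (h : ∀ i ∈ s, Small τ (g i)) : Small τ (∑ i ∈ s, g i) := by
  classical
  induction s using Finset.induction_on with
  | empty => simpa using small_zero hτ
  | insert a s ha ih =>
    rw [Finset.sum_insert ha]
    exact small_add hτ (h a (Finset.mem_insert_self a s))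
      (ih fun i hi => h i (Finset.mem_insert_of_mem hi))

private theorem bdd_sum {ι : Type} (s : Finset ι) (g : ι → R)
    (h : ∀ i ∈ s, Bdd (g i)) : Bdd (∑ i ∈ s, g i) := by
  classical
  induction s using Finset.induction_on with
  | empty => simpa using bdd_zero
  | insert a s ha ih =>
    rw [Finset.sum_insert ha]
    exact bdd_add (h a (Finset.mem_insert_self a s))
      (ih fun i hi => h i (Finset.mem_insert_of_mem hi))

private theorem coeff_mul_small (hτ : Infl τ) {f g : R[X]} (hf : ∀ i, Small τ (f.coeff i))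
    (hg : ∀ i, Bdd (g.coeff i)) (i : ℕ) : Small τ ((f * g).coeff i) := by
  rw [coeff_mul]
  exact small_sum hτ _ _ fun p _ => small_mul hτ (hf _) (hg _)

private theorem coeff_mul_bdd {f g : R[X]} (hf : ∀ i, Bdd (f.coeff i))
    (hg : ∀ i, Bdd (g.coeff i)) (i : ℕ) : Bdd ((f * g).coeff i) := by
  rw [coeff_mul]
  exact bdd_sum _ _ fun p _ => bdd_mul (hf _) (hg _)

private theorem coeff_base_bdd (i : ℕ) : Bdd ((1 + X ^ 2 : R[X]).coeff i) := by
  rw [coeff_add, coeff_one, coeff_X_pow]
  refine bdd_add ?_ ?_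
  · split_ifs
    · exact bdd_one
    · exact bdd_zero
  · split_ifs
    · exact bdd_one
    · exact bdd_zero

private theorem coeff_pow_bdd (m i : ℕ) : Bdd (((1 + X ^ 2 : R[X]) ^ m).coeff i) := by
  induction m generalizing i with
  | zero =>
    rw [pow_zero, coeff_one]
    split_ifs
    · exact bdd_one
    · exact bdd_zero
  | succ m ih =>
    rw [pow_succ]
    exact coeff_mul_bdd ih coeff_base_bdd i

private theorem natDegree_base : (1 + X ^ 2 : R[X]).natDegree ≤ 2 := by
  refine (natDegree_add_le _ _).trans ?_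
  rw [natDegree_one, natDegree_X_pow]
  exact max_le (by omega) le_rfl

private theorem natDegree_base_pow (m : ℕ) : ((1 + X ^ 2 : R[X]) ^ m).natDegree ≤ 2 * m := by
  refine (natDegree_pow_le_of_le m natDegree_base).trans ?_
  omega

theorem ev_add (f g : R[X]) (n : ℕ) : ev (f + g) n = ev f n + ev g n := by
  funext y
  cases y with
  | none => simp [ev]
  | some x => simp [ev, add_div]

theorem ev_mul {f g : R[X]} {n m : ℕ} (hf : f.natDegree ≤ 2 * n) (hg : g.natDegree ≤ 2 * m) :
    ev (f * g) (n + m) = ev f n * ev g m := by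
  funext y
  cases y with
  | none =>
    simp only [ev, Pi.mul_apply]
    rw [mul_add]
    exact coeff_mul_add_eq_of_natDegree_le hf hg
  | some x =>
    simp only [ev, Pi.mul_apply]
    rw [eval_mul, pow_add, mul_div_mul_comm]

private theorem ev_base : ev (1 + X ^ 2 : R[X]) 1 = fun _ => 1 := by
  funext y
  cases y with
  | none =>
    simp only [ev]
    rw [coeff_add, coeff_one, coeff_X_pow]
    simp
  | some x =>
    simp only [ev, eval_add, eval_one, eval_pow, eval_X, pow_one]
    have h : (0 : R) < 1 + x ^ 2 := by positivity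
    exact div_self h.ne'

theorem ev_one_add (n : ℕ) : ev ((1 + X ^ 2 : R[X]) ^ n) n = fun _ => 1 := by
  induction n with
  | zero =>
    funext y
    cases y with
    | none => simp [ev]
    | some x => simp [ev]
  | succ n ih =>
    rw [pow_succ, ev_mul (natDegree_base_pow n) (by simpa using natDegree_base), ih, ev_base]
    funext y
    simp

private theorem ev_zero (n : ℕ) : ev (0 : R[X]) n = 0 := by
  funext y
  cases y with
  | none => simp [ev]
  | some x => simp [ev]

private theorem ev_neg (f : R[X]) (n : ℕ) : ev (-f) n = -ev f n := by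
  funext y
  cases y with
  | none => simp [ev]
  | some x => simp [ev, neg_div]

private theorem ev_C_mul (a : R) (f : R[X]) (n : ℕ) :
    ev (C a * f) n = (fun _ => a) * ev f n := by
  funext y
  cases y with
  | none => simp [ev]
  | some x => simp [ev, mul_div_assoc]

private theorem ev_shift {f : R[X]} {n : ℕ} (hf : f.natDegree ≤ 2 * n) (m : ℕ) :
    ev (f * (1 + X ^ 2) ^ m) (n + m) = ev f n := by
  rw [ev_mul hf (natDegree_base_pow m), ev_one_add]
  funext y
  simp

private def Q (τ : R) (F : Option R → R) : Prop :=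
  ∃ (a : R) (f : R[X]) (n : ℕ), Bdd a ∧ f.natDegree ≤ 2 * n ∧ (∀ i, Small τ (f.coeff i)) ∧
    F = (fun _ => a) + ev f n

private theorem Q_const (hτ : Infl τ) {a : R} (ha : Bdd a) : Q τ (fun _ => a) := by
  refine ⟨a, 0, 0, ha, by simp, fun i => ?_, ?_⟩
  · rw [coeff_zero]
    exact small_zero hτ
  · rw [ev_zero, add_zero]

private theorem Q_ev {f : R[X]} {n : ℕ} (hf : f.natDegree ≤ 2 * n)
    (hs : ∀ i, Small τ (f.coeff i)) : Q τ (ev f n) := by
  refine ⟨0, f, n, bdd_zero, hf, hs, ?_⟩
  funext y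
  simp

private theorem Q_add (hτ : Infl τ) {F G : Option R → R} (hF : Q τ F) (hG : Q τ G) :
    Q τ (F + G) := by
  obtain ⟨a, f, n, ha, hf, hsf, rfl⟩ := hF
  obtain ⟨b, g, m, hb, hg, hsg, rfl⟩ := hG
  refine ⟨a + b, f * (1 + X ^ 2) ^ m + g * (1 + X ^ 2) ^ n, n + m, bdd_add ha hb, ?_, ?_, ?_⟩
  · refine (natDegree_add_le _ _).trans (max_le ?_ ?_)
    · have := natDegree_mul_le_of_le hf (natDegree_base_pow (R := R) m)
      omega
    · have := natDegree_mul_le_of_le hg (natDegree_base_pow (R := R) n)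
      omega
  · intro i
    rw [coeff_add]
    exact small_add hτ (coeff_mul_small hτ hsf (coeff_pow_bdd m) i)
      (coeff_mul_small hτ hsg (coeff_pow_bdd n) i)
  · rw [ev_add, ev_shift hf, add_comm n m, ev_shift hg]
    funext y
    simp only [Pi.add_apply]
    ring

private theorem Q_mul (hτ : Infl τ) {F G : Option R → R} (hF : Q τ F) (hG : Q τ G) :
    Q τ (F * G) := by
  obtain ⟨a, f, n, ha, hf, hsf, rfl⟩ := hF
  obtain ⟨b, g, m, hb, hg, hsg, rfl⟩ := hG
  have hC : ∀ {c : R} {p : R[X]}, Bdd c → (∀ i, Small τ (p.coeff i)) →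
      ∀ i, Small τ ((C c * p).coeff i) := by
    intro c p hc hp i
    rw [coeff_C_mul, mul_comm]
    exact small_mul hτ (hp i) hc
  have h1 : Q τ (ev (C a * g) m) := Q_ev ((natDegree_C_mul_le a g).trans hg) (hC ha hsg)
  have h2 : Q τ (ev (C b * f) n) := Q_ev ((natDegree_C_mul_le b f).trans hf) (hC hb hsf)
  have h3 : Q τ (ev (f * g) (n + m)) := by
    refine Q_ev ?_ (coeff_mul_small hτ hsf fun i => small_bdd hτ (hsg i))
    have := natDegree_mul_le_of_le hf hg
    omega
  have h4 : Q τ (fun _ => a * b) := Q_const hτ (bdd_mul ha hb)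
  have e : ((fun _ => a) + ev f n) * ((fun _ => b) + ev g m) =
      (fun _ => a * b) + (ev (C a * g) m + (ev (C b * f) n + ev (f * g) (n + m))) := by
    rw [ev_C_mul, ev_C_mul, ev_mul hf hg]
    funext y
    simp only [Pi.add_apply, Pi.mul_apply]
    ring
  rw [e]
  exact Q_add hτ h4 (Q_add hτ h1 (Q_add hτ h2 h3))

private theorem Q_neg {F : Option R → R} (hF : Q τ F) : Q τ (-F) := by
  obtain ⟨a, f, n, ha, hf, hsf, rfl⟩ := hF
  refine ⟨-a, -f, n, bdd_neg ha, by rwa [natDegree_neg], fun i => ?_, ?_⟩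
  · rw [coeff_neg]
    exact small_neg (hsf i)
  · rw [ev_neg]
    funext y
    simp only [Pi.add_apply, Pi.neg_apply]
    ring

theorem mem_ringA (hτ : Infl τ) {F : Option R → R} : F ∈ ringA τ ↔
    ∃ (a : R) (f : R[X]) (n : ℕ), Bdd a ∧ f.natDegree ≤ 2 * n ∧ (∀ i, Small τ (f.coeff i)) ∧
      F = (fun _ => a) + ev f n := by
  constructor
  · intro h
    change Q τ F
    unfold ringA at h
    induction h using Subring.closure_induction with
    | mem F hF =>
      rcases hF with ⟨a, ha, rfl⟩ | ⟨f, n, hf, hs, rfl⟩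
      · exact Q_const hτ ha
      · exact Q_ev hf hs
    | zero => exact Q_const hτ bdd_zero
    | one => exact Q_const hτ bdd_one
    | add F G _ _ hF hG => exact Q_add hτ hF hG
    | neg F _ hF => exact Q_neg hF
    | mul F G _ _ hF hG => exact Q_mul hτ hF hG
  · rintro ⟨a, f, n, ha, hf, hs, rfl⟩
    exact add_mem (Subring.subset_closure (Or.inl ⟨a, ha, rfl⟩))
      (Subring.subset_closure (Or.inr ⟨f, n, hf, hs, rfl⟩))

private theorem pow_le_base (x : R) {i n : ℕ} (hi : i ≤ 2 * n) : |x| ^ i ≤ (1 + x ^ 2) ^ n := by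
  have h1 : (1 : R) ≤ 1 + x ^ 2 := by
    have := sq_nonneg x
    linarith
  rcases le_total |x| 1 with h | h
  · exact (pow_le_one₀ (abs_nonneg x) h).trans (one_le_pow₀ h1)
  · refine (pow_le_pow_right₀ h hi).trans ?_
    rw [pow_mul, sq_abs]
    exact pow_le_pow_left₀ (sq_nonneg x) (by linarith) n

private theorem small_ev (hτ : Infl τ) {f : R[X]} {n : ℕ} (hf : f.natDegree ≤ 2 * n)
    (hs : ∀ i, Small τ (f.coeff i)) (y : Option R) : Small τ (ev f n y) := by
  cases y with
  | none => exact hs _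
  | some x =>
    simp only [ev]
    rw [eval_eq_sum_range, Finset.sum_div]
    refine small_sum hτ _ _ fun i hi => ?_
    rw [mul_div_assoc]
    refine small_mul hτ (hs i) ⟨1, ?_⟩
    have hpos : (0 : R) < (1 + x ^ 2) ^ n := by positivity
    rw [Nat.cast_one, abs_div, abs_of_pos hpos, div_le_one hpos, abs_pow]
    refine pow_le_base x ?_
    have := Finset.mem_range.1 hi
    omega

theorem bdd_of_mem (hτ : Infl τ) {F : Option R → R} (hF : F ∈ ringA τ) (y : Option R) :
    Bdd (F y) ∧ Small τ (F y - F none) := by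
  obtain ⟨a, f, n, ha, hf, hs, rfl⟩ := (mem_ringA hτ).1 hF
  have h1 := small_ev hτ hf hs y
  have h2 := small_ev hτ hf hs none
  refine ⟨bdd_add ha (small_bdd hτ h1), ?_⟩
  have e : ((fun _ => a) + ev f n : Option R → R) y - ((fun _ => a) + ev f n : Option R → R) none =
      ev f n y + -ev f n none := by
    simp only [Pi.add_apply]
    ring
  rw [e]
  exact small_add hτ h1 (small_neg h2)

end Pool.Agent.SpecR
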