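import Pool.Agent.SpecR.Defs
import Pool.Agent.SpecR.Poly
import Pool.Agent.SpecR.RingA

/-!
# Prime cones of the ring `A` (MP_1824d7_lc): first case
-/

set_option autoImplicit false

open Polynomial

namespace Pool.Agent.SpecR

variable {R : Type} [Field R] [LinearOrder R] [IsStrictOrderedRing R]

section Cone

variable {A : Type} [CommRing A] {P : A → Prop}

private theorem not_zero (hP : IsPos P) : ¬ P 0 := fun h => by
  have := hP.neg 0 h
  rw [neg_zero] at this
  exact this h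

private theorem not_neg_sq (hP : IsPos P) (a : A) : ¬ P (-(a * a)) := fun h => by
  rw [← neg_mul] at h
  rcases hP.of_mul _ _ h with h | h
  · exact hP.neg _ h.2 h.1
  · rw [neg_neg] at h
    exact hP.neg _ h.1 h.2

/-- the support of the cone -/
private def Zr (P : A → Prop) (a : A) : Prop := ¬ P a ∧ ¬ P (-a)

private theorem Zr.mul (hP : IsPos P) {a : A} (ha : Zr P a) (b : A) : Zr P (a * b) := by
  constructor
  · intro h
    rcases hP.of_mul _ _ h with h | h
    · exact ha.1 h.1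
    · exact ha.2 h.1
  · intro h
    rw [← neg_mul] at h
    rcases hP.of_mul _ _ h with h | h
    · exact ha.2 h.1
    · rw [neg_neg] at h
      exact ha.1 h.1

private theorem Zr.of_sq (hP : IsPos P) {a : A} (ha : Zr P (a * a)) : Zr P a :=
  ⟨fun h => ha.1 (hP.mul _ _ h h), fun h => ha.1 (by
    have := hP.mul _ _ h h
    rwa [neg_mul_neg] at this)⟩

private theorem Zr.of_mul (hP : IsPos P) {a b : A} (ha : P a) (h : Zr P (a * b)) : Zr P b :=
  ⟨fun h1 => h.1 (hP.mul _ _ ha h1), fun h1 => h.2 (by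
    have := hP.mul _ _ ha h1
    rwa [mul_neg] at this)⟩

private theorem pos_add_iff (hP : IsPos P) {a z : A} (hz : Zr P z) : P (a + z) ↔ P a := by
  constructor
  · intro h
    rcases hP.of_add _ _ h with h | h
    · exact h
    · exact absurd h hz.1
  · intro h
    have h' : P ((a + z) + (-z)) := by rwa [add_neg_cancel_right]
    rcases hP.of_add _ _ h' with h | h
    · exact h
    · exact absurd h hz.2

private theorem pos_pow (hP : IsPos P) {a : A} (ha : P a) (n : ℕ) : P (a ^ n) := by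
  induction n with
  | zero => rw [pow_zero]; exact hP.one
  | succ n ih => rw [pow_succ]; exact hP.mul _ _ ih ha

private theorem pos_mul_iff (hP : IsPos P) {a : A} (ha : P a) (b : A) : P (a * b) ↔ P b := by
  constructor
  · intro h
    rcases hP.of_mul _ _ h with h | h
    · exact h.2
    · exact absurd h.1 (hP.neg _ ha)
  · exact hP.mul _ _ ha

end Cone

section Small

variable {τ : R}

private theorem bdd_tau (hτ : Infl τ) : Bdd τ := ⟨1, by
  rw [abs_of_pos hτ.1, Nat.cast_one]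
  have := hτ.2 1
  rw [Nat.cast_one, one_mul] at this
  exact this.le⟩

private theorem bdd_of_sq {b c : R} (h : b * b = c) (hc : Bdd c) : Bdd b := by
  obtain ⟨n, hn⟩ := hc
  refine ⟨n + 1, ?_⟩
  by_contra hlt
  push Not at hlt
  have h0 : (0 : R) ≤ n := Nat.cast_nonneg n
  have h1 : (n : R) < |b| * |b| := by
    push_cast at hlt
    nlinarith
  rw [← abs_mul, h] at h1
  exact absurd hn (not_le.2 h1)

omit [IsStrictOrderedRing R] in
private theorem bdd_neg {a : R} (ha : Bdd a) : Bdd (-a) := by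
  obtain ⟨k, hk⟩ := ha
  exact ⟨k, by rwa [abs_neg]⟩

private theorem bdd_nat (n : ℕ) : Bdd (n : R) := ⟨n, by rw [Nat.abs_cast]⟩

private theorem bdd_tau_pow (hτ : Infl τ) (k : ℕ) : Bdd (τ ^ k) := by
  induction k with
  | zero => exact ⟨1, by simp⟩
  | succ k ih => rw [pow_succ]; exact bdd_mul ih (bdd_tau hτ)

private theorem small_tau (hτ : Infl τ) : Small τ τ := ⟨1, one_pos, by
  rw [pow_one, abs_of_pos hτ.1]⟩

private theorem small_zero (hτ : Infl τ) : Small τ (0 : R) := ⟨1, one_pos, by simpa using hτ.1.le⟩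

omit [IsStrictOrderedRing R] in
private theorem small_neg {a : R} (ha : Small τ a) : Small τ (-a) := by
  obtain ⟨k, hk, h⟩ := ha
  exact ⟨k, hk, by rwa [abs_neg]⟩

private theorem small_sum (hτ : Infl τ) {ι : Type} (s : Finset ι) (g : ι → R)
    (hg : ∀ i ∈ s, Small τ (g i)) : Small τ (∑ i ∈ s, g i) := by
  classical
  induction s using Finset.induction_on with
  | empty => simpa using small_zero hτ
  | insert a s ha ih =>
    rw [Finset.sum_insert ha]
    exact small_add hτ (hg a (Finset.mem_insert_self _ _))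
      (ih fun i hi => hg i (Finset.mem_insert_of_mem hi))

/-- the coefficients of a product of polynomials with small coefficients are small -/
private theorem small_coeff_mul (hτ : Infl τ) {f g : R[X]} (hf : ∀ i, Small τ (f.coeff i))
    (hg : ∀ i, Small τ (g.coeff i)) (i : ℕ) : Small τ ((f * g).coeff i) := by
  rw [coeff_mul]
  exact small_sum hτ _ _ fun p _ => small_mul hτ (hf _) (small_bdd hτ (hg _))

end Small

section Const

variable {τ : R}

/-- the constants in the ring `A` -/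
private def kap (τ : R) (a : R) (ha : Bdd a) : ringA τ :=
  ⟨fun _ => a, Subring.subset_closure (Or.inl ⟨a, ha, rfl⟩)⟩

variable {P : ringA τ → Prop}

private theorem not_neg_const (hR : Factors R) (hP : IsPos P) {c : R} (hc : 0 ≤ c) (hb : Bdd c) :
    ¬ P (-(kap τ c hb)) := by
  obtain ⟨b, -, hbb⟩ := exists_sqrt hR hc
  have hb' : Bdd b := bdd_of_sq hbb hb
  have : kap τ c hb = kap τ b hb' * kap τ b hb' := by
    apply Subtype.ext
    funext x
    exact hbb.symm
  rw [this]
  exact not_neg_sq hP _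

/-- positive constants are positive -/
private theorem pos_const (hR : Factors R) (hτ : Infl τ)
    (hrank : ∀ x : R, 0 < x → ∃ n : ℕ, τ ^ n ≤ x) (hP : IsPos P)
    (h : ∀ T : ringA τ, (T.1 = fun _ => τ) → P T) {c : R} (hc : 0 < c) (hb : Bdd c) :
    P (kap τ c hb) := by
  obtain ⟨n, hn⟩ := hrank c hc
  have hr : Bdd (τ ^ n / c) := by
    have hτ0 := hτ.1
    refine ⟨1, ?_⟩
    rw [abs_of_nonneg (by positivity), Nat.cast_one]
    exact div_le_one_of_le₀ hn hc.le
  have h1 : kap τ τ (bdd_tau hτ) ^ n = kap τ c hb * kap τ (τ ^ n / c) hr := by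
    apply Subtype.ext
    funext x
    change τ ^ n = c * (τ ^ n / c)
    field_simp
  have h2 := pos_pow hP (h (kap τ τ (bdd_tau hτ)) rfl) n
  rw [h1] at h2
  rcases hP.of_mul _ _ h2 with h2 | h2
  · exact h2.1
  · exact absurd h2.1 (not_neg_const hR hP hc.le hb)

private theorem pos_const_iff (hR : Factors R) (hτ : Infl τ)
    (hrank : ∀ x : R, 0 < x → ∃ n : ℕ, τ ^ n ≤ x) (hP : IsPos P)
    (h : ∀ T : ringA τ, (T.1 = fun _ => τ) → P T) {c : R} (hb : Bdd c) :
    P (kap τ c hb) ↔ 0 < c := by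
  refine ⟨fun h1 => ?_, fun h1 => pos_const hR hτ hrank hP h h1 hb⟩
  by_contra hc
  push Not at hc
  refine not_neg_const (τ := τ) hR hP (c := -c) (by linarith) (bdd_neg hb) ?_
  have h3 : -(kap τ (-c) (bdd_neg hb)) = kap τ c hb := by
    apply Subtype.ext
    funext x
    exact neg_neg c
  rw [h3]
  exact h1

omit [IsStrictOrderedRing R] in
private theorem ev_mem {f : R[X]} {n : ℕ} (hf : f.natDegree ≤ 2 * n)
    (hs : ∀ i, Small τ (f.coeff i)) : ev f n ∈ ringA τ :=
  Subring.subset_closure (Or.inr ⟨f, n, hf, hs, rfl⟩)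

omit [LinearOrder R] [IsStrictOrderedRing R] in
private theorem ev_C_mul (a : R) (f : R[X]) (n : ℕ) : ev (C a * f) n = (fun _ => a) * ev f n := by
  funext y
  cases y with
  | none => simp [ev]
  | some y => simp [ev, mul_div_assoc]

private theorem small_C (hτ : Infl τ) {a : R} (ha : Small τ a) (i j : ℕ) :
    Small τ ((C a * X ^ i : R[X]).coeff j) := by
  rw [coeff_C_mul_X_pow]
  split_ifs
  · exact ha
  · exact small_zero hτ

/-- the function `τ / (1 + X²)` -/
private theorem theta_mem (hτ : Infl τ) : ev (C τ) 1 ∈ ringA τ := by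
  refine ev_mem (by simp) fun i => ?_
  rw [coeff_C]
  split_ifs
  · exact small_tau hτ
  · exact small_zero hτ

private theorem xi_mem (hτ : Infl τ) : ev (C τ * X ^ 1) 1 ∈ ringA τ :=
  ev_mem ((natDegree_C_mul_X_pow_le _ _).trans (by norm_num)) fun i =>
    small_C hτ (small_tau hτ) 1 i

private theorem theta_mul (hτ : Infl τ) :
    kap τ τ (bdd_tau hτ) * ⟨ev (C τ) 1, theta_mem hτ⟩ =
      (⟨ev (C τ) 1, theta_mem hτ⟩ : ringA τ) * ⟨ev (C τ) 1, theta_mem hτ⟩ +
        ⟨ev (C τ * X ^ 1) 1, xi_mem hτ⟩ * ⟨ev (C τ * X ^ 1) 1, xi_mem hτ⟩ := by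
  apply Subtype.ext
  change (fun _ => τ) * ev (C τ) 1 =
    ev (C τ) 1 * ev (C τ) 1 + ev (C τ * X ^ 1) 1 * ev (C τ * X ^ 1) 1
  funext y
  cases y with
  | none => simp [ev]
  | some y =>
    have : (1 + y ^ 2 : R) ≠ 0 := by positivity
    simp only [ev, Pi.mul_apply, Pi.add_apply, eval_C, eval_mul, eval_X, pow_one]
    field_simp

private theorem not_neg_theta (hτ : Infl τ) (hP : IsPos P)
    (h : ∀ T : ringA τ, (T.1 = fun _ => τ) → P T) : ¬ P (-⟨ev (C τ) 1, theta_mem hτ⟩) := by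
  intro h1
  have h2 := hP.mul _ _ (h (kap τ τ (bdd_tau hτ)) rfl) h1
  rw [mul_neg, theta_mul hτ, neg_add] at h2
  rcases hP.of_add _ _ h2 with h2 | h2
  · exact not_neg_sq hP _ h2
  · exact not_neg_sq hP _ h2

/-- the difference of a function and of its value at infinity is in the support -/
private theorem zr_diff (hτ : Infl τ) (hP : IsPos P)
    (h : ∀ T : ringA τ, (T.1 = fun _ => τ) → P T) (hθ : Zr P ⟨ev (C τ) 1, theta_mem hτ⟩)
    {g : R[X]} {n : ℕ} (hg : g.natDegree ≤ 2 * n) (hs : ∀ i, Small τ (g.coeff i))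
    (h0 : g.coeff (2 * n) = 0) : Zr P ⟨ev g n, ev_mem hg hs⟩ := by
  rcases Nat.eq_zero_or_pos n with hn | hn
  · subst hn
    have hg0 : g = 0 := by
      rw [eq_C_of_natDegree_le_zero hg]
      simpa using h0
    have h1 : (⟨ev g 0, ev_mem hg hs⟩ : ringA τ) = 0 := by
      apply Subtype.ext
      change ev g 0 = 0
      rw [hg0]
      funext y
      cases y <;> simp [ev]
    rw [h1]
    exact ⟨not_zero hP, by rw [neg_zero]; exact not_zero hP⟩
  · have hg1 : g.natDegree ≤ 2 * n - 1 := by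
      rw [natDegree_le_iff_coeff_eq_zero]
      intro N hN
      rcases (show 2 * n ≤ N by omega).eq_or_lt with h1 | h1
      · rw [← h1]
        exact h0
      · exact coeff_eq_zero_of_natDegree_lt (by omega)
    have hgg : (g * g).natDegree ≤ 2 * (2 * n - 1) := by
      refine natDegree_mul_le.trans (by omega)
    have hgs : ∀ i, Small τ ((g * g).coeff i) := small_coeff_mul hτ hs hs
    apply Zr.of_sq hP
    refine Zr.of_mul hP (h (kap τ τ (bdd_tau hτ)) rfl) ?_
    have h1 : kap τ τ (bdd_tau hτ) * ((⟨ev g n, ev_mem hg hs⟩ : ringA τ) * ⟨ev g n, ev_mem hg hs⟩) =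
        ⟨ev (C τ) 1, theta_mem hτ⟩ * ⟨ev (g * g) (2 * n - 1), ev_mem hgg hgs⟩ := by
      apply Subtype.ext
      change (fun _ => τ) * (ev g n * ev g n) = ev (C τ) 1 * ev (g * g) (2 * n - 1)
      rw [← ev_mul (by simp : (C τ : R[X]).natDegree ≤ 2 * 1) hgg, ev_C_mul, ← ev_mul hg hg]
      congr 2
      omega
    rw [h1]
    exact hθ.mul hP _

/-- positivity of functions -/
private def QQ (P : ringA τ → Prop) (G : Option R → R) : Prop := ∃ h : G ∈ ringA τ, P ⟨G, h⟩

omit [IsStrictOrderedRing R] in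
private theorem qq_iff {G : Option R → R} (h : G ∈ ringA τ) : QQ P G ↔ P ⟨G, h⟩ :=
  ⟨fun ⟨_, hG⟩ => hG, fun hG => ⟨h, hG⟩⟩

omit [IsStrictOrderedRing R] in
private theorem qq_mul_iff (hP : IsPos P) {G H : Option R → R} (hG : QQ P G)
    (hH : H ∈ ringA τ) : QQ P (G * H) ↔ QQ P H := by
  obtain ⟨hG1, hG2⟩ := hG
  rw [qq_iff (Subring.mul_mem _ hG1 hH), qq_iff hH]
  exact pos_mul_iff hP hG2 ⟨H, hH⟩

/-- `τ ^ K f` has small coefficients -/
private def Valid (τ : R) (f : R[X]) (K n : ℕ) : Prop :=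
  f.natDegree ≤ 2 * n ∧ ∀ i, Small τ (τ ^ K * f.coeff i)

omit [IsStrictOrderedRing R] in
private theorem Valid.deg {f : R[X]} {K n : ℕ} (hf : Valid τ f K n) :
    (C (τ ^ K) * f).natDegree ≤ 2 * n := (natDegree_C_mul_le _ _).trans hf.1

omit [IsStrictOrderedRing R] in
private theorem Valid.small {f : R[X]} {K n : ℕ} (hf : Valid τ f K n) (i : ℕ) :
    Small τ ((C (τ ^ K) * f).coeff i) := by
  rw [coeff_C_mul]
  exact hf.2 i

omit [IsStrictOrderedRing R] in
private theorem Valid.mem {f : R[X]} {K n : ℕ} (hf : Valid τ f K n) :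
    ev (C (τ ^ K) * f) n ∈ ringA τ := ev_mem hf.deg hf.small

private theorem Valid.succ (hτ : Infl τ) {f : R[X]} {K n : ℕ} (hf : Valid τ f K n) :
    Valid τ f (K + 1) n := by
  refine ⟨hf.1, fun i => ?_⟩
  have := small_mul hτ (hf.2 i) (bdd_tau hτ)
  have e : τ ^ (K + 1) * f.coeff i = τ ^ K * f.coeff i * τ := by ring
  rwa [e]

omit [IsStrictOrderedRing R] in
private theorem Valid.step {f : R[X]} {K n : ℕ} (hf : Valid τ f K n) : Valid τ f K (n + 1) :=
  ⟨hf.1.trans (by omega), hf.2⟩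

private theorem qq_succ (hτ : Infl τ) (hP : IsPos P)
    (h : ∀ T : ringA τ, (T.1 = fun _ => τ) → P T) {f : R[X]} {K n : ℕ} (hf : Valid τ f K n) :
    QQ P (ev (C (τ ^ (K + 1)) * f) n) ↔ QQ P (ev (C (τ ^ K) * f) n) := by
  have h1 : ev (C (τ ^ (K + 1)) * f) n = (fun _ => τ) * ev (C (τ ^ K) * f) n := by
    rw [← ev_C_mul, ← mul_assoc, ← C_mul, pow_succ, mul_comm (τ ^ K)]
  rw [h1]
  exact qq_mul_iff hP ⟨(kap τ τ (bdd_tau hτ)).2, h (kap τ τ (bdd_tau hτ)) rfl⟩ hf.mem

private theorem qq_step (hτ : Infl τ) (hP : IsPos P) (hθ : P ⟨ev (C τ) 1, theta_mem hτ⟩)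
    {f : R[X]} {K n : ℕ} (hf : Valid τ f K n) :
    QQ P (ev (C (τ ^ (K + 1)) * f) (n + 1)) ↔ QQ P (ev (C (τ ^ K) * f) n) := by
  have h1 : ev (C (τ ^ (K + 1)) * f) (n + 1) = ev (C τ) 1 * ev (C (τ ^ K) * f) n := by
    rw [← ev_mul (by simp : (C τ : R[X]).natDegree ≤ 2 * 1) hf.deg, ← mul_assoc, ← C_mul,
      pow_succ, mul_comm (τ ^ K), add_comm 1 n]
  rw [h1]
  exact qq_mul_iff hP ⟨theta_mem hτ, hθ⟩ hf.mem

private theorem valid_add (hτ : Infl τ) {f : R[X]} {K n : ℕ} (hf : Valid τ f K n) (k j : ℕ) :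
    Valid τ f (K + k) (n + j) := by
  induction k with
  | zero =>
    induction j with
    | zero => exact hf
    | succ j ih => exact ih.step
  | succ k ih => exact ih.succ hτ

private theorem qq_add (hτ : Infl τ) (hP : IsPos P)
    (h : ∀ T : ringA τ, (T.1 = fun _ => τ) → P T) (hθ : P ⟨ev (C τ) 1, theta_mem hτ⟩)
    {f : R[X]} {K n : ℕ} (hf : Valid τ f K n) (k j : ℕ) :
    QQ P (ev (C (τ ^ (K + j + k)) * f) (n + j)) ↔ QQ P (ev (C (τ ^ K) * f) n) := by
  induction k with
  | zero =>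
    induction j with
    | zero => exact Iff.rfl
    | succ j ih => exact (qq_step hτ hP hθ (valid_add hτ hf j j)).trans ih
  | succ k ih =>
    have h1 : Valid τ f (K + j + k) (n + j) := by
      have := valid_add hτ hf (j + k) j
      rwa [← add_assoc] at this
    exact (qq_succ hτ hP h h1).trans ih

/-- independence of the exponents -/
private theorem qq_indep (hτ : Infl τ) (hP : IsPos P)
    (h : ∀ T : ringA τ, (T.1 = fun _ => τ) → P T) (hθ : P ⟨ev (C τ) 1, theta_mem hτ⟩)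
    {f : R[X]} {K n L m : ℕ} (hf : Valid τ f K n) (hf' : Valid τ f L m) :
    QQ P (ev (C (τ ^ K) * f) n) ↔ QQ P (ev (C (τ ^ L) * f) m) := by
  have h1 := qq_add hτ hP h hθ hf (L + n) m
  have h2 := qq_add hτ hP h hθ hf' (K + m) n
  rw [show L + n + (K + m) = K + m + (L + n) by ring, add_comm m n] at h2
  exact h1.symm.trans h2

/-- the positivity of polynomials -/
private def PolyPos (P : ringA τ → Prop) (f : R[X]) : Prop :=
  ∃ K n, Valid τ f K n ∧ QQ P (ev (C (τ ^ K) * f) n)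

private theorem polyPos_iff (hτ : Infl τ) (hP : IsPos P)
    (h : ∀ T : ringA τ, (T.1 = fun _ => τ) → P T) (hθ : P ⟨ev (C τ) 1, theta_mem hτ⟩)
    {f : R[X]} {K n : ℕ} (hf : Valid τ f K n) :
    PolyPos P f ↔ QQ P (ev (C (τ ^ K) * f) n) := by
  constructor
  · rintro ⟨L, m, h1, h2⟩
    exact (qq_indep hτ hP h hθ h1 hf).1 h2
  · intro h1
    exact ⟨K, n, hf, h1⟩

private theorem exists_small (hτ : Infl τ) (hrank : ∀ x : R, 0 < x → ∃ n : ℕ, τ ^ n ≤ x)
    (c : R) : ∃ K : ℕ, Small τ (τ ^ K * c) := by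
  by_cases hc : c = 0
  · exact ⟨0, by rw [hc, mul_zero]; exact small_zero hτ⟩
  · have hc' : 0 < |c| := abs_pos.2 hc
    obtain ⟨m, hm⟩ := hrank |c|⁻¹ (inv_pos.2 hc')
    refine ⟨m + 1, 1, one_pos, ?_⟩
    have hτ0 := hτ.1
    have h1 : τ ^ m * |c| ≤ 1 := by
      calc τ ^ m * |c| ≤ |c|⁻¹ * |c| := by gcongr
        _ = 1 := inv_mul_cancel₀ hc'.ne'
    rw [pow_one, abs_mul, abs_of_pos (by positivity : (0 : R) < τ ^ (m + 1)), pow_succ]
    nlinarith

private theorem exists_valid (hτ : Infl τ) (hrank : ∀ x : R, 0 < x → ∃ n : ℕ, τ ^ n ≤ x)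
    (f : R[X]) : ∃ K : ℕ, ∀ n, f.natDegree ≤ 2 * n → Valid τ f K n := by
  choose K hK using exists_small hτ hrank
  refine ⟨∑ i ∈ Finset.range (f.natDegree + 1), K (f.coeff i), fun n hn => ⟨hn, fun i => ?_⟩⟩
  by_cases hi : i ∈ Finset.range (f.natDegree + 1)
  · rw [← Finset.add_sum_erase _ _ hi, pow_add, mul_right_comm]
    exact small_mul hτ (hK _) (bdd_tau_pow hτ _)
  · rw [coeff_eq_zero_of_natDegree_lt (by simpa using hi), mul_zero]
    exact small_zero hτ

private theorem exists_valid₂ (hτ : Infl τ) (hrank : ∀ x : R, 0 < x → ∃ n : ℕ, τ ^ n ≤ x)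
    (f g : R[X]) : ∃ K n : ℕ, Valid τ f K n ∧ Valid τ g K n := by
  obtain ⟨K, hK⟩ := exists_valid hτ hrank f
  obtain ⟨L, hL⟩ := exists_valid hτ hrank g
  refine ⟨K + L, f.natDegree + g.natDegree, ?_, ?_⟩
  · exact valid_add hτ (hK f.natDegree (by omega)) L g.natDegree
  · have := valid_add hτ (hL g.natDegree (by omega)) K f.natDegree
    rwa [add_comm L K, add_comm g.natDegree] at this

private theorem isPos_poly (hτ : Infl τ) (hrank : ∀ x : R, 0 < x → ∃ n : ℕ, τ ^ n ≤ x)
    (hP : IsPos P) (h : ∀ T : ringA τ, (T.1 = fun _ => τ) → P T)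
    (hθ : P ⟨ev (C τ) 1, theta_mem hτ⟩) : IsPos (PolyPos P) := by
  have key := fun (f : R[X]) (K n : ℕ) (hf : Valid τ f K n) => polyPos_iff hτ hP h hθ hf
  have hneg : ∀ {f : R[X]} {K n : ℕ}, Valid τ f K n → Valid τ (-f) K n := by
    intro f K n hf
    refine ⟨by rw [natDegree_neg]; exact hf.1, fun i => ?_⟩
    rw [coeff_neg, mul_neg]
    exact small_neg (hf.2 i)
  have hadd : ∀ {f g : R[X]} {K n : ℕ}, Valid τ f K n → Valid τ g K n →
      Valid τ (f + g) K n := by
    intro f g K n hf hg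
    refine ⟨(natDegree_add_le _ _).trans (max_le hf.1 hg.1), fun i => ?_⟩
    rw [coeff_add, mul_add]
    exact small_add hτ (hf.2 i) (hg.2 i)
  have eneg : ∀ (f : R[X]) (K n : ℕ), ev (C (τ ^ K) * -f) n = -ev (C (τ ^ K) * f) n := by
    intro f K n
    rw [ev_C_mul, ev_C_mul]
    funext y
    cases y with
    | none => simp [ev]
    | some y => simp [ev, neg_div]
  have eadd : ∀ (f g : R[X]) (K n : ℕ), ev (C (τ ^ K) * (f + g)) n =
      ev (C (τ ^ K) * f) n + ev (C (τ ^ K) * g) n := by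
    intro f g K n
    rw [mul_add, ev_add]
  have pneg : ∀ {f : R[X]} {K n : ℕ} (hf : Valid τ f K n), PolyPos P (-f) ↔
      P (-⟨ev (C (τ ^ K) * f) n, hf.mem⟩) := by
    intro f K n hf
    rw [key _ _ _ (hneg hf), eneg, qq_iff (Subring.neg_mem _ hf.mem)]
    exact Iff.rfl
  have ppos : ∀ {f : R[X]} {K n : ℕ} (hf : Valid τ f K n), PolyPos P f ↔
      P ⟨ev (C (τ ^ K) * f) n, hf.mem⟩ := by
    intro f K n hf
    rw [key _ _ _ hf, qq_iff hf.mem]
  have padd : ∀ {f g : R[X]} {K n : ℕ} (hf : Valid τ f K n) (hg : Valid τ g K n),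
      PolyPos P (f + g) ↔
      P (⟨ev (C (τ ^ K) * f) n, hf.mem⟩ + ⟨ev (C (τ ^ K) * g) n, hg.mem⟩) := by
    intro f g K n hf hg
    rw [key _ _ _ (hadd hf hg), eadd, qq_iff (Subring.add_mem _ hf.mem hg.mem)]
    exact Iff.rfl
  have pmul : ∀ {f g : R[X]} {K n : ℕ} (hf : Valid τ f K n) (hg : Valid τ g K n),
      PolyPos P (f * g) ↔
      P (⟨ev (C (τ ^ K) * f) n, hf.mem⟩ * ⟨ev (C (τ ^ K) * g) n, hg.mem⟩) := by
    intro f g K n hf hg
    have e1 : C (τ ^ (K + K)) * (f * g) = (C (τ ^ K) * f) * (C (τ ^ K) * g) := by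
      rw [pow_add, C_mul]
      ring
    have hv : Valid τ (f * g) (K + K) (n + n) := by
      refine ⟨natDegree_mul_le.trans (by have := hf.1; have := hg.1; omega), fun i => ?_⟩
      rw [← coeff_C_mul, e1]
      exact small_coeff_mul hτ hf.small hg.small i
    rw [key _ _ _ hv, e1, ev_mul hf.deg hg.deg, qq_iff (Subring.mul_mem _ hf.mem hg.mem)]
    exact Iff.rfl
  refine ⟨?_, ?_, ?_, ?_, ?_, ?_⟩
  · refine ⟨1, 0, ⟨by simp, fun i => ?_⟩, ?_⟩
    · rw [pow_one, coeff_one]
      split_ifs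
      · rw [mul_one]
        exact small_tau hτ
      · rw [mul_zero]
        exact small_zero hτ
    · have e : ev (C (τ ^ 1) * 1) 0 = fun _ => τ := by
        funext y
        cases y <;> simp [ev]
      rw [e]
      exact ⟨(kap τ τ (bdd_tau hτ)).2, h (kap τ τ (bdd_tau hτ)) rfl⟩
  · intro f hf hf'
    obtain ⟨K, hK⟩ := exists_valid hτ hrank f
    have hv := hK f.natDegree (by omega)
    rw [ppos hv] at hf
    rw [pneg hv] at hf'
    exact hP.neg _ hf hf'
  · intro f g hf hg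
    obtain ⟨K, n, hvf, hvg⟩ := exists_valid₂ hτ hrank f g
    rw [ppos hvf] at hf
    rw [ppos hvg] at hg
    rw [padd hvf hvg]
    exact hP.add _ _ hf hg
  · intro f g hf hg
    obtain ⟨K, n, hvf, hvg⟩ := exists_valid₂ hτ hrank f g
    rw [ppos hvf] at hf
    rw [ppos hvg] at hg
    rw [pmul hvf hvg]
    exact hP.mul _ _ hf hg
  · intro f g hfg
    obtain ⟨K, n, hvf, hvg⟩ := exists_valid₂ hτ hrank f g
    rw [padd hvf hvg] at hfg
    rw [ppos hvf, ppos hvg]
    exact hP.of_add _ _ hfg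
  · intro f g hfg
    obtain ⟨K, n, hvf, hvg⟩ := exists_valid₂ hτ hrank f g
    rw [pmul hvf hvg] at hfg
    rw [ppos hvf, ppos hvg, pneg hvf, pneg hvg]
    exact hP.of_mul _ _ hfg

end Const

variable {τ : R}

theorem case1 (hR : Factors R) (hτ : Infl τ) (hrank : ∀ x : R, 0 < x → ∃ n : ℕ, τ ^ n ≤ x)
    {P : ringA τ → Prop} (hP : IsPos P) (h : ∀ T : ringA τ, (T.1 = fun _ => τ) → P T)
    (F : Finset (ringA τ)) : ∃ y : Option R, ∀ G ∈ F, (P G ↔ 0 < G.1 y) := by
  classical
  by_cases hθ : P ⟨ev (C τ) 1, theta_mem hτ⟩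
  · have hP' := isPos_poly hτ hrank hP h hθ
    have hex : ∀ G : ringA τ, ∃ (g : R[X]) (n : ℕ), g.natDegree ≤ 2 * n ∧ G.1 = ev g n := by
      intro G
      obtain ⟨a, f, n, ha, hf, hs, hG⟩ := (mem_ringA hτ).1 G.2
      refine ⟨C a * (1 + X ^ 2) ^ n + f, n, ?_, ?_⟩
      · refine (natDegree_add_le _ _).trans (max_le ?_ hf)
        refine (natDegree_C_mul_le _ _).trans (natDegree_pow_le.trans ?_)
        have : (1 + X ^ 2 : R[X]).natDegree ≤ 2 :=
          (natDegree_add_le _ _).trans (max_le (by simp) (natDegree_X_pow_le 2))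
        rw [mul_comm 2 n]
        exact Nat.mul_le_mul_left _ this
      · rw [ev_add, ev_C_mul, ev_one_add, hG]
        congr 1
        funext y
        simp
    choose g n hgn hg using hex
    obtain ⟨y, hy⟩ := exists_sign hR hP' (F.image g)
    refine ⟨some y, fun G hG => ?_⟩
    have h1 := hy (g G) (Finset.mem_image_of_mem _ hG)
    obtain ⟨K, hK⟩ := exists_valid hτ hrank (g G)
    have hv := hK (n G) (hgn G)
    have h2 : PolyPos P (g G) ↔ P G := by
      rw [polyPos_iff hτ hP h hθ hv, qq_iff hv.mem]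
      have h3 : (⟨ev (C (τ ^ K) * g G) (n G), hv.mem⟩ : ringA τ) =
          kap τ τ (bdd_tau hτ) ^ K * G := by
        apply Subtype.ext
        change ev (C (τ ^ K) * g G) (n G) = (fun _ => τ) ^ K * G.1
        rw [ev_C_mul, hg G]
        rfl
      rw [h3]
      exact pos_mul_iff hP (pos_pow hP (h (kap τ τ (bdd_tau hτ)) rfl) K) G
    have h4 : 0 < G.1 (some y) ↔ 0 < (g G).eval y := by
      rw [hg G]
      have : (0 : R) < (1 + y ^ 2) ^ n G := by positivity
      change 0 < (g G).eval y / (1 + y ^ 2) ^ n G ↔ _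
      exact div_pos_iff_of_pos_right this
    rw [h4, ← h1, h2]
  · refine ⟨none, fun G hG => ?_⟩
    have hθ' : Zr P ⟨ev (C τ) 1, theta_mem hτ⟩ := ⟨hθ, not_neg_theta hτ hP h⟩
    obtain ⟨a, f, n, ha, hf, hs, hGe⟩ := (mem_ringA hτ).1 G.2
    have hb : Bdd (G.1 none) := (bdd_of_mem hτ G.2 none).1
    rw [← pos_const_iff hR hτ hrank hP h hb]
    -- the difference
    have hd2 : ((1 + X ^ 2 : R[X]) ^ n).natDegree ≤ 2 * n := by
      refine natDegree_pow_le.trans ?_
      have : (1 + X ^ 2 : R[X]).natDegree ≤ 2 :=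
        (natDegree_add_le _ _).trans (max_le (by simp) (natDegree_X_pow_le 2))
      rw [mul_comm 2 n]
      exact Nat.mul_le_mul_left _ this
    have hc2 : ∀ i, Bdd (((1 + X ^ 2 : R[X]) ^ n).coeff i) := by
      intro i
      have : ((1 + X ^ 2 : R[X]) ^ n) = ((1 + X ^ 2 : ℕ[X]) ^ n).map (Nat.castRingHom R) := by
        simp
      rw [this, coeff_map]
      exact bdd_nat _
    let g : R[X] := f + -(C (f.coeff (2 * n)) * (1 + X ^ 2) ^ n)
    have hgd : g.natDegree ≤ 2 * n := by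
      refine (natDegree_add_le _ _).trans (max_le hf ?_)
      rw [natDegree_neg]
      exact (natDegree_C_mul_le _ _).trans hd2
    have hgs : ∀ i, Small τ (g.coeff i) := by
      intro i
      simp only [g, coeff_add, coeff_neg, coeff_C_mul]
      exact small_add hτ (hs i) (small_neg (small_mul hτ (hs _) (hc2 i)))
    have hg0 : g.coeff (2 * n) = 0 := by
      have h1 : ((1 + X ^ 2 : R[X]) ^ n).coeff (2 * n) = 1 :=
        congrFun (ev_one_add (R := R) n) none
      simp only [g, coeff_add, coeff_neg, coeff_C_mul]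
      rw [h1]
      ring
    have h3 := zr_diff hτ hP h hθ' hgd hgs hg0
    rw [← pos_add_iff hP (a := kap τ (G.1 none) hb) h3]
    have h4 : kap τ (G.1 none) hb + ⟨ev g n, ev_mem hgd hgs⟩ = G := by
      apply Subtype.ext
      change (fun _ => G.1 none) + ev g n = G.1
      have h5 : ev g n = ev f n + (fun _ => -f.coeff (2 * n)) := by
        simp only [g]
        rw [ev_add, ← neg_mul, ← C_neg, ev_C_mul, ev_one_add]
        congr 1
        funext y
        simp
      rw [h5, hGe]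
      funext y
      simp only [Pi.add_apply, ev]
      ring
    rw [h4]

end Pool.Agent.SpecR
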