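import Pool.Agent.SpecR.Defs
import Pool.Agent.SpecR.Poly
import Pool.Agent.SpecR.RingA

/-!
# Prime cones of the ring `A` (MP_1824d7_lc): second case
-/

set_option autoImplicit false

open Polynomial

namespace Pool.Agent.SpecR

variable {R : Type} [Field R] [LinearOrder R] [IsStrictOrderedRing R]

section Cone

variable {A : Type} [CommRing A] {P : A → Prop}

private theorem not_zero (hP : IsPos P) : ¬ P 0 := fun h => by
  have := hP.neg 0 h
  rw [neg_zero] at this
  exact this h

private theorem not_neg_sq (hP : IsPos P) (a : A) : ¬ P (-(a * a)) := fun h => by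
  rw [← neg_mul] at h
  rcases hP.of_mul _ _ h with h | h
  · exact hP.neg _ h.2 h.1
  · rw [neg_neg] at h
    exact hP.neg _ h.1 h.2

/-- the support of the cone -/
private def Zr (P : A → Prop) (a : A) : Prop := ¬ P a ∧ ¬ P (-a)

private theorem Zr.mul (hP : IsPos P) {a : A} (ha : Zr P a) (b : A) : Zr P (a * b) := by
  constructor
  · intro h
    rcases hP.of_mul _ _ h with h | h
    · exact ha.1 h.1
    · exact ha.2 h.1
  · intro h
    rw [← neg_mul] at h
    rcases hP.of_mul _ _ h with h | h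
    · exact ha.2 h.1
    · rw [neg_neg] at h
      exact ha.1 h.1

private theorem Zr.add (hP : IsPos P) {a b : A} (ha : Zr P a) (hb : Zr P b) : Zr P (a + b) := by
  constructor
  · intro h
    rcases hP.of_add _ _ h with h | h
    · exact ha.1 h
    · exact hb.1 h
  · intro h
    rw [neg_add] at h
    rcases hP.of_add _ _ h with h | h
    · exact ha.2 h
    · exact hb.2 h

private theorem Zr.neg {a : A} (ha : Zr P a) : Zr P (-a) := ⟨ha.2, by rw [neg_neg]; exact ha.1⟩

private theorem Zr.zero (hP : IsPos P) : Zr P 0 := ⟨not_zero hP, by rw [neg_zero]; exact not_zero hP⟩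

private theorem Zr.of_sq (hP : IsPos P) {a : A} (ha : Zr P (a * a)) : Zr P a :=
  ⟨fun h => ha.1 (hP.mul _ _ h h), fun h => ha.1 (by
    have := hP.mul _ _ h h
    rwa [neg_mul_neg] at this)⟩

private theorem pos_add_iff (hP : IsPos P) {a z : A} (hz : Zr P z) : P (a + z) ↔ P a := by
  constructor
  · intro h
    rcases hP.of_add _ _ h with h | h
    · exact h
    · exact absurd h hz.1
  · intro h
    have h' : P ((a + z) + (-z)) := by rwa [add_neg_cancel_right]
    rcases hP.of_add _ _ h' with h | h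
    · exact h
    · exact absurd h hz.2

private theorem pos_pow (hP : IsPos P) {a : A} (ha : P a) (n : ℕ) : P (a ^ n) := by
  induction n with
  | zero => rw [pow_zero]; exact hP.one
  | succ n ih => rw [pow_succ]; exact hP.mul _ _ ih ha

end Cone

section Const

variable {τ : R}

/-- the constants in the ring `A` -/
private def kap (τ : R) (a : R) (ha : Bdd a) : ringA τ :=
  ⟨fun _ => a, Subring.subset_closure (Or.inl ⟨a, ha, rfl⟩)⟩

private theorem kap_mul {a b : R} (ha : Bdd a) (hb : Bdd b) :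
    kap τ (a * b) (bdd_mul ha hb) = kap τ a ha * kap τ b hb := rfl

private theorem bdd_of_sq {b c : R} (h : b * b = c) (hc : Bdd c) : Bdd b := by
  obtain ⟨n, hn⟩ := hc
  refine ⟨n + 1, ?_⟩
  by_contra hlt
  push Not at hlt
  have h0 : (0 : R) ≤ n := Nat.cast_nonneg n
  have h1 : (n : R) < |b| * |b| := by
    push_cast at hlt
    nlinarith
  rw [← abs_mul, h] at h1
  exact absurd hn (not_le.2 h1)

variable {P : ringA τ → Prop}

private theorem not_neg_const (hR : Factors R) (hP : IsPos P) {c : R} (hc : 0 ≤ c) (hb : Bdd c) :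
    ¬ P (-(kap τ c hb)) := by
  obtain ⟨b, -, hbb⟩ := exists_sqrt hR hc
  have hb' : Bdd b := bdd_of_sq hbb hb
  have : kap τ c hb = kap τ b hb' * kap τ b hb' := by
    apply Subtype.ext
    funext x
    exact hbb.symm
  rw [this]
  exact not_neg_sq hP _

/-- comparison of constants -/
private theorem pos_const (hR : Factors R) (hP : IsPos P) {c d : R} (hc : 0 < c) (hd : 0 < d)
    (hbc : Bdd c) (hbd : Bdd d) {n : ℕ} (h : c ^ n ≤ d) (hc' : P (kap τ c hbc)) :
    P (kap τ d hbd) := by
  have hr : Bdd (c ^ n / d) := by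
    refine ⟨1, ?_⟩
    rw [abs_of_nonneg (by positivity), Nat.cast_one]
    exact div_le_one_of_le₀ h hd.le
  have h1 : kap τ c hbc ^ n = kap τ d hbd * kap τ (c ^ n / d) hr := by
    apply Subtype.ext
    funext x
    change c ^ n = d * (c ^ n / d)
    field_simp
  have h2 := pos_pow hP hc' n
  rw [h1] at h2
  rcases hP.of_mul _ _ h2 with h2 | h2
  · exact h2.1
  · exact absurd h2.1 (not_neg_const hR hP hd.le hbd)

private theorem pos_large (hR : Factors R) (hP : IsPos P) {c : R} (hc : 0 < c) (hbc : Bdd c)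
    {n : ℕ} (h : 1 ≤ n * c) : P (kap τ c hbc) := by
  have hr : Bdd c⁻¹ := by
    refine ⟨n, ?_⟩
    rw [abs_of_pos (inv_pos.2 hc), inv_le_iff_one_le_mul₀ hc]
    exact h
  have h1 : kap τ c hbc * kap τ c⁻¹ hr = 1 := by
    apply Subtype.ext
    funext x
    exact mul_inv_cancel₀ hc.ne'
  have h2 := hP.one
  rw [← h1] at h2
  rcases hP.of_mul _ _ h2 with h2 | h2
  · exact h2.1
  · exact absurd h2.1 (not_neg_const hR hP hc.le hbc)

private theorem zr_small (hR : Factors R) (hτ : Infl τ) (hP : IsPos P)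
    (h : ∀ T : ringA τ, (T.1 = fun _ => τ) → ¬ P T) {c : R} (hc : Small τ c) (hb : Bdd c) :
    Zr P (kap τ c hb) := by
  obtain ⟨n, hn, hc⟩ := hc
  have hbτ : Bdd τ := ⟨1, by
    rw [abs_of_pos hτ.1, Nat.cast_one]
    have := hτ.2 1
    rw [Nat.cast_one, one_mul] at this
    exact this.le⟩
  have key : ∀ c : R, 0 ≤ c → c ^ n ≤ τ → ∀ hb : Bdd c, Zr P (kap τ c hb) := by
    intro c h0 hc hb
    refine ⟨fun h1 => ?_, not_neg_const hR hP h0 hb⟩
    rcases h0.eq_or_lt with h0 | h0
    · subst h0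
      exact not_zero hP h1
    · exact h (kap τ τ hbτ) rfl (pos_const hR hP h0 hτ.1 hb hbτ hc h1)
  rcases le_total 0 c with h0 | h0
  · rw [abs_of_nonneg h0] at hc
    exact key c h0 hc hb
  · rw [abs_of_nonpos h0] at hc
    have hb' : Bdd (-c) := by
      obtain ⟨k, hk⟩ := hb
      exact ⟨k, by rwa [abs_neg]⟩
    have := (key (-c) (by linarith) hc hb').neg
    have h1 : -(kap τ (-c) hb') = kap τ c hb := by
      apply Subtype.ext
      funext x
      exact neg_neg c
    rwa [h1] at this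

omit [IsStrictOrderedRing R] in
private theorem ev_mem {f : R[X]} {n : ℕ} (hf : f.natDegree ≤ 2 * n)
    (hs : ∀ i, Small τ (f.coeff i)) : ev f n ∈ ringA τ :=
  Subring.subset_closure (Or.inr ⟨f, n, hf, hs, rfl⟩)

private theorem small_zero (hτ : Infl τ) : Small τ (0 : R) := ⟨1, one_pos, by simpa using hτ.1.le⟩

private theorem small_mono (hτ : Infl τ) {a : R} (ha : Small τ a) (i j : ℕ) :
    Small τ ((C a * X ^ i : R[X]).coeff j) := by
  rw [coeff_C_mul_X_pow]
  split_ifs
  · exact ha
  · exact small_zero hτ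

/-- monomials are in the support -/
private theorem zr_mono (hR : Factors R) (hτ : Infl τ) (hP : IsPos P)
    (h : ∀ T : ringA τ, (T.1 = fun _ => τ) → ¬ P T) {a : R} (ha : Small τ a) {i n : ℕ}
    (hi : i ≤ 2 * n) (hm : ev (C a * X ^ i) n ∈ ringA τ) : Zr P ⟨ev (C a * X ^ i) n, hm⟩ := by
  apply Zr.of_sq hP
  have hb : Bdd a := small_bdd hτ ha
  have hm2 : ev (C a * X ^ (2 * i)) (2 * n) ∈ ringA τ :=
    ev_mem ((natDegree_C_mul_X_pow_le _ _).trans (by omega)) (small_mono hτ ha _)
  have hd : (C a * X ^ i : R[X]).natDegree ≤ 2 * n := (natDegree_C_mul_X_pow_le _ _).trans hi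
  have h1 : (⟨ev (C a * X ^ i) n, hm⟩ : ringA τ) * ⟨ev (C a * X ^ i) n, hm⟩ =
      kap τ a hb * ⟨ev (C a * X ^ (2 * i)) (2 * n), hm2⟩ := by
    apply Subtype.ext
    change ev (C a * X ^ i) n * ev (C a * X ^ i) n = (fun _ => a) * ev (C a * X ^ (2 * i)) (2 * n)
    rw [← ev_mul hd hd]
    funext x
    cases x with
    | none =>
      simp only [ev, Pi.mul_apply]
      have e1 : (C a * X ^ i * (C a * X ^ i) : R[X]) = C (a * a) * X ^ (2 * i) := by
        rw [C_mul]; ring
      rw [e1, coeff_C_mul_X_pow, coeff_C_mul_X_pow, show 2 * (n + n) = 2 * (2 * n) by ring]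
      split_ifs <;> simp
    | some x =>
      simp only [ev, Pi.mul_apply, eval_mul, eval_C, eval_pow, eval_X]
      rw [show n + n = 2 * n by ring]
      ring
  rw [h1]
  exact (zr_small hR hτ hP h ha hb).mul hP _

/-- the functions `ev f n` are in the support -/
private theorem zr_ev (hR : Factors R) (hτ : Infl τ) (hP : IsPos P)
    (h : ∀ T : ringA τ, (T.1 = fun _ => τ) → ¬ P T) {f : R[X]} {n : ℕ}
    (hf : f.natDegree ≤ 2 * n) (hs : ∀ i, Small τ (f.coeff i)) :
    Zr P ⟨ev f n, ev_mem hf hs⟩ := by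
  have hm : ∀ i : ℕ, i ≤ 2 * n → ev (C (f.coeff i) * X ^ i) n ∈ ringA τ := fun i hi =>
    ev_mem ((natDegree_C_mul_X_pow_le _ _).trans hi) (small_mono hτ (hs i) _)
  have key : ∀ k : ℕ, k ≤ 2 * n + 1 →
      ∃ hk : ev (∑ i ∈ Finset.range k, C (f.coeff i) * X ^ i) n ∈ ringA τ,
        Zr P ⟨ev (∑ i ∈ Finset.range k, C (f.coeff i) * X ^ i) n, hk⟩ := by
    intro k
    induction k with
    | zero =>
      intro _
      have h0 : ev (∑ i ∈ Finset.range 0, C (f.coeff i) * X ^ i) n = 0 := by
        funext x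
        cases x <;> simp [ev]
      refine ⟨by rw [h0]; exact Subring.zero_mem _, ?_⟩
      have : (⟨ev (∑ i ∈ Finset.range 0, C (f.coeff i) * X ^ i) n, by
          rw [h0]; exact Subring.zero_mem _⟩ : ringA τ) = 0 := Subtype.ext h0
      rw [this]
      exact Zr.zero hP
    | succ k ih =>
      intro hk
      obtain ⟨hk1, hz⟩ := ih (by omega)
      have hk2 := hm k (by omega)
      have h2 : ev (∑ i ∈ Finset.range (k + 1), C (f.coeff i) * X ^ i) n =
          ev (∑ i ∈ Finset.range k, C (f.coeff i) * X ^ i) n + ev (C (f.coeff k) * X ^ k) n := by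
        rw [Finset.sum_range_succ, ev_add]
      refine ⟨by rw [h2]; exact Subring.add_mem _ hk1 hk2, ?_⟩
      have : (⟨ev (∑ i ∈ Finset.range (k + 1), C (f.coeff i) * X ^ i) n, by
          rw [h2]; exact Subring.add_mem _ hk1 hk2⟩ : ringA τ) =
          ⟨ev (∑ i ∈ Finset.range k, C (f.coeff i) * X ^ i) n, hk1⟩ +
            ⟨ev (C (f.coeff k) * X ^ k) n, hk2⟩ := Subtype.ext h2
      rw [this]
      exact hz.add hP (zr_mono hR hτ hP h (hs k) (by omega) hk2)
  obtain ⟨h1, h2⟩ := key (2 * n + 1) le_rfl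
  have h3 : (∑ i ∈ Finset.range (2 * n + 1), C (f.coeff i) * X ^ i) = f :=
    (f.as_sum_range_C_mul_X_pow' (by omega)).symm
  have h4 : (⟨ev f n, ev_mem hf hs⟩ : ringA τ) =
      ⟨ev (∑ i ∈ Finset.range (2 * n + 1), C (f.coeff i) * X ^ i) n, h1⟩ :=
    Subtype.ext (congrArg (fun g => ev g n) h3.symm)
  rw [h4]
  exact h2

/-- only the value at infinity matters -/
private theorem pos_iff (hR : Factors R) (hτ : Infl τ) (hP : IsPos P)
    (h : ∀ T : ringA τ, (T.1 = fun _ => τ) → ¬ P T) (G : ringA τ) (hb : Bdd (G.1 none)) :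
    P G ↔ P (kap τ (G.1 none) hb) := by
  obtain ⟨a, f, n, ha, hf, hs, hG⟩ := (mem_ringA hτ).1 G.2
  have hbs : Bdd (f.coeff (2 * n)) := small_bdd hτ (hs _)
  have h1 : G = kap τ a ha + ⟨ev f n, ev_mem hf hs⟩ := Subtype.ext hG
  have h2 : kap τ (G.1 none) hb = kap τ a ha + kap τ (f.coeff (2 * n)) hbs := by
    apply Subtype.ext
    funext x
    change G.1 none = a + f.coeff (2 * n)
    rw [hG]
    rfl
  rw [h2, pos_add_iff hP (zr_small hR hτ hP h (hs _) hbs)]
  conv_lhs => rw [h1]
  exact pos_add_iff hP (zr_ev hR hτ hP h hf hs)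

end Const

private theorem infl_bdd {x : R} (hx : Infl x) : Bdd x := ⟨1, by
  rw [abs_of_pos hx.1, Nat.cast_one]
  have := hx.2 1
  rw [Nat.cast_one, one_mul] at this
  exact this.le⟩

theorem case2 {C : Type} [LinearOrder C] {t : WithBot C → R} (hR : Factors R)
    (ht : Scale R (WithBot C) t) {P : ringA (t ⊥) → Prop} (hP : IsPos P)
    (h : ∀ T : ringA (t ⊥), (T.1 = fun _ => t ⊥) → ¬ P T) (F : Finset (ringA (t ⊥))) :
    ∃ l : WithTop C, ∀ G ∈ F, (P G ↔ chainPos t l (G.1 none)) := by
  classical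
  have hτ := ht.infl ⊥
  have hcl : ∀ x : R, ∃ m : WithBot C, Infl x → Comm x (t m) := fun x => by
    by_cases hx : Infl x
    · obtain ⟨m, hm⟩ := ht.class_ x hx
      exact ⟨m, fun _ => hm⟩
    · exact ⟨⊥, fun h => absurd h hx⟩
  choose μ hμ using hcl
  let S : Finset (WithBot C) := F.image fun G => μ (G.1 none)
  let S' : Finset C := (S.preimage (fun c : C => (c : WithBot C))
    (WithBot.coe_injective.injOn)).filter fun c => P (kap (t ⊥) (t c) (infl_bdd (ht.infl c)))
  have hS' : ∀ c : C, c ∈ S' ↔ (c : WithBot C) ∈ S ∧ P (kap (t ⊥) (t c) (infl_bdd (ht.infl c))) := by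
    intro c
    simp [S']
  -- the choice of `l`
  obtain ⟨l, hl1, hl2⟩ : ∃ l : WithTop C, (∀ c ∈ S', l ≤ c) ∧ ∀ c : C, l = c →
      P (kap (t ⊥) (t c) (infl_bdd (ht.infl c))) := by
    by_cases hne : S'.Nonempty
    · refine ⟨(S'.min' hne : C), fun c hc => WithTop.coe_le_coe.2 (S'.min'_le c hc), ?_⟩
      intro c hc
      rw [← WithTop.coe_inj.1 hc]
      exact ((hS' _).1 (S'.min'_mem hne)).2
    · refine ⟨⊤, fun c hc => absurd ⟨c, hc⟩ hne, fun c hc => ?_⟩
      exact absurd hc.symm (WithTop.coe_ne_top)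
  refine ⟨l, fun G hG => ?_⟩
  have hb : Bdd (G.1 none) := (bdd_of_mem hτ G.2 none).1
  rw [pos_iff hR hτ hP h G hb]
  generalize ha : G.1 none = a at *
  have hμS : μ a ∈ S := by
    rw [← ha]
    exact Finset.mem_image_of_mem _ hG
  rcases le_or_gt a 0 with h0 | h0
  · constructor
    · intro h1
      exfalso
      have hb' : Bdd (-a) := by
        obtain ⟨k, hk⟩ := hb
        exact ⟨k, by rwa [abs_neg]⟩
      have h2 := not_neg_const (τ := t ⊥) hR hP (c := -a) (by linarith) hb'
      apply h2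
      have h3 : -(kap (t ⊥) (-a) hb') = kap (t ⊥) a hb := by
        apply Subtype.ext
        funext x
        exact neg_neg a
      rw [h3]
      exact h1
    · intro h1
      exact absurd h1.1 (not_lt.2 h0)
  · by_cases hn : ∃ n : ℕ, 1 ≤ n * a
    · obtain ⟨n, hn⟩ := hn
      exact iff_of_true (pos_large hR hP h0 hb hn) ⟨h0, Or.inl ⟨n, hn⟩⟩
    · have hinf : Infl a := ⟨h0, fun n => by
        by_contra hc
        exact hn ⟨n, not_lt.1 hc⟩⟩
      obtain ⟨N, hN, h1, h2⟩ := hμ a hinf
      constructor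
      · intro h3
        have hbm := infl_bdd (ht.infl (μ a))
        have h4 : P (kap (t ⊥) (t (μ a)) hbm) :=
          pos_const hR hP h0 (ht.infl _).1 hb hbm h1 h3
        have hne : μ a ≠ ⊥ := by
          intro he
          refine h (kap (t ⊥) (t (μ a)) hbm) ?_ h4
          funext x
          change t (μ a) = t ⊥
          rw [he]
        obtain ⟨c, hc⟩ := WithBot.ne_bot_iff_exists.1 hne
        have hcS : c ∈ S' := (hS' c).2 ⟨by rw [hc]; exact hμS, by
          have : kap (t ⊥) (t c) (infl_bdd (ht.infl c)) = kap (t ⊥) (t (μ a)) hbm := by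
            apply Subtype.ext
            funext x
            change t c = t (μ a)
            rw [hc]
          rw [this]
          exact h4⟩
        have hlc := hl1 c hcS
        have hltop : l ≠ ⊤ := fun he => by
          rw [he] at hlc
          exact absurd hlc (not_le.2 (WithTop.coe_lt_top c))
        obtain ⟨m, hm⟩ := WithTop.ne_top_iff_exists.1 hltop
        refine ⟨h0, Or.inr ⟨m, hm.symm, ?_⟩⟩
        rw [← hm] at hlc
        rcases (WithTop.coe_le_coe.1 hlc).eq_or_lt with he | hlt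
        · refine ⟨N, ?_⟩
          rw [he, hc]
          exact h2
        · refine ⟨1, ?_⟩
          rw [pow_one]
          have := ht.below m c (WithBot.coe_lt_coe.2 hlt) N
          rw [hc] at this
          exact this.le.trans h2
      · rintro ⟨-, h3 | ⟨m, hm, n, h3⟩⟩
        · exact absurd h3 hn
        · exact pos_const hR hP (ht.infl _).1 h0 (infl_bdd (ht.infl m)) hb h3 (hl2 m hm)

end Pool.Agent.SpecR
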