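import Pool.Agent.SpecR.Classes

/-!
# Classes of algebraic elements
-/

set_option autoImplicit false

open Polynomial

namespace Pool.Agent.SpecR

universe u

section Classes

variable {K Λ : Type} [Field K] [LinearOrder K] [IsStrictOrderedRing K] [LinearOrder Λ]
  {t : Λ → K}

/-- a sum of terms of different classes has the class of one of the terms -/
private theorem class_sum {ι : Type} {s : Finset ι} (hs : s.Nonempty) {a : ι → K}
    (h : Set.InjOn (fun i => ArchimedeanClass.mk (a i)) s) :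
    ∃ i ∈ s, ArchimedeanClass.mk (∑ i ∈ s, a i) = ArchimedeanClass.mk (a i) := by
  induction hs using Finset.Nonempty.cons_induction with
  | singleton i => exact ⟨i, Finset.mem_singleton_self i, by rw [Finset.sum_singleton]⟩
  | cons i s hi hs ih =>
    obtain ⟨j, hj, hj'⟩ := ih (h.mono (by simp))
    rw [Finset.sum_cons]
    have hne : ArchimedeanClass.mk (a i) ≠ ArchimedeanClass.mk (∑ i ∈ s, a i) := by
      rw [hj']
      intro h1
      have h2 : i = j := h (Finset.mem_coe.2 (Finset.mem_cons_self i s))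
        (Finset.mem_coe.2 (Finset.mem_cons_of_mem hj)) h1
      rw [h2] at hi
      exact hi hj
    rcases lt_or_gt_of_ne hne with h1 | h1
    · exact ⟨i, Finset.mem_cons_self i s, ArchimedeanClass.mk_add_eq_mk_left h1⟩
    · exact ⟨j, Finset.mem_cons_of_mem hj, by rw [ArchimedeanClass.mk_add_eq_mk_right h1, hj']⟩

omit [IsStrictOrderedRing K] [LinearOrder Λ] in
private theorem mon_add (ht : ∀ l, Infl (t l)) (k k' : Λ →₀ ℤ) :
    mon t (k + k') = mon t k * mon t k' := by
  classical
  unfold mon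
  apply Finsupp.prod_add_index'
  · intro l
    exact zpow_zero _
  · intro l m n
    exact zpow_add₀ (ht l).1.ne' m n

theorem class_alg (ht : ∀ l, Infl (t l)) (hb : ∀ l m, l < m → Below (t l) (t m)) {x : K}
    (hx : x ≠ 0) {P : K[X]} (hP : P ≠ 0)
    (hc : ∀ i, P.coeff i ∈ Subring.closure (Set.range t)) (h0 : P.eval x = 0) :
    ∃ (d : ℕ) (k : Λ →₀ ℤ), 0 < d ∧
      ArchimedeanClass.mk (x ^ d) = ArchimedeanClass.mk (mon t k) := by
  have h1 : ∃ i ∈ P.support, ∃ j ∈ P.support, i < j ∧
      ArchimedeanClass.mk (P.coeff i * x ^ i) = ArchimedeanClass.mk (P.coeff j * x ^ j) := by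
    by_contra hcon
    push Not at hcon
    have h2 : Set.InjOn (fun i => ArchimedeanClass.mk (P.coeff i * x ^ i)) P.support := by
      intro i hi j hj hij
      by_contra hne
      rcases lt_or_gt_of_ne hne with h | h
      · exact hcon i hi j hj h hij
      · exact hcon j hj i hi h hij.symm
    obtain ⟨i, hi, h3⟩ := class_sum (Polynomial.support_nonempty.2 hP) h2
    have h4 : ∑ i ∈ P.support, P.coeff i * x ^ i = 0 := by
      rw [← h0, Polynomial.eval_eq_sum, Polynomial.sum_def]
    rw [h4, ArchimedeanClass.mk_zero, eq_comm, ArchimedeanClass.mk_eq_top_iff] at h3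
    exact mul_ne_zero (Polynomial.mem_support_iff.1 hi) (pow_ne_zero _ hx) h3
  obtain ⟨i, hi, j, hj, hij, h2⟩ := h1
  obtain ⟨ki, hki⟩ := class_poly ht hb (hc i) (Polynomial.mem_support_iff.1 hi)
  obtain ⟨kj, hkj⟩ := class_poly ht hb (hc j) (Polynomial.mem_support_iff.1 hj)
  refine ⟨j - i, ki - kj, by omega, ?_⟩
  have h3 : x ^ j = x ^ i * x ^ (j - i) := by
    rw [← pow_add]
    congr 1
    omega
  have hxi : ArchimedeanClass.mk (x ^ i) ≠ ⊤ := by
    rw [Ne, ArchimedeanClass.mk_eq_top_iff]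
    exact pow_ne_zero _ hx
  have hkj0 : ArchimedeanClass.mk (mon t kj) ≠ ⊤ := by
    rw [Ne, ArchimedeanClass.mk_eq_top_iff]
    exact (mon_pos ht kj).ne'
  rw [h3, ArchimedeanClass.mk_mul, ArchimedeanClass.mk_mul, ArchimedeanClass.mk_mul,
    add_left_comm, add_comm] at h2
  have h4 := ArchimedeanClass.add_left_cancel_of_ne_top hxi h2
  have h5 : mon t ki = mon t kj * mon t (ki - kj) := by
    rw [← mon_add ht]
    congr 1
    abel
  rw [hki, hkj, h5, ArchimedeanClass.mk_mul] at h4
  exact (ArchimedeanClass.add_left_cancel_of_ne_top hkj0 h4).symm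

private theorem infl_iff {x : K} (hx : 0 < x) : Infl x ↔ 0 < ArchimedeanClass.mk x := by
  rw [← ArchimedeanClass.mk_one, ArchimedeanClass.mk_lt_mk]
  constructor
  · rintro ⟨-, h⟩ n
    rw [nsmul_eq_mul, abs_of_pos hx, abs_one]
    exact h n
  · intro h
    refine ⟨hx, fun n => ?_⟩
    have := h n
    rwa [nsmul_eq_mul, abs_of_pos hx, abs_one] at this

/-- infinitesimals with this property are commensurable with one of the `t l` -/
theorem comm_of_class (ht : ∀ l, Infl (t l)) (hb : ∀ l m, l < m → Below (t l) (t m)) {x : K}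
    (hx : Infl x) {d : ℕ} {k : Λ →₀ ℤ} (hd : 0 < d)
    (h : ArchimedeanClass.mk (x ^ d) = ArchimedeanClass.mk (mon t k)) :
    ∃ l, Comm x (t l) := by
  have hM := mon_pos ht k
  have hx0 := hx.1
  have hx1 : x ≤ 1 := by
    have := hx.2 1
    rw [Nat.cast_one, one_mul] at this
    exact this.le
  have h1 : 0 < ArchimedeanClass.mk (mon t k) := by
    rw [← h, ← infl_iff (pow_pos hx0 d)]
    refine ⟨pow_pos hx0 d, fun n => lt_of_le_of_lt ?_ (hx.2 n)⟩
    exact mul_le_mul_of_nonneg_left (pow_le_of_le_one hx0.le hx1 hd.ne') (Nat.cast_nonneg n)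
  have hk : k ≠ 0 := by
    rintro rfl
    have h2 : mon t (0 : Λ →₀ ℤ) = 1 := by simp [mon]
    rw [h2, ArchimedeanClass.mk_one] at h1
    exact lt_irrefl _ h1
  have hsup : k.support.Nonempty := Finsupp.support_nonempty_iff.2 hk
  set l := k.support.min' hsup with hl
  have hmin : ∀ m, m < l → k m = 0 := by
    intro m hm
    by_contra hne
    exact absurd (Finset.min'_le _ m (Finsupp.mem_support_iff.2 hne)) (not_le.2 hm)
  have hl0 : k l ≠ 0 := Finsupp.mem_support_iff.1 (Finset.min'_mem _ hsup)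
  have hlpos : 0 < k l := by
    rcases lt_or_gt_of_ne hl0 with h2 | h2
    · exfalso
      have h3 : Infl (mon t (-k)) := by
        apply infl_mon ht hb (l := l)
        · rw [Finsupp.neg_apply]
          omega
        · intro m hm
          rw [Finsupp.neg_apply, hmin m hm, neg_zero]
      have h4 : mon t (-k) * mon t k = 1 := by
        rw [← mon_add ht, neg_add_cancel]
        simp [mon]
      have h5 := h3.2 1
      have h6 := ((infl_iff hM).2 h1).2 1
      rw [Nat.cast_one, one_mul] at h5 h6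
      have h7 : mon t (-k) * mon t k < 1 * 1 :=
        mul_lt_mul'' h5 h6 h3.1.le hM.le
      rw [h4, one_mul] at h7
      exact lt_irrefl _ h7
    · exact h2
  obtain ⟨n, hn, hn1, hn2⟩ := comm_mon ht hb hlpos hmin
  rw [ArchimedeanClass.mk_eq_mk] at h
  obtain ⟨⟨a, ha⟩, b, hb'⟩ := h
  rw [nsmul_eq_mul, abs_of_pos hM, abs_of_pos (pow_pos hx0 d)] at ha hb'
  have ht0 := (ht l).1
  have ht1 : t l ≤ 1 := by
    have := (ht l).2 1
    rw [Nat.cast_one, one_mul] at this
    exact this.le
  have h2 : x ^ (d * n + 1) ≤ t l := by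
    have h3 : x ^ (d * n) ≤ (b : K) ^ n * t l := by
      calc x ^ (d * n) = (x ^ d) ^ n := pow_mul _ _ _
        _ ≤ ((b : K) * mon t k) ^ n := pow_le_pow_left₀ (pow_pos hx0 d).le hb' n
        _ = (b : K) ^ n * mon t k ^ n := mul_pow _ _ _
        _ ≤ (b : K) ^ n * t l :=
          mul_le_mul_of_nonneg_left hn1 (pow_nonneg (Nat.cast_nonneg b) n)
    have h4 := (hx.2 (b ^ n)).le
    push_cast at h4
    calc x ^ (d * n + 1) = x ^ (d * n) * x := pow_succ _ _
      _ ≤ (b : K) ^ n * t l * x := mul_le_mul_of_nonneg_right h3 hx0.le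
      _ = (b : K) ^ n * x * t l := by ring
      _ ≤ 1 * t l := mul_le_mul_of_nonneg_right h4 ht0.le
      _ = t l := one_mul _
  have h3 : t l ^ (n + 1) ≤ x := by
    have h4 : t l ^ n ≤ a * x := by
      calc t l ^ n ≤ mon t k := hn2
        _ ≤ a * x ^ d := ha
        _ ≤ a * x :=
          mul_le_mul_of_nonneg_left (pow_le_of_le_one hx0.le hx1 hd.ne') (Nat.cast_nonneg a)
    have h5 := ((ht l).2 a).le
    calc t l ^ (n + 1) = t l ^ n * t l := pow_succ _ _
      _ ≤ a * x * t l := mul_le_mul_of_nonneg_right h4 ht0.le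
      _ = a * t l * x := by ring
      _ ≤ 1 * x := mul_le_mul_of_nonneg_right h5 hx0.le
      _ = x := one_mul _
  refine ⟨l, d * n + 1 + (n + 1), by omega, ?_, ?_⟩
  · exact le_trans (pow_le_pow_of_le_one hx0.le hx1 (by omega)) h2
  · exact le_trans (pow_le_pow_of_le_one ht0.le ht1 (by omega)) h3

end Classes

end Pool.Agent.SpecR
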