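import Pool.Agent.SpecR.Defs

/-!
# Archimedean classes of monomials
-/

set_option autoImplicit false
set_option linter.unusedSectionVars false

open Polynomial

namespace Pool.Agent.SpecR

universe u

section Classes

variable {K Λ : Type} [Field K] [LinearOrder K] [IsStrictOrderedRing K] [LinearOrder Λ]
  {t : Λ → K}

private theorem infl_lt_one {x : K} (h : Infl x) : x < 1 := by
  have := h.2 1
  rwa [Nat.cast_one, one_mul] at this

theorem mon_pos (ht : ∀ l, Infl (t l)) (k : Λ →₀ ℤ) : 0 < mon t k :=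
  Finset.prod_pos fun l _ => zpow_pos (ht l).1 _

private theorem mon_add (ht : ∀ l, Infl (t l)) (k k' : Λ →₀ ℤ) :
    mon t (k + k') = mon t k * mon t k' :=
  Finsupp.prod_add_index' (fun _ => zpow_zero _) fun l _ _ => zpow_add₀ (ht l).1.ne' _ _

private theorem mon_zero : mon t (0 : Λ →₀ ℤ) = 1 := Finsupp.prod_zero_index

private theorem mon_single (l : Λ) (n : ℤ) : mon t (Finsupp.single l n) = t l ^ n :=
  Finsupp.prod_single_index (zpow_zero _)

/-- the elements whose powers are all strictly between `s` and its inverse -/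
private def W (s a : K) : Prop := 0 < a ∧ ∀ N : ℕ, s < a ^ N ∧ s * a ^ N < 1

private theorem W.mul {s a b : K} (hs : 0 < s) (ha : W s a) (hb : W s b) : W s (a * b) := by
  refine ⟨mul_pos ha.1 hb.1, fun N => ?_⟩
  have h1 := ha.2 (2 * N)
  have h2 := hb.2 (2 * N)
  have ha' := ha.1
  have hb' := hb.1
  constructor
  · apply lt_of_pow_lt_pow_left₀ 2 (by positivity)
    calc s ^ 2 = s * s := by ring
      _ < a ^ (2 * N) * b ^ (2 * N) := mul_lt_mul'' h1.1 h2.1 hs.le hs.le
      _ = ((a * b) ^ N) ^ 2 := by ring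
  · apply lt_of_pow_lt_pow_left₀ 2 (by positivity)
    calc (s * (a * b) ^ N) ^ 2 = (s * a ^ (2 * N)) * (s * b ^ (2 * N)) := by ring
      _ < 1 * 1 := mul_lt_mul'' h1.2 h2.2 (by positivity) (by positivity)
      _ = 1 ^ 2 := by ring

private theorem W.one {s : K} (hs1 : s < 1) : W s 1 := by
  refine ⟨one_pos, fun N => ?_⟩
  rw [one_pow, mul_one]
  exact ⟨hs1, hs1⟩

private theorem W.inv {s a : K} (ha : W s a) : W s a⁻¹ := by
  refine ⟨inv_pos.2 ha.1, fun N => ?_⟩
  have h1 := ha.2 N
  have ha' := pow_pos ha.1 N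
  rw [inv_pow]
  constructor
  · rw [← one_div, lt_div_iff₀ ha']
    exact h1.2
  · rw [mul_inv_lt_iff₀ ha', one_mul]
    exact h1.1

private theorem W.pow {s a : K} (hs : 0 < s) (hs1 : s < 1) (ha : W s a) (n : ℕ) :
    W s (a ^ n) := by
  induction n with
  | zero => rw [pow_zero]; exact W.one hs1
  | succ n ih => rw [pow_succ]; exact ih.mul hs ha

private theorem W.zpow {s a : K} (hs : 0 < s) (hs1 : s < 1) (ha : W s a) (n : ℤ) :
    W s (a ^ n) := by
  obtain ⟨m, rfl | rfl⟩ := n.eq_nat_or_neg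
  · rw [zpow_natCast]
    exact ha.pow hs hs1 m
  · rw [zpow_neg, zpow_natCast]
    exact (ha.pow hs hs1 m).inv

private theorem W_mon (ht : ∀ l, Infl (t l)) (hb : ∀ l m, l < m → Below (t l) (t m)) {l : Λ}
    {k : Λ →₀ ℤ} (h : ∀ m, m ≤ l → k m = 0) : W (t l) (mon t k) := by
  have h0 := (ht l).1
  have h1 := infl_lt_one (ht l)
  unfold mon Finsupp.prod
  apply Finset.prod_induction (fun m => t m ^ k m) (W (t l)) (fun a b ha hb => ha.mul h0 hb)
    (W.one h1)
  intro m hm
  have hlm : l < m := by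
    by_contra hcon
    exact (Finsupp.mem_support_iff.1 hm) (h m (not_lt.1 hcon))
  apply W.zpow h0 h1
  have hm0 := (ht m).1
  have hm1 := infl_lt_one (ht m)
  refine ⟨hm0, fun N => ⟨hb l m hlm N, ?_⟩⟩
  calc t l * t m ^ N ≤ t l * 1 := by
        apply mul_le_mul_of_nonneg_left _ h0.le
        exact pow_le_one₀ hm0.le hm1.le
    _ < 1 := by rw [mul_one]; exact h1

/-- the decomposition of a monomial -/
private theorem mon_erase (ht : ∀ l, Infl (t l)) (hb : ∀ l m, l < m → Below (t l) (t m))
    {k : Λ →₀ ℤ} {l : Λ} (hl : 0 < k l) (hmin : ∀ m, m < l → k m = 0) :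
    ∃ (n : ℕ) (r : K), W (t l) r ∧ mon t k = t l ^ (n + 1) * r := by
  obtain ⟨n, hn⟩ : ∃ n : ℕ, k l = ((n + 1 : ℕ) : ℤ) := ⟨(k l - 1).toNat, by omega⟩
  refine ⟨n, mon t (k.erase l), ?_, ?_⟩
  · apply W_mon ht hb
    intro m hm
    rcases hm.lt_or_eq with h | rfl
    · rw [Finsupp.erase_ne h.ne]
      exact hmin m h
    · exact Finsupp.erase_same
  · conv_lhs => rw [← Finsupp.single_add_erase l k]
    rw [mon_add ht, mon_single, hn, zpow_natCast]

/-- monomials whose smallest variable has a positive exponent are infinitesimal -/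
theorem infl_mon (ht : ∀ l, Infl (t l)) (hb : ∀ l m, l < m → Below (t l) (t m)) {k : Λ →₀ ℤ}
    {l : Λ} (hl : 0 < k l) (hmin : ∀ m, m < l → k m = 0) : Infl (mon t k) := by
  refine ⟨mon_pos ht k, fun N => ?_⟩
  obtain ⟨n, r, hr, hk⟩ := mon_erase ht hb hl hmin
  have h0 := (ht l).1
  have h1 := infl_lt_one (ht l)
  have hr0 := hr.1
  have h2 : t l ^ (n + 1) ≤ t l := by
    rw [pow_succ]
    calc t l ^ n * t l ≤ 1 * t l := by
          apply mul_le_mul_of_nonneg_right _ h0.le
          exact pow_le_one₀ h0.le h1.le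
      _ = t l := one_mul _
  rw [hk]
  have hN : (0 : K) ≤ N := Nat.cast_nonneg N
  calc (N : K) * (t l ^ (n + 1) * r) ≤ N * (t l * r) := by
        apply mul_le_mul_of_nonneg_left _ hN
        exact mul_le_mul_of_nonneg_right h2 hr0.le
    _ < 1 := by
        apply lt_of_pow_lt_pow_left₀ 2 (by norm_num)
        calc ((N : K) * (t l * r)) ^ 2 = ((N ^ 2 : ℕ) * t l) * (t l * r ^ 2) := by
              push_cast
              ring
          _ < 1 * 1 := by
              apply mul_lt_mul'' ((ht l).2 _) (hr.2 2).2 (by positivity) (by positivity)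
          _ = 1 ^ 2 := by ring

/-- such monomials are commensurable with their smallest variable -/
theorem comm_mon (ht : ∀ l, Infl (t l)) (hb : ∀ l m, l < m → Below (t l) (t m)) {k : Λ →₀ ℤ}
    {l : Λ} (hl : 0 < k l) (hmin : ∀ m, m < l → k m = 0) : Comm (mon t k) (t l) := by
  have hinf := infl_mon ht hb hl hmin
  obtain ⟨n, r, hr, hk⟩ := mon_erase ht hb hl hmin
  have h0 := (ht l).1
  have h1 := infl_lt_one (ht l)
  have hr0 := hr.1
  have hm0 := hinf.1
  have hm1 := infl_lt_one hinf
  refine ⟨n + 2, by omega, ?_, ?_⟩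
  · calc mon t k ^ (n + 2) ≤ mon t k ^ 2 := pow_le_pow_of_le_one hm0.le hm1.le (by omega)
      _ = t l * (t l * r ^ 2) * t l ^ (2 * n) := by rw [hk]; ring
      _ ≤ t l * 1 * 1 := by
          apply mul_le_mul (mul_le_mul_of_nonneg_left (hr.2 2).2.le h0.le)
            (pow_le_one₀ h0.le h1.le) (by positivity) (by positivity)
      _ = t l := by ring
  · rw [hk]
    calc t l ^ (n + 2) = t l ^ (n + 1) * t l := by ring
      _ ≤ t l ^ (n + 1) * r := by
          apply mul_le_mul_of_nonneg_left _ (by positivity)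
          have := (hr.2 1).1
          rw [pow_one] at this
          exact this.le

/-- different monomials have different classes -/
private theorem mk_mon_ne (ht : ∀ l, Infl (t l)) (hb : ∀ l m, l < m → Below (t l) (t m))
    {k k' : Λ →₀ ℤ} (h : k ≠ k') :
    ArchimedeanClass.mk (mon t k) ≠ ArchimedeanClass.mk (mon t k') := by
  have key : ∀ {k k' : Λ →₀ ℤ} {l : Λ}, 0 < (k - k') l → (∀ m, m < l → (k - k') m = 0) →
      ArchimedeanClass.mk (mon t k') < ArchimedeanClass.mk (mon t k) := by
    intro k k' l hl hmin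
    rw [ArchimedeanClass.mk_lt_mk]
    intro n
    have h1 := infl_mon ht hb hl hmin
    have h2 : mon t k = mon t (k - k') * mon t k' := by
      rw [← mon_add ht, sub_add_cancel]
    rw [abs_of_pos (mon_pos ht k), abs_of_pos (mon_pos ht k'), h2, nsmul_eq_mul, ← mul_assoc]
    calc (n : K) * mon t (k - k') * mon t k' < 1 * mon t k' :=
          mul_lt_mul_of_pos_right (h1.2 n) (mon_pos ht k')
      _ = mon t k' := one_mul _
  have h1 : (k - k').support.Nonempty := by
    rw [Finsupp.support_nonempty_iff]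
    exact sub_ne_zero.2 h
  set l := (k - k').support.min' h1 with hl
  have hl1 : (k - k') l ≠ 0 := Finsupp.mem_support_iff.1 (Finset.min'_mem _ h1)
  have hmin : ∀ m, m < l → (k - k') m = 0 := by
    intro m hm
    by_contra hne
    have := Finset.min'_le _ m (Finsupp.mem_support_iff.2 hne)
    exact absurd (lt_of_lt_of_le hm this) (lt_irrefl _)
  rcases lt_or_gt_of_ne hl1 with h2 | h2
  · have h3 : ArchimedeanClass.mk (mon t k) < ArchimedeanClass.mk (mon t k') := by
      apply key (l := l)
      · have : (k' - k) l = -((k - k') l) := by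
          rw [Finsupp.sub_apply, Finsupp.sub_apply]
          ring
        rw [this]
        omega
      · intro m hm
        have h4 : (k' - k) m = -((k - k') m) := by
          rw [Finsupp.sub_apply, Finsupp.sub_apply]
          ring
        rw [h4, hmin m hm, neg_zero]
    exact h3.ne
  · exact (key h2 hmin).ne'

private theorem lt_mk_sum {ι : Type} (F : Finset ι) (g : ι → K) (x : ArchimedeanClass K)
    (hx : x < ⊤) (h : ∀ i ∈ F, x < ArchimedeanClass.mk (g i)) :
    x < ArchimedeanClass.mk (∑ i ∈ F, g i) := by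
  classical
  induction F using Finset.induction_on with
  | empty => simpa using hx
  | insert a s ha ih =>
    rw [Finset.sum_insert ha]
    exact lt_of_lt_of_le (lt_min (h a (Finset.mem_insert_self a s))
      (ih fun i hi => h i (Finset.mem_insert_of_mem hi))) (ArchimedeanClass.min_le_mk_add _ _)

private noncomputable def monHom (t : Λ → K) (ht : ∀ l, Infl (t l)) : Multiplicative (Λ →₀ ℤ) →* K where
  toFun k := mon t k.toAdd
  map_one' := mon_zero
  map_mul' _ _ := mon_add ht _ _

theorem class_poly (ht : ∀ l, Infl (t l)) (hb : ∀ l m, l < m → Below (t l) (t m)) {c : K}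
    (hc : c ∈ Subring.closure (Set.range t)) (h0 : c ≠ 0) :
    ∃ k : Λ →₀ ℤ, ArchimedeanClass.mk c = ArchimedeanClass.mk (mon t k) := by
  classical
  set φ := AddMonoidAlgebra.lift ℤ K (Λ →₀ ℤ) (monHom t ht) with hφ
  have h1 : Subring.closure (Set.range t) ≤ (φ : AddMonoidAlgebra ℤ (Λ →₀ ℤ) →+* K).range := by
    rw [Subring.closure_le]
    rintro _ ⟨l, rfl⟩
    refine ⟨AddMonoidAlgebra.single (Finsupp.single l 1) 1, ?_⟩
    show φ _ = _
    rw [hφ, AddMonoidAlgebra.lift_single, one_smul]
    show mon t (Finsupp.single l 1) = _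
    rw [mon_single, zpow_one]
  obtain ⟨q, hp⟩ := h1 hc
  set p : (Λ →₀ ℤ) →₀ ℤ := q.coeff with hpq
  have h2 : c = ∑ k ∈ p.support, ((p k : ℤ) : K) * mon t k := by
    rw [← hp]
    show φ q = _
    rw [hφ, AddMonoidAlgebra.lift_apply]
    apply Finset.sum_congr rfl
    intro k _
    exact zsmul_eq_mul _ _
  have h3 : p.support.Nonempty := by
    by_contra hne
    rw [Finset.not_nonempty_iff_eq_empty] at hne
    apply h0
    rw [h2, hne, Finset.sum_empty]
  obtain ⟨k, hk, hmin⟩ := p.support.exists_min_image (fun k => ArchimedeanClass.mk (mon t k)) h3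
  refine ⟨k, ?_⟩
  have hcl : ∀ i ∈ p.support, ArchimedeanClass.mk (((p i : ℤ) : K) * mon t i) =
      ArchimedeanClass.mk (mon t i) := by
    intro i hi
    rw [ArchimedeanClass.mk_mul, ArchimedeanClass.mk_intCast (Finsupp.mem_support_iff.1 hi),
      zero_add]
  rw [h2, ← Finset.add_sum_erase _ _ hk, ArchimedeanClass.mk_add_eq_mk_left, hcl k hk]
  rw [hcl k hk]
  apply lt_mk_sum
  · rw [lt_top_iff_ne_top, Ne, ArchimedeanClass.mk_eq_top_iff]
    exact (mon_pos ht k).ne'
  · intro i hi
    rw [hcl i (Finset.mem_of_mem_erase hi)]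
    exact lt_of_le_of_ne (hmin i (Finset.mem_of_mem_erase hi))
      (mk_mon_ne ht hb (Finset.ne_of_mem_erase hi).symm)

end Classes

end Pool.Agent.SpecR
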