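import Pool.Agent.SpecR.Defs

/-!
# SR4: coherent families of finite-to-one functions
-/

set_option autoImplicit false

namespace Pool.Agent.SpecR

private lemma om_countable (a : Om) : (Set.Iio a).Countable := by
  have h : Cardinal.mk (Set.Iio a) < Cardinal.aleph 1 := by
    have key : ∀ o : Ordinal.{0}, o = (Cardinal.aleph 1).ord → ∀ a : o.ToType,
        Cardinal.mk (Set.Iio a) < Cardinal.aleph 1 := by
      rintro o rfl a
      exact Cardinal.mk_Iio_toType_ord_lt a
    exact key _ (Cardinal.ord_aleph 1).symm a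
  rw [← Cardinal.le_aleph0_iff_set_countable, ← Order.lt_succ_iff, Cardinal.succ_aleph0]
  exact h

private theorem coherent_aux (s : Om → ℕ → Om) (hs : ∀ a b, b < a → ∃ n, s a n = b) :
    ∃ E : Om → Om → ℕ, ∀ a, (∀ k, {ξ | ξ < a ∧ E a ξ ≤ k}.Finite) ∧
      ∀ b, b < a → {ξ | ξ < b ∧ E b ξ ≠ E a ξ}.Finite := by
  classical
  let F : (a : Om) → ((b : Om) → b < a → Om → ℕ) → Om → ℕ := fun a IH ξ =>
    if h : ∃ n, ξ ≤ s a n ∧ s a n < a then
      max (IH (s a (Nat.find h)) (Nat.find_spec h).2 ξ) (Nat.find h) else 0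
  let E : Om → Om → ℕ := (wellFounded_lt (α := Om)).fix F
  have hE : ∀ a ξ, E a ξ = if h : ∃ n, ξ ≤ s a n ∧ s a n < a then
      max (E (s a (Nat.find h)) ξ) (Nat.find h) else 0 := by
    intro a ξ
    have := congrFun ((wellFounded_lt (α := Om)).fix_eq F a) ξ
    exact this
  -- the value
  have hval : ∀ a ξ, ξ < a → ∃ n, (ξ ≤ s a n ∧ s a n < a) ∧
      (∀ m, (ξ ≤ s a m ∧ s a m < a) → n ≤ m) ∧ E a ξ = max (E (s a n) ξ) n := by
    intro a ξ hξ
    obtain ⟨n, hn⟩ := hs a ξ hξ
    have h : ∃ n, ξ ≤ s a n ∧ s a n < a := ⟨n, hn.ge, by rw [hn]; exact hξ⟩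
    refine ⟨Nat.find h, Nat.find_spec h, fun m hm => Nat.find_min' h hm, ?_⟩
    rw [hE, dif_pos h]
  refine ⟨E, ?_⟩
  intro a
  induction a using WellFoundedLT.induction with
  | ind a IH =>
    constructor
    · intro k
      have hfin : (⋃ n ∈ Finset.range (k + 1), ({s a n} ∪
          {ξ | s a n < a ∧ ξ < s a n ∧ E (s a n) ξ ≤ k})).Finite := by
        refine Set.Finite.biUnion (Finset.finite_toSet _) fun n _ => ?_
        refine (Set.finite_singleton _).union ?_
        by_cases hn : s a n < a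
        · refine ((IH _ hn).1 k).subset ?_
          rintro ξ ⟨_, h2, h3⟩
          exact ⟨h2, h3⟩
        · refine Set.finite_empty.subset ?_
          rintro ξ ⟨h1, _⟩
          exact hn h1
      refine hfin.subset ?_
      rintro ξ ⟨h1, h2⟩
      obtain ⟨n, ⟨hn1, hn2⟩, _, hn4⟩ := hval a ξ h1
      rw [hn4, max_le_iff] at h2
      refine Set.mem_biUnion (Finset.mem_coe.2 (Finset.mem_range.2 (Nat.lt_succ_of_le h2.2))) ?_
      rcases hn1.eq_or_lt with h3 | h3
      · exact Or.inl h3
      · exact Or.inr ⟨hn2, h3, h2.1⟩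
    · intro b hb
      obtain ⟨N, hN⟩ := hs a b hb
      have hfin : (⋃ n ∈ Finset.range (N + 1), (({s a n} ∪
          {ξ | s a n < a ∧ ξ < s a n ∧ E (s a n) ξ ≤ n}) ∪
          {ξ | s a n < a ∧ ξ < s a n ∧ ξ < b ∧ E (s a n) ξ ≠ E b ξ})).Finite := by
        refine Set.Finite.biUnion (Finset.finite_toSet _) fun n _ => ?_
        by_cases hn : s a n < a
        · refine ((Set.finite_singleton _).union ?_).union ?_
          · refine ((IH _ hn).1 n).subset ?_
            rintro ξ ⟨_, h2, h3⟩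
            exact ⟨h2, h3⟩
          · rcases lt_trichotomy (s a n) b with h | h | h
            · refine ((IH _ hb).2 _ h).subset ?_
              rintro ξ ⟨_, h2, _, h3⟩
              exact ⟨h2, h3⟩
            · refine Set.finite_empty.subset ?_
              rintro ξ ⟨_, _, _, h3⟩
              exact h3 (by rw [h])
            · refine ((IH _ hn).2 _ h).subset ?_
              rintro ξ ⟨_, _, h2, h3⟩
              exact ⟨h2, h3.symm⟩
        · refine (Set.finite_singleton (s a n)).subset ?_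
          rintro ξ ((h | ⟨h, _⟩) | ⟨h, _⟩)
          · exact h
          · exact absurd h hn
          · exact absurd h hn
      refine hfin.subset ?_
      rintro ξ ⟨h1, h2⟩
      obtain ⟨n, ⟨hn1, hn2⟩, hn3, hn4⟩ := hval a ξ (h1.trans hb)
      have hnN : n ≤ N := hn3 N ⟨by rw [hN]; exact h1.le, by rw [hN]; exact hb⟩
      refine Set.mem_biUnion (Finset.mem_coe.2 (Finset.mem_range.2 (Nat.lt_succ_of_le hnN))) ?_
      rcases hn1.eq_or_lt with h3 | h3
      · exact Or.inl (Or.inl h3)
      · by_cases h4 : E (s a n) ξ ≤ n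
        · exact Or.inl (Or.inr ⟨hn2, h3, h4⟩)
        · right
          refine ⟨hn2, h3, h1, ?_⟩
          rw [hn4, max_eq_left (le_of_not_ge h4)] at h2
          exact h2.symm

theorem exists_coherent : ∃ e : Om → Om → ℤ, Coherent e := by
  have hs : ∀ a : Om, ∃ s : ℕ → Om, ∀ b, b < a → ∃ n, s n = b := by
    intro a
    rcases (Set.Iio a).eq_empty_or_nonempty with h | h
    · refine ⟨fun _ => a, fun b hb => ?_⟩
      have : b ∈ Set.Iio a := hb
      rw [h] at this
      exact absurd this (Set.notMem_empty b)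
    · obtain ⟨s, hs⟩ := (om_countable a).exists_eq_range h
      refine ⟨s, fun b hb => ?_⟩
      have : b ∈ Set.Iio a := hb
      rw [hs] at this
      exact this
  choose s hs using hs
  obtain ⟨E, hE⟩ := coherent_aux s hs
  refine ⟨fun a ξ => (E a ξ : ℤ), ⟨?_, ?_⟩⟩
  · intro a n
    refine ((hE a).1 n.toNat).subset ?_
    rintro ξ ⟨h1, h2⟩
    refine ⟨h1, ?_⟩
    rw [← h2]
    simp
  · intro a b hab
    rcases hab.eq_or_lt with rfl | h
    · refine Set.finite_empty.subset ?_
      rintro ξ ⟨_, h⟩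
      exact h rfl
    · refine ((hE b).2 a h).subset ?_
      rintro ξ ⟨h1, h2⟩
      exact ⟨h1, fun h3 => h2 (by rw [h3])⟩

end Pool.Agent.SpecR
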