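import Pool.Agent.SpecR.Points

/-!
# The topology of the real spectrum
-/

set_option autoImplicit false

open Polynomial

namespace Pool.Agent.SpecR

universe u

section Points

variable {A : Type u} [CommRing A]

theorem isCompact_inter (s : Finset A) : IsCompact {α : RealPt A | ∀ a ∈ s, α.Pos a} := by
  rw [isCompact_iff_ultrafilter_le_nhds]
  intro f hf
  have hmono : ∀ {S T : Set (RealPt A)}, S ∈ f → S ⊆ T → T ∈ f := fun h h' =>
    Filter.mem_of_superset h h'
  have hP : IsPos fun a : A => {α : RealPt A | α.Pos a} ∈ f := by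
    constructor
    · have : {α : RealPt A | α.Pos 1} = Set.univ := by
        ext α
        simp only [Set.mem_ofPred_eq, Set.mem_univ, iff_true]
        exact α.isPos.one
      rw [this]
      exact Filter.univ_mem
    · intro a h1 h2
      have h3 : {α : RealPt A | α.Pos a} ∩ {α : RealPt A | α.Pos (-a)} ∈ f :=
        Filter.inter_mem h1 h2
      have h4 : {α : RealPt A | α.Pos a} ∩ {α : RealPt A | α.Pos (-a)} = ∅ := by
        ext α
        simp only [Set.mem_inter_iff, Set.mem_ofPred_eq, Set.mem_empty_iff_false, iff_false,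
          not_and]
        exact α.isPos.neg a
      rw [h4] at h3
      exact Filter.empty_notMem _ h3
    · intro a b h1 h2
      exact hmono (Filter.inter_mem h1 h2) fun α h => α.isPos.add a b h.1 h.2
    · intro a b h1 h2
      exact hmono (Filter.inter_mem h1 h2) fun α h => α.isPos.mul a b h.1 h.2
    · intro a b h
      rw [← Ultrafilter.union_mem_iff]
      exact hmono h fun α h => α.isPos.of_add a b h
    · intro a b h
      have h1 : ({α : RealPt A | α.Pos a} ∩ {α | α.Pos b}) ∪
          ({α : RealPt A | α.Pos (-a)} ∩ {α | α.Pos (-b)}) ∈ f :=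
        hmono h fun α h => α.isPos.of_mul a b h
      rw [Ultrafilter.union_mem_iff] at h1
      rcases h1 with h1 | h1
      · exact Or.inl ⟨hmono h1 Set.inter_subset_left, hmono h1 Set.inter_subset_right⟩
      · exact Or.inr ⟨hmono h1 Set.inter_subset_left, hmono h1 Set.inter_subset_right⟩
  obtain ⟨α, hα⟩ := exists_point hP
  rw [Filter.le_principal_iff] at hf
  refine ⟨α, ?_, ?_⟩
  · intro a ha
    rw [hα]
    exact hmono hf fun β hβ => hβ a ha
  · have h1 : nhds α = ⨅ U ∈ {U : Set (RealPt A) | α ∈ U ∧ U ∈ {U | ∃ a : A, U = {α | α.Pos a}}},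
        Filter.principal U := TopologicalSpace.nhds_generateFrom
    rw [h1]
    refine le_iInf₂ ?_
    rintro U ⟨hU, a, rfl⟩
    rw [Filter.le_principal_iff]
    exact (hα a).1 hU

/-- the basic open sets -/
private def bs (s : Finset A) : Set (RealPt A) := {α | ∀ a ∈ s, α.Pos a}

private theorem isOpen_pos (a : A) : IsOpen {α : RealPt A | α.Pos a} :=
  TopologicalSpace.isOpen_generateFrom_of_mem ⟨a, rfl⟩

private theorem isOpen_bs (s : Finset A) : IsOpen (bs s) := by
  have h : bs s = ⋂ a ∈ s, {α : RealPt A | α.Pos a} := by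
    ext α
    simp [bs]
  rw [h]
  exact isOpen_biInter_finset fun a _ => isOpen_pos a

private theorem basis_bs : TopologicalSpace.IsTopologicalBasis (Set.range (bs (A := A))) := by
  classical
  apply TopologicalSpace.isTopologicalBasis_of_isOpen_of_nhds
  · rintro _ ⟨s, rfl⟩
    exact isOpen_bs s
  · intro α U hα hU
    have hb := TopologicalSpace.isTopologicalBasis_of_subbasis
      (s := {U : Set (RealPt A) | ∃ a : A, U = {α | α.Pos a}}) rfl
    obtain ⟨V, ⟨f, ⟨hf1, hf2⟩, rfl⟩, hV1, hV2⟩ := hb.exists_subset_of_mem_open hα hU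
    have hch : ∀ W : Set (RealPt A), ∃ a : A, W ∈ f → W = {α | α.Pos a} := by
      intro W
      by_cases hW : W ∈ f
      · obtain ⟨a, ha⟩ := hf2 hW
        exact ⟨a, fun _ => ha⟩
      · exact ⟨0, fun h => absurd h hW⟩
    choose g hg using hch
    refine ⟨bs (hf1.toFinset.image g), ⟨_, rfl⟩, ?_, ?_⟩
    · intro a ha
      obtain ⟨W, hW, rfl⟩ := Finset.mem_image.1 ha
      rw [Set.Finite.mem_toFinset] at hW
      have h1 : α ∈ W := hV1 W hW
      rw [hg W hW] at h1
      exact h1
    · intro β hβ
      apply hV2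
      intro W hW
      rw [hg W hW]
      exact hβ _ (Finset.mem_image_of_mem g (hf1.mem_toFinset.2 hW))

private theorem gen_bs (s : Finset A) : Gen {V | ∃ a : A, V = {α | α.Pos a}} (bs s) := by
  classical
  induction s using Finset.induction_on with
  | empty =>
    have h : bs (∅ : Finset A) = Set.univ := by
      ext α
      simp [bs]
    rw [h]
    exact .univ
  | insert a s _ ih =>
    have h : bs (insert a s) = {α : RealPt A | α.Pos a} ∩ bs s := by
      ext α
      simp [bs]
    rw [h]
    exact .inter (.base ⟨a, rfl⟩) ih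

private theorem exists_of_gen {U : Set (RealPt A)}
    (h : Gen {V | ∃ a : A, V = {α | α.Pos a}} U) :
    ∃ t : Finset (Finset A), U = ⋃ s ∈ t, bs s := by
  classical
  induction h with
  | base hU =>
    obtain ⟨a, rfl⟩ := hU
    refine ⟨{{a}}, ?_⟩
    ext α
    simp [bs]
  | empty => exact ⟨∅, by simp⟩
  | univ =>
    refine ⟨{∅}, ?_⟩
    ext α
    simp [bs]
  | union _ _ h1 h2 =>
    obtain ⟨t₁, rfl⟩ := h1
    obtain ⟨t₂, rfl⟩ := h2
    refine ⟨t₁ ∪ t₂, ?_⟩
    rw [Finset.set_biUnion_union]
  | inter _ _ h1 h2 =>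
    obtain ⟨t₁, rfl⟩ := h1
    obtain ⟨t₂, rfl⟩ := h2
    refine ⟨Finset.image₂ (· ∪ ·) t₁ t₂, ?_⟩
    ext α
    simp only [Set.mem_inter_iff, Set.mem_iUnion, exists_prop]
    constructor
    · rintro ⟨⟨s, hs, h1⟩, s', hs', h2⟩
      refine ⟨s ∪ s', Finset.mem_image₂_of_mem hs hs', ?_⟩
      intro a ha
      rcases Finset.mem_union.1 ha with h | h
      · exact h1 a h
      · exact h2 a h
    · rintro ⟨u, hu, h⟩
      obtain ⟨s, hs, s', hs', rfl⟩ := Finset.mem_image₂.1 hu
      exact ⟨⟨s, hs, fun a ha => h a (Finset.mem_union_left _ ha)⟩, s', hs',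
        fun a ha => h a (Finset.mem_union_right _ ha)⟩

private theorem gen_biUnion (s : Set (Finset A)) (hs : s.Finite) :
    Gen {V | ∃ a : A, V = {α | α.Pos a}} (⋃ i ∈ s, bs i) := by
  induction s, hs using Set.Finite.induction_on with
  | empty =>
    simp only [Set.mem_empty_iff_false, Set.iUnion_of_empty, Set.iUnion_empty]
    exact .empty
  | insert _ _ ih =>
    rw [Set.biUnion_insert]
    exact .union (gen_bs _) ih

/-- the quasi-compact open sets -/
theorem gen_iff (U : Set (RealPt A)) :
    (IsOpen U ∧ IsCompact U) ↔ Gen {V | ∃ a : A, V = {α | α.Pos a}} U := by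
  constructor
  · rintro ⟨hU, hc⟩
    obtain ⟨s, hs, rfl⟩ := eq_finite_iUnion_of_isTopologicalBasis_of_isCompact_open _ basis_bs U
      hc hU
    exact gen_biUnion s hs
  · intro h
    obtain ⟨t, rfl⟩ := exists_of_gen h
    exact ⟨isOpen_biUnion fun s _ => isOpen_bs s, t.isCompact_biUnion fun s _ => isCompact_inter s⟩

end Points

end Pool.Agent.SpecR
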