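import Mathlib

/-!
# Real spectra and the logic `L_{ω₁ω₁}` (MP_1824d7_lc): definitions
-/

set_option autoImplicit false

open Polynomial

namespace Pool.Agent.SpecR

universe u

/-! ## The logic -/

/-- structures in the signature `(∨, ∧, 0, 1)` -/
structure LStr where
  /-- the universe -/
  carrier : Type
  /-- the binary operation `∨` -/
  sup : carrier → carrier → carrier
  /-- the binary operation `∧` -/
  inf : carrier → carrier → carrier
  /-- the constant `0` -/
  zero : carrier
  /-- the constant `1` -/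
  one : carrier

/-- terms of the signature `(∨, ∧, 0, 1)`, with variables indexed by `ℕ` -/
inductive Tm : Type
  | var : ℕ → Tm
  | zero : Tm
  | one : Tm
  | sup : Tm → Tm → Tm
  | inf : Tm → Tm → Tm

/-- the variables of a term -/
def Tm.vars : Tm → Set ℕ
  | .var n => {n}
  | .zero => ∅
  | .one => ∅
  | .sup s t => s.vars ∪ t.vars
  | .inf s t => s.vars ∪ t.vars

/-- the value of a term -/
def Tm.val (D : LStr) (v : ℕ → D.carrier) : Tm → D.carrier
  | .var n => v n
  | .zero => D.zero
  | .one => D.one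
  | .sup s t => D.sup (s.val D v) (t.val D v)
  | .inf s t => D.inf (s.val D v) (t.val D v)

/-- formulas of `L_{ω₁ω₁}`: equations, negations, countable conjunctions, and universal
quantification over a (possibly infinite) set of variables at once; countable disjunctions and
existential quantification over countably many variables are obtained by negation -/
inductive Fml : Type
  | eq : Tm → Tm → Fml
  | neg : Fml → Fml
  | conj : (ℕ → Fml) → Fml
  | all : Set ℕ → Fml → Fml

/-- the free variables of a formula -/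
def Fml.free : Fml → Set ℕ
  | .eq s t => s.vars ∪ t.vars
  | .neg φ => φ.free
  | .conj f => ⋃ n, (f n).free
  | .all S φ => φ.free \ S

/-- satisfaction of a formula -/
def Sat (D : LStr) : Fml → (ℕ → D.carrier) → Prop
  | .eq s t, v => s.val D v = t.val D v
  | .neg φ, v => ¬ Sat D φ v
  | .conj f, v => ∀ n, Sat D (f n) v
  | .all S φ, v => ∀ w : ℕ → D.carrier, (∀ n, n ∉ S → w n = v n) → Sat D φ w

/-- `D ⊨ φ` (for a sentence `φ`) -/
def Models (D : LStr) (φ : Fml) : Prop := ∀ v : ℕ → D.carrier, Sat D φ v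

/-! ## The real spectrum -/

/-- The points of the real spectrum of `A`: the pairs of a prime ideal `𝔭` of `A` and a total order
which makes the fraction field of `A / 𝔭` an ordered field. -/
structure RealPt (A : Type u) [CommRing A] where
  /-- the prime ideal -/
  ideal : Ideal A
  prime : ideal.IsPrime
  /-- the total order of the fraction field -/
  order : LinearOrder (FractionRing (A ⧸ ideal))
  ordered : IsStrictOrderedRing (FractionRing (A ⧸ ideal))

/-- `a(α) > 0` -/
def RealPt.Pos {A : Type u} [CommRing A] (α : RealPt A) (a : A) : Prop :=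
  letI := α.order
  0 < algebraMap (A ⧸ α.ideal) (FractionRing (A ⧸ α.ideal)) (Ideal.Quotient.mk α.ideal a)

/-- the topology generated by the sets `{α : a(α) > 0}` -/
instance (A : Type u) [CommRing A] : TopologicalSpace (RealPt A) :=
  TopologicalSpace.generateFrom {U | ∃ a : A, U = {α | α.Pos a}}

/-- `D` is isomorphic to the lattice `Φ(A)` of the quasi-compact open subsets of the real spectrum
of some ring `A` (in the universe `u`) -/
def Rep (D : LStr) : Prop :=
  ∃ (A : Type u) (_ : CommRing A) (e : D.carrier ≃ {U : Set (RealPt A) // IsOpen U ∧ IsCompact U}),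
    (∀ x y, (e (D.sup x y)).1 = (e x).1 ∪ (e y).1) ∧
    (∀ x y, (e (D.inf x y)).1 = (e x).1 ∩ (e y).1) ∧
    (e D.zero).1 = ∅ ∧ (e D.one).1 = Set.univ

/-! ## Tools of the proof -/

/-- the axioms of the relation `a(α) > 0` -/
structure IsPos {A : Type u} [CommRing A] (P : A → Prop) : Prop where
  one : P 1
  neg : ∀ a, P a → ¬ P (-a)
  add : ∀ a b, P a → P b → P (a + b)
  mul : ∀ a b, P a → P b → P (a * b)
  of_add : ∀ a b, P (a + b) → P a ∨ P b
  of_mul : ∀ a b, P (a * b) → (P a ∧ P b) ∨ (P (-a) ∧ P (-b))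

/-- the sublattice (with `∅` and the whole set) of the lattice of subsets of `Y` generated by the
sets of `𝒰` -/
inductive Gen {Y : Type u} (𝒰 : Set (Set Y)) : Set Y → Prop
  | base {U : Set Y} : U ∈ 𝒰 → Gen 𝒰 U
  | empty : Gen 𝒰 ∅
  | univ : Gen 𝒰 Set.univ
  | union {U V : Set Y} : Gen 𝒰 U → Gen 𝒰 V → Gen 𝒰 (U ∪ V)
  | inter {U V : Set Y} : Gen 𝒰 U → Gen 𝒰 V → Gen 𝒰 (U ∩ V)

/-- the substructure of `D` generated by the elements of `G` -/
inductive GenD (D : LStr) (G : Set D.carrier) : D.carrier → Prop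
  | base {x : D.carrier} : x ∈ G → GenD D G x
  | zero : GenD D G D.zero
  | one : GenD D G D.one
  | sup {x y : D.carrier} : GenD D G x → GenD D G y → GenD D G (D.sup x y)
  | inf {x y : D.carrier} : GenD D G x → GenD D G y → GenD D G (D.inf x y)

/-- the ordinal sum of the lattice `D` and the chain `C + 1` -/
noncomputable def ordSum (D : LStr) (C : Type) [LinearOrder C] : LStr where
  carrier := D.carrier ⊕ WithTop C
  sup
    | .inl x, .inl y => .inl (D.sup x y)
    | .inl _, .inr l => .inr l
    | .inr l, .inl _ => .inr l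
    | .inr l, .inr l' => .inr (max l l')
  inf
    | .inl x, .inl y => .inl (D.inf x y)
    | .inl x, .inr _ => .inl x
    | .inr _, .inl x => .inl x
    | .inr l, .inr l' => .inr (min l l')
  zero := .inl D.zero
  one := .inr ⊤

/-- the function `f / (1 + X²)ⁿ` on the projective line over `R` (`none` is the point at
infinity) -/
def ev {R : Type} [Field R] (f : R[X]) (n : ℕ) : Option R → R
  | none => f.coeff (2 * n)
  | some x => f.eval x / (1 + x ^ 2) ^ n

/-- the set where the function `f / (1 + X²)ⁿ` is positive -/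
def posSet {R : Type} [Field R] [LinearOrder R] (f : R[X]) (n : ℕ) : Set (Option R) :=
  {y | 0 < ev f n y}

/-- the sets `{f / (1 + X²)ⁿ > 0}`, `deg f ≤ 2 n` -/
def basic (R : Type) [Field R] [LinearOrder R] : Set (Set (Option R)) :=
  {U | ∃ (f : R[X]) (n : ℕ), f.natDegree ≤ 2 * n ∧ U = posSet f n}

/-- the lattice of the subsets of the projective line over `R` generated by the sets where a
regular function is positive -/
def D1 (R : Type) [Field R] [LinearOrder R] : LStr where
  carrier := {U : Set (Option R) // Gen (basic R) U}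
  sup U V := ⟨U.1 ∪ V.1, U.2.union V.2⟩
  inf U V := ⟨U.1 ∩ V.1, U.2.inter V.2⟩
  zero := ⟨∅, .empty⟩
  one := ⟨Set.univ, .univ⟩

/-- polynomials over `R` are products of constants, of linear factors and of factors
`(X - a)² + b²`, `b ≠ 0` -/
def Factors (R : Type) [Field R] : Prop :=
  ∀ f : R[X], f ≠ 0 → ∃ (c : R) (s : Multiset R) (q : Multiset (R × R)), c ≠ 0 ∧
    (∀ p ∈ q, p.2 ≠ 0) ∧
    f = C c * (s.map fun a => X - C a).prod * (q.map fun p => (X - C p.1) ^ 2 + C (p.2 ^ 2)).prod

/-- `0 < x`, `n x < 1` for all `n` -/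
def Infl {R : Type} [Field R] [LinearOrder R] (x : R) : Prop := 0 < x ∧ ∀ n : ℕ, n * x < 1

/-- `x` is smaller than all powers of `y` -/
def Below {R : Type} [Field R] [LinearOrder R] (x y : R) : Prop := ∀ n : ℕ, x < y ^ n

/-- `x` and `y` are commensurable (`0 < x, y < 1`) -/
def Comm {R : Type} [Field R] [LinearOrder R] (x y : R) : Prop :=
  ∃ n : ℕ, 0 < n ∧ x ^ n ≤ y ∧ y ^ n ≤ x

/-- a family of infinitesimals representing the commensurability classes -/
structure Scale (R : Type) [Field R] [LinearOrder R] (Λ : Type) [LinearOrder Λ] (t : Λ → R) :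
    Prop where
  infl : ∀ l, Infl (t l)
  below : ∀ l m, l < m → Below (t l) (t m)
  class_ : ∀ x : R, Infl x → ∃ l, Comm x (t l)

/-- `x` is commensurable with `τ` or smaller -/
def Small {R : Type} [Field R] [LinearOrder R] (τ x : R) : Prop := ∃ n : ℕ, 0 < n ∧ |x| ^ n ≤ τ

/-- `x` is bounded by a natural number -/
def Bdd {R : Type} [Field R] [LinearOrder R] (x : R) : Prop := ∃ n : ℕ, |x| ≤ n

/-- the ring generated by the bounded constants and by the functions `f / (1 + X²)ⁿ` with small
coefficients -/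
def ringA {R : Type} [Field R] [LinearOrder R] (τ : R) : Subring (Option R → R) :=
  Subring.closure ({F | ∃ a, Bdd a ∧ F = fun _ => a} ∪
    {F | ∃ (f : R[X]) (n : ℕ), f.natDegree ≤ 2 * n ∧ (∀ i, Small τ (f.coeff i)) ∧ F = ev f n})

/-- positivity at the points of the chain -/
def chainPos {R : Type} [Field R] [LinearOrder R] {C : Type} (t : WithBot C → R) (l : WithTop C)
    (a : R) : Prop :=
  0 < a ∧ ((∃ n : ℕ, 1 ≤ n * a) ∨ ∃ m : C, l = m ∧ ∃ n : ℕ, t m ^ n ≤ a)

/-- a type of order type `ω₁` -/
abbrev Om : Type := (Ordinal.omega 1).ToType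

/-- the nodes of the tree of a family of functions `e a : a → ℤ`, `a < ω₁`: functions
`f : a → ℤ` (continued by `⊥`) which are equal to `e a` except at finitely many points -/
def IsNode (e : Om → Om → ℤ) (f : Om → WithBot ℤ) : Prop :=
  ∃ a : Om, (∀ ξ, a ≤ ξ → f ξ = ⊥) ∧ (∀ ξ, ξ < a → f ξ ≠ ⊥) ∧
    {ξ | ξ < a ∧ f ξ ≠ (e a ξ : WithBot ℤ)}.Finite

/-- the tree, with the lexicographic order -/
def Tree (e : Om → Om → ℤ) : Type := {f : Lex (Om → WithBot ℤ) // IsNode e (ofLex f)}

noncomputable instance (e : Om → Om → ℤ) : LinearOrder (Tree e) :=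
  inferInstanceAs (LinearOrder {f : Lex (Om → WithBot ℤ) // IsNode e (ofLex f)})

/-- coherent families of finite-to-one functions -/
structure Coherent (e : Om → Om → ℤ) : Prop where
  finite : ∀ (a : Om) (n : ℤ), {ξ | ξ < a ∧ e a ξ = n}.Finite
  coh : ∀ a b : Om, a ≤ b → {ξ | ξ < a ∧ e a ξ ≠ e b ξ}.Finite

/-- a back-and-forth system of partial isomorphisms (given by their graphs) for countable sets -/
def BF (C C' : Type) [LinearOrder C] [LinearOrder C'] : Prop :=
  ∃ I : Set (Set (C × C')), I.Nonempty ∧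
    (∀ G ∈ I, ∀ p ∈ G, ∀ q ∈ G, (p.1 < q.1 ↔ p.2 < q.2)) ∧
    (∀ G ∈ I, ∀ S : Set C, S.Countable → ∃ G' ∈ I, G ⊆ G' ∧ ∀ x ∈ S, ∃ y, (x, y) ∈ G') ∧
    (∀ G ∈ I, ∀ S : Set C', S.Countable → ∃ G' ∈ I, G ⊆ G' ∧ ∀ y ∈ S, ∃ x, (x, y) ∈ G')

/-- monomials -/
noncomputable def mon {K Λ : Type} [Field K] (t : Λ → K) (k : Λ →₀ ℤ) : K :=
  k.prod fun l n => t l ^ n

/-- there are neither increasing nor decreasing sequences of length `ω₁` in `C` -/
def Short (C : Type) [LinearOrder C] : Prop :=
  (∀ f : Om → C, ¬ StrictMono f) ∧ ∀ f : Om → C, ¬ StrictAnti f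

end Pool.Agent.SpecR
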