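import Pool.Agent.SpecR.Defs

/-!
# SpecR, SR7: structures given by back-and-forth equivalent chains have the same theory
-/

set_option autoImplicit false

namespace Pool.Agent.SpecR

/-- the relation of the universes given by the graph `G` of a partial isomorphism -/
private inductive Rel {X C C' : Type} (G : Set (C × C')) :
    X ⊕ WithTop C → X ⊕ WithTop C' → Prop
  | inl (x : X) : Rel G (.inl x) (.inl x)
  | top : Rel G (.inr ⊤) (.inr ⊤)
  | coe {c : C} {c' : C'} : (c, c') ∈ G → Rel G (.inr (c : WithTop C)) (.inr (c' : WithTop C'))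

private theorem Rel.mono {X C C' : Type} {G G' : Set (C × C')} (h : G ⊆ G')
    {a : X ⊕ WithTop C} {b : X ⊕ WithTop C'} (hab : Rel G a b) : Rel G' a b := by
  cases hab with
  | inl x => exact Rel.inl x
  | top => exact Rel.top
  | coe hc => exact Rel.coe (h hc)

private theorem eq_iff_of {C C' : Type} [LinearOrder C] [LinearOrder C'] {G : Set (C × C')}
    (hG : ∀ p ∈ G, ∀ q ∈ G, (p.1 < q.1 ↔ p.2 < q.2)) {c d : C} {c' d' : C'}
    (hc : (c, c') ∈ G) (hd : (d, d') ∈ G) : c = d ↔ c' = d' := by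
  have h1 : c < d ↔ c' < d' := hG _ hc _ hd
  have h2 : d < c ↔ d' < c' := hG _ hd _ hc
  constructor
  · intro h
    subst h
    exact le_antisymm (not_lt.1 fun h => lt_irrefl _ (h2.2 h))
      (not_lt.1 fun h => lt_irrefl _ (h1.2 h))
  · intro h
    subst h
    exact le_antisymm (not_lt.1 fun h => lt_irrefl _ (h2.1 h))
      (not_lt.1 fun h => lt_irrefl _ (h1.1 h))

private theorem le_iff_of {C C' : Type} [LinearOrder C] [LinearOrder C'] {G : Set (C × C')}
    (hG : ∀ p ∈ G, ∀ q ∈ G, (p.1 < q.1 ↔ p.2 < q.2)) {c d : C} {c' d' : C'}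
    (hc : (c, c') ∈ G) (hd : (d, d') ∈ G) : c ≤ d ↔ c' ≤ d' := by
  have h2 : d < c ↔ d' < c' := hG _ hd _ hc
  rw [← not_lt, ← not_lt, h2]

private theorem Rel.eq_iff {X C C' : Type} [LinearOrder C] [LinearOrder C'] {G : Set (C × C')}
    (hG : ∀ p ∈ G, ∀ q ∈ G, (p.1 < q.1 ↔ p.2 < q.2))
    {a a' : X ⊕ WithTop C} {b b' : X ⊕ WithTop C'} (h : Rel G a b) (h' : Rel G a' b') :
    a = a' ↔ b = b' := by
  cases h with
  | inl x =>
    cases h' with
    | inl y => simp
    | top => simp
    | coe hd => simp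
  | top =>
    cases h' with
    | inl y => simp
    | top => simp
    | coe hd => simp
  | coe hc =>
    cases h' with
    | inl y => simp
    | top => simp
    | coe hd => simpa using eq_iff_of hG hc hd

private theorem Rel.sup {D : LStr} {C C' : Type} [LinearOrder C] [LinearOrder C']
    {G : Set (C × C')} (hG : ∀ p ∈ G, ∀ q ∈ G, (p.1 < q.1 ↔ p.2 < q.2))
    {a a' : D.carrier ⊕ WithTop C} {b b' : D.carrier ⊕ WithTop C'}
    (h : Rel G a b) (h' : Rel G a' b') :
    Rel G ((ordSum D C).sup a a') ((ordSum D C').sup b b') := by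
  cases h with
  | inl x =>
    cases h' with
    | inl y => exact Rel.inl _
    | top => exact Rel.top
    | coe hd => exact Rel.coe hd
  | top =>
    cases h' with
    | inl y => exact Rel.top
    | top =>
      show Rel G (.inr (max ⊤ ⊤)) (.inr (max ⊤ ⊤))
      rw [max_self, max_self]
      exact Rel.top
    | @coe d d' hd =>
      show Rel G (.inr (max ⊤ (d : WithTop C))) (.inr (max ⊤ (d' : WithTop C')))
      rw [max_eq_left le_top, max_eq_left le_top]
      exact Rel.top
  | @coe c c' hc =>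
    cases h' with
    | inl y => exact Rel.coe hc
    | top =>
      show Rel G (.inr (max (c : WithTop C) ⊤)) (.inr (max (c' : WithTop C') ⊤))
      rw [max_eq_right le_top, max_eq_right le_top]
      exact Rel.top
    | @coe d d' hd =>
      show Rel G (.inr (max (c : WithTop C) (d : WithTop C)))
        (.inr (max (c' : WithTop C') (d' : WithTop C')))
      rcases le_total c d with h | h
      · have h' := (le_iff_of hG hc hd).1 h
        rw [max_eq_right (WithTop.coe_le_coe.2 h), max_eq_right (WithTop.coe_le_coe.2 h')]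
        exact Rel.coe hd
      · have h' := (le_iff_of hG hd hc).1 h
        rw [max_eq_left (WithTop.coe_le_coe.2 h), max_eq_left (WithTop.coe_le_coe.2 h')]
        exact Rel.coe hc

private theorem Rel.inf {D : LStr} {C C' : Type} [LinearOrder C] [LinearOrder C']
    {G : Set (C × C')} (hG : ∀ p ∈ G, ∀ q ∈ G, (p.1 < q.1 ↔ p.2 < q.2))
    {a a' : D.carrier ⊕ WithTop C} {b b' : D.carrier ⊕ WithTop C'}
    (h : Rel G a b) (h' : Rel G a' b') :
    Rel G ((ordSum D C).inf a a') ((ordSum D C').inf b b') := by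
  cases h with
  | inl x =>
    cases h' with
    | inl y => exact Rel.inl _
    | top => exact Rel.inl _
    | coe hd => exact Rel.inl _
  | top =>
    cases h' with
    | inl y => exact Rel.inl _
    | top =>
      show Rel G (.inr (min ⊤ ⊤)) (.inr (min ⊤ ⊤))
      rw [min_self, min_self]
      exact Rel.top
    | @coe d d' hd =>
      show Rel G (.inr (min ⊤ (d : WithTop C))) (.inr (min ⊤ (d' : WithTop C')))
      rw [min_eq_right le_top, min_eq_right le_top]
      exact Rel.coe hd
  | @coe c c' hc =>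
    cases h' with
    | inl y => exact Rel.inl _
    | top =>
      show Rel G (.inr (min (c : WithTop C) ⊤)) (.inr (min (c' : WithTop C') ⊤))
      rw [min_eq_left le_top, min_eq_left le_top]
      exact Rel.coe hc
    | @coe d d' hd =>
      show Rel G (.inr (min (c : WithTop C) (d : WithTop C)))
        (.inr (min (c' : WithTop C') (d' : WithTop C')))
      rcases le_total c d with h | h
      · have h' := (le_iff_of hG hc hd).1 h
        rw [min_eq_left (WithTop.coe_le_coe.2 h), min_eq_left (WithTop.coe_le_coe.2 h')]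
        exact Rel.coe hc
      · have h' := (le_iff_of hG hd hc).1 h
        rw [min_eq_right (WithTop.coe_le_coe.2 h), min_eq_right (WithTop.coe_le_coe.2 h')]
        exact Rel.coe hd

private theorem Rel.val {D : LStr} {C C' : Type} [LinearOrder C] [LinearOrder C']
    {G : Set (C × C')} (hG : ∀ p ∈ G, ∀ q ∈ G, (p.1 < q.1 ↔ p.2 < q.2))
    {v : ℕ → (ordSum D C).carrier} {w : ℕ → (ordSum D C').carrier}
    (h : ∀ n, Rel (X := D.carrier) G (v n) (w n)) (t : Tm) :
    Rel (X := D.carrier) G (t.val (ordSum D C) v) (t.val (ordSum D C') w) := by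
  induction t with
  | var n => exact h n
  | zero => exact Rel.inl _
  | one => exact Rel.top
  | sup s t hs ht => exact Rel.sup hG hs ht
  | inf s t hs ht => exact Rel.inf hG hs ht

private theorem countable_aux {X C : Type} (v : ℕ → X ⊕ WithTop C) :
    {c : C | ∃ n, v n = .inr (c : WithTop C)}.Countable := by
  have h : {c : C | ∃ n, v n = .inr (c : WithTop C)} =
      ⋃ n, {c : C | v n = .inr (c : WithTop C)} := by
    ext c
    simp
  rw [h]
  refine Set.countable_iUnion fun n => Set.Subsingleton.countable ?_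
  intro c hc d hd
  have h1 : (Sum.inr (c : WithTop C) : X ⊕ WithTop C) = .inr (d : WithTop C) := by
    rw [← (show v n = _ from hc), ← (show v n = _ from hd)]
  exact WithTop.coe_injective (Sum.inr_injective h1)

/-- the extension step, forth -/
private theorem forth {X C C' : Type} {I : Set (Set (C × C'))}
    (hI : ∀ G ∈ I, ∀ S : Set C, S.Countable → ∃ G' ∈ I, G ⊆ G' ∧ ∀ x ∈ S, ∃ y, (x, y) ∈ G')
    {G : Set (C × C')} (hG : G ∈ I) (S : Set ℕ) (v : ℕ → X ⊕ WithTop C)
    (w : ℕ → X ⊕ WithTop C') (h : ∀ n, n ∉ S → Rel G (v n) (w n)) :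
    ∃ G' ∈ I, ∃ w' : ℕ → X ⊕ WithTop C', (∀ n, n ∉ S → w' n = w n) ∧
      ∀ n, Rel G' (v n) (w' n) := by
  obtain ⟨G', hG', hsub, hS⟩ := hI G hG _ (countable_aux v)
  have key : ∀ n, ∃ b : X ⊕ WithTop C', (n ∉ S → b = w n) ∧ Rel G' (v n) b := by
    intro n
    by_cases hn : n ∈ S
    · rcases hv : v n with x | l
      · exact ⟨.inl x, fun h => absurd hn h, Rel.inl x⟩
      · rcases hl : l with _ | c
        · exact ⟨.inr ⊤, fun h => absurd hn h, Rel.top⟩
        · subst hl
          obtain ⟨y, hy⟩ := hS c ⟨n, hv⟩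
          exact ⟨.inr (y : WithTop C'), fun h => absurd hn h, Rel.coe hy⟩
    · exact ⟨w n, fun _ => rfl, (h n hn).mono hsub⟩
  choose w' hw1 hw2 using key
  exact ⟨G', hG', w', hw1, hw2⟩

/-- the extension step, back -/
private theorem back {X C C' : Type} {I : Set (Set (C × C'))}
    (hI : ∀ G ∈ I, ∀ S : Set C', S.Countable → ∃ G' ∈ I, G ⊆ G' ∧ ∀ y ∈ S, ∃ x, (x, y) ∈ G')
    {G : Set (C × C')} (hG : G ∈ I) (S : Set ℕ) (v : ℕ → X ⊕ WithTop C)
    (w : ℕ → X ⊕ WithTop C') (h : ∀ n, n ∉ S → Rel G (v n) (w n)) :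
    ∃ G' ∈ I, ∃ v' : ℕ → X ⊕ WithTop C, (∀ n, n ∉ S → v' n = v n) ∧
      ∀ n, Rel G' (v' n) (w n) := by
  obtain ⟨G', hG', hsub, hS⟩ := hI G hG _ (countable_aux w)
  have key : ∀ n, ∃ b : X ⊕ WithTop C, (n ∉ S → b = v n) ∧ Rel G' b (w n) := by
    intro n
    by_cases hn : n ∈ S
    · rcases hv : w n with x | l
      · exact ⟨.inl x, fun h => absurd hn h, Rel.inl x⟩
      · rcases hl : l with _ | c
        · exact ⟨.inr ⊤, fun h => absurd hn h, Rel.top⟩
        · subst hl
          obtain ⟨y, hy⟩ := hS c ⟨n, hv⟩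
          exact ⟨.inr (y : WithTop C), fun h => absurd hn h, Rel.coe hy⟩
    · exact ⟨v n, fun _ => rfl, (h n hn).mono hsub⟩
  choose v' hv1 hv2 using key
  exact ⟨G', hG', v', hv1, hv2⟩

private theorem sat_iff (D : LStr) {C C' : Type} [LinearOrder C] [LinearOrder C']
    {I : Set (Set (C × C'))}
    (h1 : ∀ G ∈ I, ∀ p ∈ G, ∀ q ∈ G, (p.1 < q.1 ↔ p.2 < q.2))
    (h2 : ∀ G ∈ I, ∀ S : Set C, S.Countable → ∃ G' ∈ I, G ⊆ G' ∧ ∀ x ∈ S, ∃ y, (x, y) ∈ G')
    (h3 : ∀ G ∈ I, ∀ S : Set C', S.Countable → ∃ G' ∈ I, G ⊆ G' ∧ ∀ y ∈ S, ∃ x, (x, y) ∈ G')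
    (φ : Fml) : ∀ G ∈ I, ∀ (v : ℕ → (ordSum D C).carrier) (w : ℕ → (ordSum D C').carrier),
      (∀ n, Rel (X := D.carrier) G (v n) (w n)) →
      (Sat (ordSum D C) φ v ↔ Sat (ordSum D C') φ w) := by
  induction φ with
  | eq s t =>
    intro G hG v w h
    exact Rel.eq_iff (h1 G hG) (Rel.val (h1 G hG) h s) (Rel.val (h1 G hG) h t)
  | neg φ ih =>
    intro G hG v w h
    exact not_congr (ih G hG v w h)
  | conj f ih =>
    intro G hG v w h
    exact forall_congr' fun n => ih n G hG v w h
  | all S φ ih =>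
    intro G hG v w h
    constructor
    · intro H w' hw'
      have h' : ∀ n, n ∉ S → Rel (X := D.carrier) G (v n) (w' n) := by
        intro n hn
        rw [hw' n hn]
        exact h n
      obtain ⟨G', hG', v', hv', hr⟩ := back h3 hG S v w' h'
      exact (ih G' hG' v' w' hr).1 (H v' hv')
    · intro H v' hv'
      have h' : ∀ n, n ∉ S → Rel (X := D.carrier) G (v' n) (w n) := by
        intro n hn
        rw [hv' n hn]
        exact h n
      obtain ⟨G', hG', w', hw', hr⟩ := forth h2 hG S v' w h'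
      exact (ih G' hG' v' w' hr).2 (H w' hw')

theorem models_iff (D : LStr) {C C' : Type} [LinearOrder C] [LinearOrder C'] (h : BF C C')
    (φ : Fml) : Models (ordSum D C) φ ↔ Models (ordSum D C') φ := by
  obtain ⟨I, ⟨G, hG⟩, h1, h2, h3⟩ := h
  constructor
  · intro H w
    obtain ⟨G', hG', v, -, hr⟩ := back (X := D.carrier) h3 hG Set.univ (fun _ => .inr ⊤) w
      fun n hn => absurd (Set.mem_univ n) hn
    exact (sat_iff D h1 h2 h3 φ G' hG' v w hr).1 (H v)
  · intro H v
    obtain ⟨G', hG', w, -, hr⟩ := forth (X := D.carrier) h2 hG Set.univ v (fun _ => .inr ⊤)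
      fun n hn => absurd (Set.mem_univ n) hn
    exact (sat_iff D h1 h2 h3 φ G' hG' v w hr).2 (H w)

end Pool.Agent.SpecR
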