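import Pool.Agent.SpecR.Defs

/-!
# SR12: linear orders without sequences of length `ω₁`, the ultrametric argument
-/

set_option autoImplicit false

namespace Pool.Agent.SpecR

private lemma short_Iio_countable (a : Om) : (Set.Iio a).Countable := by
  have h : Cardinal.mk (Set.Iio a) < Cardinal.aleph 1 := by
    have key : ∀ o : Ordinal.{0}, o = (Cardinal.aleph 1).ord → ∀ a : o.ToType,
        Cardinal.mk (Set.Iio a) < Cardinal.aleph 1 := by
      rintro o rfl a
      exact Cardinal.mk_Iio_toType_ord_lt a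
    exact key _ (Cardinal.ord_aleph 1).symm a
  rw [← Cardinal.le_aleph0_iff_set_countable, ← Order.lt_succ_iff, Cardinal.succ_aleph0]
  exact h

private lemma short_Iic_countable (a : Om) : (Set.Iic a).Countable := by
  have : Set.Iic a = Set.Iio a ∪ {a} := by
    ext x
    simp [le_iff_lt_or_eq]
  rw [this]
  exact (short_Iio_countable a).union (Set.countable_singleton a)

private lemma short_bdd (S : Set Om) (hS : S.Countable) : ∃ b, ∀ a ∈ S, a < b := by
  by_contra h
  push Not at h
  have h1 : (Set.univ : Set Om) ⊆ ⋃ a ∈ S, Set.Iic a := by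
    intro b _
    obtain ⟨a, ha, hab⟩ := h b
    exact Set.mem_biUnion ha hab
  have h2 : (Set.univ : Set Om).Countable :=
    (hS.biUnion fun a _ => short_Iic_countable a).mono h1
  have h3 : Cardinal.mk Om ≤ Cardinal.aleph0 := by
    rw [← Cardinal.mk_univ]
    exact Cardinal.le_aleph0_iff_set_countable.2 h2
  have h4 : Cardinal.mk Om = Cardinal.aleph 1 := by
    rw [Cardinal.mk_toType, Ordinal.card_omega]
  rw [h4] at h3
  exact absurd h3 (not_le.2 Cardinal.aleph0_lt_aleph_one)

private lemma short_rec (Q : Set Om → Om → Prop) (h : ∀ S : Set Om, S.Countable → ∃ b, Q S b) :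
    ∃ g : Om → Om, ∀ a, Q (g '' Set.Iio a) (g a) := by
  classical
  let F : (a : Om) → ((b : Om) → b < a → Om) → Om := fun a IH =>
    Classical.choose (h (Set.range fun b : Set.Iio a => IH b.1 b.2) (by
      have := (short_Iio_countable a).to_subtype
      exact Set.countable_range _))
  let g : Om → Om := (wellFounded_lt (α := Om)).fix F
  refine ⟨g, fun a => ?_⟩
  have hg : g a = F a fun b _ => g b := (wellFounded_lt (α := Om)).fix_eq F a
  have hs : (Set.range fun b : Set.Iio a => g b.1) = g '' Set.Iio a := by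
    ext x
    simp
  rw [hg, ← hs]
  exact Classical.choose_spec (h (Set.range fun b : Set.Iio a => g b.1) (by
      have := (short_Iio_countable a).to_subtype
      exact Set.countable_range _))

private lemma short_lt (a : Om) : ∃ b, a < b := by
  obtain ⟨b, hb⟩ := short_bdd {a} (Set.countable_singleton a)
  exact ⟨b, hb a rfl⟩

private lemma short_const_set {α : Type} [Countable α] (s : Om → Set α) (hs : Monotone s) :
    ∃ a, ∀ b, a ≤ b → s b = s a := by
  classical
  have h : ∀ x : α, ∃ a, ∀ b, x ∈ s b → x ∈ s a := by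
    intro x
    by_cases hx : ∃ b, x ∈ s b
    · obtain ⟨b, hb⟩ := hx
      exact ⟨b, fun _ _ => hb⟩
    · obtain ⟨a⟩ : Nonempty Om := by
        obtain ⟨b, _⟩ := short_bdd ∅ Set.countable_empty
        exact ⟨b⟩
      exact ⟨a, fun b hb => absurd ⟨b, hb⟩ hx⟩
  choose A hA using h
  obtain ⟨a, ha⟩ := short_bdd (Set.range A) (Set.countable_range A)
  refine ⟨a, fun b hb => le_antisymm ?_ (hs hb)⟩
  intro x hx
  exact hs (ha (A x) ⟨x, rfl⟩).le (hA x b hx)

theorem short_withBot {C : Type} [LinearOrder C] (h : Short C) : Short (WithBot C) := by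
  refine ⟨fun f hf => ?_, fun f hf => ?_⟩
  · obtain ⟨g, hg⟩ := short_rec (fun S b => (∀ s ∈ S, s < b) ∧ f b ≠ ⊥) (by
      intro S hS
      obtain ⟨b0, hb0⟩ := short_bdd S hS
      obtain ⟨b1, hb1⟩ := short_lt b0
      exact ⟨b1, fun s hs => (hb0 s hs).trans hb1, (bot_le.trans_lt (hf hb1)).ne'⟩)
    refine h.1 (fun a => (f (g a)).unbot (hg a).2) ?_
    intro a b hab
    have h1 : g a < g b := (hg b).1 _ ⟨a, hab, rfl⟩
    have h2 := hf h1
    rw [← WithBot.coe_lt_coe, WithBot.coe_unbot, WithBot.coe_unbot]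
    exact h2
  · have h0 : ∀ a, f a ≠ ⊥ := by
      intro a
      obtain ⟨b, hb⟩ := short_lt a
      exact (bot_le.trans_lt (hf hb)).ne'
    refine h.2 (fun a => (f a).unbot (h0 a)) ?_
    intro a b hab
    have h2 := hf hab
    rw [← WithBot.coe_lt_coe, WithBot.coe_unbot, WithBot.coe_unbot]
    exact h2

theorem short_withTop {C : Type} [LinearOrder C] (h : Short C) : Short (WithTop C) := by
  refine ⟨fun f hf => ?_, fun f hf => ?_⟩
  · have h0 : ∀ a, f a ≠ ⊤ := by
      intro a
      obtain ⟨b, hb⟩ := short_lt a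
      exact ((hf hb).trans_le le_top).ne
    refine h.1 (fun a => (f a).untop (h0 a)) ?_
    intro a b hab
    have h2 := hf hab
    rw [← WithTop.coe_lt_coe, WithTop.coe_untop, WithTop.coe_untop]
    exact h2
  · obtain ⟨g, hg⟩ := short_rec (fun S b => (∀ s ∈ S, s < b) ∧ f b ≠ ⊤) (by
      intro S hS
      obtain ⟨b0, hb0⟩ := short_bdd S hS
      obtain ⟨b1, hb1⟩ := short_lt b0
      exact ⟨b1, fun s hs => (hb0 s hs).trans hb1, ((hf hb1).trans_le le_top).ne⟩)
    refine h.2 (fun a => (f (g a)).untop (hg a).2) ?_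
    intro a b hab
    have h1 : g a < g b := (hg b).1 _ ⟨a, hab, rfl⟩
    have h2 := hf h1
    rw [← WithTop.coe_lt_coe, WithTop.coe_untop, WithTop.coe_untop]
    exact h2

theorem eventually_const {C : Type} [LinearOrder C] (h : Short C) (f : Om → C)
    (hf : Monotone f ∨ Antitone f) : ∃ a, ∀ b, a ≤ b → f b = f a := by
  by_contra hc
  push Not at hc
  rcases hf with hf | hf
  · obtain ⟨g, hg⟩ := short_rec (fun S b => ∀ s ∈ S, f s < f b) (by
      intro S hS
      obtain ⟨a, ha⟩ := short_bdd S hS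
      obtain ⟨b, hab, hb⟩ := hc a
      exact ⟨b, fun s hs => (hf (ha s hs).le).trans_lt (lt_of_le_of_ne (hf hab) (Ne.symm hb))⟩)
    exact h.1 (fun a => f (g a)) fun a b hab => hg b _ ⟨a, hab, rfl⟩
  · obtain ⟨g, hg⟩ := short_rec (fun S b => ∀ s ∈ S, f b < f s) (by
      intro S hS
      obtain ⟨a, ha⟩ := short_bdd S hS
      obtain ⟨b, hab, hb⟩ := hc a
      exact ⟨b, fun s hs => (lt_of_le_of_ne (hf hab) hb).trans_le (hf (ha s hs).le)⟩)
    exact h.2 (fun a => f (g a)) fun a b hab => hg b _ ⟨a, hab, rfl⟩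

private lemma ultrametric_aux {G Δ : Type} [AddCommGroup G] [LinearOrder G]
    [IsOrderedAddMonoid G] [LinearOrder Δ] (hΔ : Short Δ) (v : G → Δ)
    (hv : ∀ a b, 0 < a → 0 < b → v (a + b) = min (v a) (v b))
    (hs : ∀ (δ : Δ) (c : G), ∃ s : G → Set ℕ,
      (∀ a b, c ≤ a → a ≤ b → (b = c ∨ δ ≤ v (b - c)) → s a ⊆ s b) ∧
      ∀ a b, c ≤ a → a < b → (b = c ∨ δ ≤ v (b - c)) → v (b - a) = δ → s a ≠ s b)
    (f : Om → G) (hf : StrictMono f) : False := by
  have hc : ∀ x y z, x < y → y < z → v (f z - f x) = min (v (f y - f x)) (v (f z - f y)) := by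
    intro x y z hxy hyz
    rw [← hv _ _ (sub_pos.2 (hf hxy)) (sub_pos.2 (hf hyz))]
    congr 1
    abel
  have hanti : ∀ x y z, x < y → y ≤ z → v (f z - f x) ≤ v (f y - f x) := by
    intro x y z hxy hyz
    rcases hyz.eq_or_lt with rfl | hyz
    · exact le_rfl
    · rw [hc x y z hxy hyz]
      exact min_le_left _ _
  have h1 : ∀ x, ∃ (N : Om) (d : Δ), x < N ∧ ∀ y, N ≤ y → v (f y - f x) = d := by
    intro x
    obtain ⟨x1, hx1⟩ := short_lt x
    obtain ⟨a, ha⟩ := eventually_const hΔ (fun y => v (f (max y x1) - f x)) (Or.inr (by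
      intro y y' hyy
      exact hanti x (max y x1) (max y' x1) (hx1.trans_le (le_max_right _ _))
        (max_le_max hyy le_rfl)))
    refine ⟨max a x1, v (f (max a x1) - f x), hx1.trans_le (le_max_right _ _), fun y hy => ?_⟩
    have h2 : v (f (max y x1) - f x) = v (f (max a x1) - f x) := ha y ((le_max_left _ _).trans hy)
    rwa [max_eq_left ((le_max_right _ _).trans hy)] at h2
  choose N d hN hd using h1
  have hmono : Monotone d := by
    intro x y hxy
    rcases hxy.eq_or_lt with rfl | hxy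
    · exact le_rfl
    · have hz1 := hd x (max (N x) (N y)) (le_max_left _ _)
      have hz2 := hd y (max (N x) (N y)) (le_max_right _ _)
      rw [hc x y _ hxy ((hN y).trans_le (le_max_right _ _)), hz2] at hz1
      rw [← hz1]
      exact min_le_right _ _
  obtain ⟨x0, hx0⟩ := eventually_const hΔ d (Or.inl hmono)
  obtain ⟨s, hs1, hs2⟩ := hs (d x0) (f x0)
  have hcond : ∀ y, x0 ≤ y → f y = f x0 ∨ d x0 ≤ v (f y - f x0) := by
    intro y hy
    rcases hy.eq_or_lt with rfl | hy
    · exact Or.inl rfl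
    · refine Or.inr ?_
      have := hanti x0 y (max y (N x0)) hy (le_max_left _ _)
      rwa [hd x0 _ (le_max_right _ _)] at this
  obtain ⟨a, ha⟩ := short_const_set (fun x => s (f (max x x0))) (by
    intro x y hxy
    exact hs1 _ _ (hf.monotone (le_max_right _ _)) (hf.monotone (max_le_max hxy le_rfl))
      (hcond _ (le_max_right _ _)))
  have hx : x0 ≤ max a x0 := le_max_right _ _
  have hy : max a x0 < N (max a x0) := hN _
  have h2 : s (f (N (max a x0))) = s (f (max a x0)) := by
    have h3 : s (f (max (N (max a x0)) x0)) = s (f (max a x0)) :=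
      ha (N (max a x0)) ((le_max_left a x0).trans hy.le)
    rwa [max_eq_left (hx.trans hy.le)] at h3
  refine hs2 (f (max a x0)) (f (N (max a x0))) (hf.monotone hx) (hf hy)
    (hcond _ (hx.trans hy.le)) ?_ h2.symm
  rw [hd _ _ le_rfl, hx0 _ hx]

/-- the ultrametric argument -/
theorem ultrametric {G Δ : Type} [AddCommGroup G] [LinearOrder G] [IsOrderedAddMonoid G]
    [LinearOrder Δ] (hΔ : Short Δ) (v : G → Δ)
    (hv : ∀ a b, 0 < a → 0 < b → v (a + b) = min (v a) (v b))
    (hs : ∀ (δ : Δ) (c : G), ∃ s : G → Set ℕ,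
      (∀ a b, c ≤ a → a ≤ b → (b = c ∨ δ ≤ v (b - c)) → s a ⊆ s b) ∧
      ∀ a b, c ≤ a → a < b → (b = c ∨ δ ≤ v (b - c)) → v (b - a) = δ → s a ≠ s b) :
    Short G := by
  refine ⟨fun f hf => ultrametric_aux hΔ v hv hs f hf, fun f hf => ?_⟩
  exact ultrametric_aux hΔ v hv hs (fun a => - f a) fun a b hab => neg_lt_neg (hf hab)

end Pool.Agent.SpecR
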