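import Pool.Agent.SpecR.Short

/-!
# Short orders: the lexicographic order (SR13)
-/

set_option autoImplicit false

namespace Pool.Agent.SpecR

variable {Λ : Type} [LinearOrder Λ]

/-- the coefficients -/
private def slcf (g : Lex (Λ →₀ ℚ)) (i : Λ) : ℚ := ofLex g i

omit [LinearOrder Λ] in
private theorem slcf_sub (a b : Lex (Λ →₀ ℚ)) (i : Λ) : slcf (a - b) i = slcf a i - slcf b i := rfl

omit [LinearOrder Λ] in
private theorem slcf_add (a b : Lex (Λ →₀ ℚ)) (i : Λ) : slcf (a + b) i = slcf a i + slcf b i := rfl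

omit [LinearOrder Λ] in
private theorem slcf_zero (i : Λ) : slcf (0 : Lex (Λ →₀ ℚ)) i = 0 := rfl

private theorem sl_lt_iff (a b : Lex (Λ →₀ ℚ)) :
    a < b ↔ ∃ i, (∀ j, j < i → slcf a j = slcf b j) ∧ slcf a i < slcf b i := Iff.rfl

/-- the smallest index of the support -/
private def slv (g : Lex (Λ →₀ ℚ)) : WithTop Λ := (ofLex g).support.min

private theorem slv_eq (g : Lex (Λ →₀ ℚ)) (i : Λ) (h1 : ∀ j, j < i → slcf g j = 0)
    (h2 : slcf g i ≠ 0) : slv g = i := by
  refine le_antisymm (Finset.min_le (Finsupp.mem_support_iff.2 h2)) (Finset.le_min fun j hj => ?_)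
  rw [WithTop.coe_le_coe]
  by_contra h3
  exact (Finsupp.mem_support_iff.1 hj) (h1 j (not_le.1 h3))

private theorem slv_ge (g : Lex (Λ →₀ ℚ)) (i : Λ) (h : (i : WithTop Λ) ≤ slv g) (j : Λ)
    (hj : j < i) : slcf g j = 0 := by
  by_contra h1
  have h2 : slv g ≤ j := Finset.min_le (Finsupp.mem_support_iff.2 h1)
  have h3 := h.trans h2
  rw [WithTop.coe_le_coe] at h3
  exact absurd hj (not_lt.2 h3)

private theorem slv_top (g : Lex (Λ →₀ ℚ)) (h : slv g = ⊤) (j : Λ) : slcf g j = 0 := by
  by_contra h1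
  have h2 : slv g ≤ j := Finset.min_le (Finsupp.mem_support_iff.2 h1)
  rw [h] at h2
  exact WithTop.coe_ne_top (top_le_iff.1 h2)

private theorem sl_pos (g : Lex (Λ →₀ ℚ)) (h : 0 < g) :
    ∃ i : Λ, slv g = i ∧ (∀ j, j < i → slcf g j = 0) ∧ 0 < slcf g i := by
  obtain ⟨i, h1, h2⟩ := (sl_lt_iff 0 g).1 h
  rw [slcf_zero] at h2
  have h3 : ∀ j, j < i → slcf g j = 0 := fun j hj => (h1 j hj).symm
  exact ⟨i, slv_eq g i h3 h2.ne', h3, h2⟩

private theorem sl_between (x y : Lex (Λ →₀ ℚ)) (l : Λ) (hx : 0 ≤ x) (hxy : x ≤ y)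
    (hy : ∀ j, j < l → slcf y j = 0) : slcf x l ≤ slcf y l := by
  have h1 : ∀ j, j < l → slcf x j = 0 := by
    intro j hj
    by_contra h2
    have h3 : 0 < x := by
      refine lt_of_le_of_ne hx fun h3 => h2 ?_
      rw [← h3, slcf_zero]
    obtain ⟨i, _, h4, h5⟩ := sl_pos x h3
    have h6 : i ≤ j := by
      by_contra h7
      exact h2 (h4 j (not_le.1 h7))
    have h7 : i < l := lt_of_le_of_lt h6 hj
    refine absurd hxy (not_le.2 ((sl_lt_iff y x).2 ⟨i, fun k hk => ?_, ?_⟩))
    · rw [hy k (hk.trans h7), h4 k hk]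
    · rw [hy i h7]
      exact h5
  rcases hxy.eq_or_lt with h2 | h2
  · rw [h2]
  · obtain ⟨k, h3, h4⟩ := (sl_lt_iff x y).1 h2
    rcases lt_trichotomy k l with h5 | h5 | h5
    · rw [h1 k h5, hy k h5] at h4
      exact absurd h4 (lt_irrefl _)
    · rw [h5] at h4
      exact h4.le
    · exact (h3 l h5).le

theorem short_lex {Λ : Type} [LinearOrder Λ] (h : Short Λ) : Short (Lex (Λ →₀ ℚ)) := by
  refine ultrametric (short_withTop h) slv ?_ ?_
  · intro a b ha hb
    obtain ⟨i, h1, h2, h3⟩ := sl_pos a ha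
    obtain ⟨k, h4, h5, h6⟩ := sl_pos b hb
    rw [h1, h4]
    rcases lt_trichotomy i k with h7 | h7 | h7
    · rw [min_eq_left (WithTop.coe_le_coe.2 h7.le)]
      refine slv_eq _ _ (fun j hj => ?_) ?_
      · rw [slcf_add, h2 j hj, h5 j (hj.trans h7), add_zero]
      · rw [slcf_add, h5 i h7, add_zero]
        exact h3.ne'
    · subst h7
      rw [min_self]
      refine slv_eq _ _ (fun j hj => ?_) ?_
      · rw [slcf_add, h2 j hj, h5 j hj, add_zero]
      · rw [slcf_add]
        exact (add_pos h3 h6).ne'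
    · rw [min_eq_right (WithTop.coe_le_coe.2 h7.le)]
      refine slv_eq _ _ (fun j hj => ?_) ?_
      · rw [slcf_add, h2 j (hj.trans h7), h5 j hj, add_zero]
      · rw [slcf_add, h2 k h7, zero_add]
        exact h6.ne'
  · intro δ c
    induction δ using WithTop.recTopCoe with
    | top =>
      refine ⟨fun _ => ∅, fun _ _ _ _ _ => subset_rfl, fun a b _ hab _ hv => ?_⟩
      exfalso
      refine absurd hab (not_lt.2 (le_of_eq ?_))
      have h1 : b - a = 0 := by
        apply ofLex.injective
        ext j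
        exact slv_top _ hv j
      exact sub_eq_zero.1 h1
    | coe l =>
      refine ⟨fun a => Encodable.encode '' {q : ℚ | q < slcf (a - c) l}, ?_, ?_⟩
      · intro a b hca hab hb
        refine Set.image_mono fun q hq => ?_
        have hq' : q < slcf (a - c) l := hq
        refine lt_of_lt_of_le (b := slcf (a - c) l) hq' ?_
        rcases hb with hb | hb
        · have : a = b := le_antisymm hab (hb ▸ hca)
          rw [this]
        · exact sl_between _ _ l (sub_nonneg.2 hca) (sub_le_sub_right hab c) (slv_ge _ l hb)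
      · intro a b hca hab _ hv hs
        obtain ⟨i, h1, _, h3⟩ := sl_pos (b - a) (sub_pos.2 hab)
        rw [hv, WithTop.coe_inj] at h1
        rw [← h1, slcf_sub] at h3
        have h4 : Encodable.encode (slcf (a - c) l) ∈
            Encodable.encode '' {q : ℚ | q < slcf (b - c) l} := by
          refine ⟨_, ?_, rfl⟩
          change slcf (a - c) l < slcf (b - c) l
          rw [slcf_sub, slcf_sub]
          linarith
        have h5 : Encodable.encode (slcf (a - c) l) ∈
            Encodable.encode '' {q : ℚ | q < slcf (a - c) l} := by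
          have hs' : Encodable.encode '' {q : ℚ | q < slcf (a - c) l} =
            Encodable.encode '' {q : ℚ | q < slcf (b - c) l} := hs
          rw [hs']
          exact h4
        obtain ⟨q, h6, h7⟩ := h5
        have h8 : q < slcf (a - c) l := h6
        rw [Encodable.encode_injective h7] at h8
        exact lt_irrefl _ h8

end Pool.Agent.SpecR
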