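import Pool.Agent.SpecR.Classes
import Pool.Agent.SpecR.Short
import Pool.Agent.SpecR.ShortLex

/-!
# SR14: ordered fields without sequences of length `ω₁`
-/

set_option autoImplicit false

namespace Pool.Agent.SpecR

private theorem short_of_strictMono {C C' : Type} [LinearOrder C] [LinearOrder C'] (h : Short C')
    (q : C → C') (hq : StrictMono q) : Short C :=
  ⟨fun f hf => h.1 (q ∘ f) (hq.comp hf), fun f hf => h.2 (q ∘ f) (hq.comp_strictAnti hf)⟩

private theorem mon_mul {K Λ : Type} [Field K] {t : Λ → K} (h0 : ∀ l, t l ≠ 0) (k k' : Λ →₀ ℤ) :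
    mon t (k + k') = mon t k * mon t k' := by
  unfold mon
  exact Finsupp.prod_add_index' (fun _ => zpow_zero _) fun l m n => zpow_add₀ (h0 l) m n

private theorem mon_neg {K Λ : Type} [Field K] {t : Λ → K} (h0 : ∀ l, t l ≠ 0) (k : Λ →₀ ℤ) :
    mon t (-k) = (mon t k)⁻¹ := by
  have h1 := mon_mul h0 k (-k)
  rw [add_neg_cancel] at h1
  have h2 : mon t (0 : Λ →₀ ℤ) = 1 := by
    unfold mon
    exact Finsupp.prod_zero_index
  rw [h2] at h1
  exact eq_inv_of_mul_eq_one_right h1.symm

private theorem mon_nsmul {K Λ : Type} [Field K] {t : Λ → K} (h0 : ∀ l, t l ≠ 0) (k : Λ →₀ ℤ)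
    (n : ℕ) : mon t (n • k) = mon t k ^ n := by
  induction n with
  | zero =>
    rw [zero_smul, pow_zero]
    unfold mon
    exact Finsupp.prod_zero_index
  | succ n ih => rw [succ_nsmul, mon_mul h0, ih, pow_succ]

private theorem infl_class {R : Type} [Field R] [LinearOrder R] [IsStrictOrderedRing R] {x : R}
    (hx : Infl x) : 0 < ArchimedeanClass.mk x := by
  rw [← ArchimedeanClass.mk_one, ArchimedeanClass.mk_lt_mk]
  intro n
  rw [abs_of_pos hx.1, abs_one, nsmul_eq_mul]
  exact hx.2 n

/-- comparison of the exponents of monomials -/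
private theorem mon_lt {R Λ : Type} [Field R] [LinearOrder R] [IsStrictOrderedRing R]
    [LinearOrder Λ] {t : Λ → R} (ht : ∀ l, Infl (t l)) (hb : ∀ l m, l < m → Below (t l) (t m))
    (k k' : Λ →₀ ℤ) (h : ArchimedeanClass.mk (mon t k) < ArchimedeanClass.mk (mon t k')) :
    ∃ l, (∀ m, m < l → k m = k' m) ∧ k l < k' l := by
  have h0 : ∀ l, t l ≠ 0 := fun l => (ht l).1.ne'
  have hne : (k' - k).support.Nonempty := by
    rw [Finsupp.support_nonempty_iff]
    intro h1
    rw [sub_eq_zero.mp h1] at h
    exact lt_irrefl _ h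
  obtain ⟨l, hl, hmin⟩ := (k' - k).support.exists_min_image id hne
  have hz : ∀ m, m < l → (k' - k) m = 0 := by
    intro m hm
    by_contra h1
    exact absurd (hmin m (Finsupp.mem_support_iff.mpr h1)) (not_le.mpr hm)
  refine ⟨l, fun m hm => ?_, ?_⟩
  · have h1 := hz m hm
    rw [Finsupp.sub_apply] at h1
    omega
  · have hl' := Finsupp.mem_support_iff.mp hl
    by_contra h1
    have h2 : 0 < (-(k' - k)) l := by
      rw [Finsupp.neg_apply, Finsupp.sub_apply]
      rw [Finsupp.sub_apply] at hl'
      omega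
    have h3 := infl_class (infl_mon ht hb h2 fun m hm => by
      rw [Finsupp.neg_apply, hz m hm, neg_zero])
    have h4 : mon t k = mon t k' * mon t (-(k' - k)) := by
      rw [← mon_mul h0]
      congr 1
      abel
    rw [h4, ArchimedeanClass.mk_mul] at h
    have h5 : ArchimedeanClass.mk (mon t k') ≤
        ArchimedeanClass.mk (mon t k') + ArchimedeanClass.mk (mon t (-(k' - k))) :=
      le_add_of_nonneg_right h3.le
    exact absurd h (not_lt.mpr h5)

theorem short_class {R Λ : Type} [Field R] [LinearOrder R] [IsStrictOrderedRing R]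
    [LinearOrder Λ] (hΛ : Short Λ) {t : Λ → R} (ht : ∀ l, Infl (t l))
    (hb : ∀ l m, l < m → Below (t l) (t m))
    (h : ∀ x : R, x ≠ 0 → ∃ (d : ℕ) (k : Λ →₀ ℤ), 0 < d ∧
      ArchimedeanClass.mk (x ^ d) = ArchimedeanClass.mk (mon t k)) :
    Short (ArchimedeanClass R) := by
  classical
  have h0 : ∀ l, t l ≠ 0 := fun l => (ht l).1.ne'
  choose! d k hd hk using h
  -- the exponent
  set q : ArchimedeanClass R → WithTop (Lex (Λ →₀ ℚ)) := fun c =>
    if c = ⊤ then ⊤ else
      ((toLex ((d c.out : ℚ)⁻¹ • (k c.out).mapRange (fun z : ℤ => (z : ℚ)) Int.cast_zero) :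
        Lex (Λ →₀ ℚ)) : WithTop (Lex (Λ →₀ ℚ))) with hq
  refine short_of_strictMono (short_withTop (short_lex hΛ)) q fun c c' hcc => ?_
  have hc : c ≠ ⊤ := ne_top_of_lt hcc
  simp only [hq, if_neg hc]
  by_cases hc' : c' = ⊤
  · rw [if_pos hc']
    exact WithTop.coe_lt_top _
  rw [if_neg hc', WithTop.coe_lt_coe]
  have hx : ArchimedeanClass.mk c.out = c := ArchimedeanClass.mk_out c
  have hy : ArchimedeanClass.mk c'.out = c' := ArchimedeanClass.mk_out c'
  set x := c.out with hxdef
  set y := c'.out with hydef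
  have hx0 : x ≠ 0 := by
    intro h1
    rw [h1, ArchimedeanClass.mk_zero] at hx
    exact hc hx.symm
  have hy0 : y ≠ 0 := by
    intro h1
    rw [h1, ArchimedeanClass.mk_zero] at hy
    exact hc' hy.symm
  have hdx := hd x hx0
  have hdy := hd y hy0
  have h1 : ArchimedeanClass.mk (mon t (d y • k x)) < ArchimedeanClass.mk (mon t (d x • k y)) := by
    rw [mon_nsmul h0, mon_nsmul h0, ArchimedeanClass.mk_pow, ArchimedeanClass.mk_pow, ← hk x hx0,
      ← hk y hy0, ← ArchimedeanClass.mk_pow, ← ArchimedeanClass.mk_pow, ← pow_mul, ← pow_mul,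
      mul_comm (d y) (d x)]
    rw [ArchimedeanClass.mk_lt_mk]
    intro n
    rw [← hx, ← hy, ArchimedeanClass.mk_lt_mk] at hcc
    have hN : 0 < d x * d y := Nat.mul_pos hdx hdy
    rw [abs_pow, abs_pow, nsmul_eq_mul]
    have h2 := hcc (n + 1)
    rw [nsmul_eq_mul] at h2
    have h3 : (((n + 1 : ℕ) : R) * |y|) ^ (d x * d y) < |x| ^ (d x * d y) :=
      pow_lt_pow_left₀ h2 (by positivity) hN.ne'
    refine lt_of_le_of_lt ?_ h3
    rw [mul_pow]
    refine mul_le_mul_of_nonneg_right ?_ (by positivity)
    have h4 : (1 : R) ≤ ((n + 1 : ℕ) : R) := by exact_mod_cast Nat.succ_le_succ (Nat.zero_le n)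
    calc (n : R) ≤ ((n + 1 : ℕ) : R) := by exact_mod_cast Nat.le_succ n
      _ ≤ ((n + 1 : ℕ) : R) ^ (d x * d y) := le_self_pow₀ h4 hN.ne'
  obtain ⟨l, hl1, hl2⟩ := mon_lt ht hb _ _ h1
  have hdx' : (0 : ℚ) < d x := by exact_mod_cast hdx
  have hdy' : (0 : ℚ) < d y := by exact_mod_cast hdy
  rw [Finsupp.Lex.lt_iff]
  refine ⟨l, fun m hm => ?_, ?_⟩
  · have h2 := hl1 m hm
    rw [Finsupp.smul_apply, Finsupp.smul_apply, nsmul_eq_mul, nsmul_eq_mul] at h2
    have h3 : ((d y : ℚ)) * (k x m : ℚ) = (d x : ℚ) * (k y m : ℚ) := by exact_mod_cast h2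
    change (d x : ℚ)⁻¹ * (k x m : ℚ) = (d y : ℚ)⁻¹ * (k y m : ℚ)
    field_simp
    linarith
  · have h2 := hl2
    rw [Finsupp.smul_apply, Finsupp.smul_apply, nsmul_eq_mul, nsmul_eq_mul] at h2
    have h3 : ((d y : ℚ)) * (k x l : ℚ) < (d x : ℚ) * (k y l : ℚ) := by exact_mod_cast h2
    change (d x : ℚ)⁻¹ * (k x l : ℚ) < (d y : ℚ)⁻¹ * (k y l : ℚ)
    rw [inv_mul_eq_div, inv_mul_eq_div, div_lt_div_iff₀ hdx' hdy']
    linarith

theorem short_field {R : Type} [Field R] [LinearOrder R] [IsStrictOrderedRing R]
    (h : Short (ArchimedeanClass R)) : Short R := by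
  classical
  refine ultrametric h (fun x => ArchimedeanClass.mk x) ?_ ?_
  · intro a b ha hb
    apply le_antisymm
    · refine le_min ?_ ?_
      · rw [ArchimedeanClass.mk_le_mk]
        refine ⟨1, ?_⟩
        rw [abs_of_pos ha, abs_of_pos (add_pos ha hb), one_smul]
        linarith
      · rw [ArchimedeanClass.mk_le_mk]
        refine ⟨1, ?_⟩
        rw [abs_of_pos hb, abs_of_pos (add_pos ha hb), one_smul]
        linarith
    · exact ArchimedeanClass.min_le_mk_add a b
  · intro δ c
    by_cases hδ : ∃ g : R, 0 < g ∧ ArchimedeanClass.mk g = δ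
    · obtain ⟨g, hg, hgδ⟩ := hδ
      refine ⟨fun a => {n | ∃ q : ℚ, Encodable.encode q = n ∧ (q : R) * g < a - c}, ?_, ?_⟩
      · rintro a b - hab - n ⟨q, hq1, hq2⟩
        exact ⟨q, hq1, lt_of_lt_of_le hq2 (by linarith)⟩
      · intro a b hca hab hbc hv heq
        -- the upper bound
        obtain ⟨m, hm⟩ : ∃ m : ℕ, b - c ≤ m * g := by
          rcases hbc with hbc | hbc
          · exact ⟨0, by rw [hbc]; simp⟩
          · rw [← hgδ, ArchimedeanClass.mk_le_mk] at hbc
            obtain ⟨m, hm⟩ := hbc
            refine ⟨m, (le_abs_self _).trans ?_⟩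
            rwa [abs_of_pos hg, nsmul_eq_mul] at hm
        -- the lower bound for the difference
        obtain ⟨n, hn⟩ : ∃ n : ℕ, g ≤ n * (b - a) := by
          have h1 : ArchimedeanClass.mk (b - a) ≤ ArchimedeanClass.mk g := by
            rw [hgδ]
            exact hv.le
          rw [ArchimedeanClass.mk_le_mk] at h1
          obtain ⟨n, hn⟩ := h1
          refine ⟨n, ?_⟩
          rwa [abs_of_pos hg, abs_of_pos (sub_pos.mpr hab), nsmul_eq_mul] at hn
        have hn0 : 0 < n := by
          rcases Nat.eq_zero_or_pos n with h1 | h1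
          · rw [h1] at hn
            simp only [Nat.cast_zero, zero_mul] at hn
            exact absurd hg (not_lt.mpr hn)
          · exact h1
        have hnR : (0 : R) < n := by exact_mod_cast hn0
        -- the rational number
        have hex : ∃ j : ℕ, (a - c) * (2 * n) ≤ j * g := by
          refine ⟨m * (2 * n), ?_⟩
          push_cast
          have h1 : a - c ≤ m * g := by linarith
          calc (a - c) * (2 * n) ≤ (m * g) * (2 * n) :=
                mul_le_mul_of_nonneg_right h1 (by positivity)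
            _ = _ := by ring
        set j := Nat.find hex with hj
        have hj1 : (a - c) * (2 * n) ≤ j * g := Nat.find_spec hex
        have hj2 : (j : R) * g < (b - c) * (2 * n) := by
          rcases Nat.eq_zero_or_pos j with h1 | h1
          · rw [h1]
            simp only [Nat.cast_zero, zero_mul]
            have : 0 < b - c := by linarith
            positivity
          · have h2 : ¬ ((a - c) * (2 * n) ≤ ((j - 1 : ℕ) : R) * g) :=
              Nat.find_min hex (by omega)
            push Not at h2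
            have h3 : ((j - 1 : ℕ) : R) = (j : R) - 1 := by
              rw [Nat.cast_sub h1, Nat.cast_one]
            rw [h3] at h2
            have h4 : (b - c) * (2 * n) = (a - c) * (2 * n) + 2 * (n * (b - a)) := by ring
            rw [h4]
            have h5 : ((j : R) - 1) * g = j * g - g := by ring
            rw [h5] at h2
            linarith
        set q : ℚ := (j : ℚ) / (2 * n) with hq
        have hqR : (q : R) * (2 * n) = j := by
          rw [hq]
          push_cast
          field_simp
        have hqb : (q : R) * g < b - c := by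
          have h1 : ((q : R) * g) * (2 * n) < (b - c) * (2 * n) := by
            calc ((q : R) * g) * (2 * n) = ((q : R) * (2 * n)) * g := by ring
              _ = j * g := by rw [hqR]
              _ < _ := hj2
          exact lt_of_mul_lt_mul_right h1 (by positivity)
        have hqa : ¬ ((q : R) * g < a - c) := by
          intro h2
          have h1 : ((q : R) * g) * (2 * n) < (a - c) * (2 * n) :=
            mul_lt_mul_of_pos_right h2 (by positivity)
          have h3 : ((q : R) * g) * (2 * n) = j * g := by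
            calc ((q : R) * g) * (2 * n) = ((q : R) * (2 * n)) * g := by ring
              _ = j * g := by rw [hqR]
          rw [h3] at h1
          exact absurd hj1 (not_le.mpr h1)
        have h1 : Encodable.encode q ∈ {n | ∃ q : ℚ, Encodable.encode q = n ∧
            (q : R) * g < b - c} := ⟨q, rfl, hqb⟩
        have heq' : {n | ∃ q : ℚ, Encodable.encode q = n ∧ (q : R) * g < a - c} =
            {n | ∃ q : ℚ, Encodable.encode q = n ∧ (q : R) * g < b - c} := heq
        rw [← heq'] at h1
        obtain ⟨q', hq', hq2⟩ := h1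
        rw [Encodable.encode_injective hq'] at hq2
        exact hqa hq2
    · refine ⟨fun _ => ∅, fun _ _ _ _ _ => Set.Subset.rfl, ?_⟩
      intro a b hca hab _ hv
      exact absurd ⟨b - a, sub_pos.mpr hab, hv⟩ hδ

end Pool.Agent.SpecR
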