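import Pool.Agent.SpecR.Ultra
import Pool.Agent.SpecR.AlgClosed
import Pool.Agent.SpecR.ClassAlg
import Pool.Agent.SpecR.ShortField

/-!
# The ordered field
-/

set_option autoImplicit false

open Polynomial

namespace Pool.Agent.SpecR

private theorem coe_mon {K Λ : Type} [Field K] {R : Subfield K} (t : Λ → R) (k : Λ →₀ ℤ) :
    ((mon t k : R) : K) = mon (fun l => (t l : K)) k := by
  unfold mon
  rw [Finsupp.prod, Finsupp.prod]
  push_cast
  rfl

private theorem coe_abs' {K : Type} [Field K] [LinearOrder K] [IsStrictOrderedRing K]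
    {R : Subfield K} (x : R) : ((|x| : R) : K) = |(x : K)| := by
  rcases le_total 0 x with h | h
  · rw [abs_of_nonneg h, abs_of_nonneg]
    exact h
  · rw [abs_of_nonpos h, abs_of_nonpos]
    · simp
    · exact h

private theorem mk_of_coe {K : Type} [Field K] [LinearOrder K] [IsStrictOrderedRing K]
    {R : Subfield K} {x y : R} (h : ArchimedeanClass.mk (x : K) = ArchimedeanClass.mk (y : K)) :
    ArchimedeanClass.mk x = ArchimedeanClass.mk y := by
  rw [ArchimedeanClass.mk_eq_mk] at h ⊢
  obtain ⟨⟨m, hm⟩, n, hn⟩ := h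
  refine ⟨⟨m, ?_⟩, n, ?_⟩
  · rw [← Subtype.coe_le_coe, coe_abs']
    simpa [coe_abs'] using hm
  · rw [← Subtype.coe_le_coe, coe_abs']
    simpa [coe_abs'] using hn

theorem exists_field (C : Type) [LinearOrder C] (hC : Short C)
    (hcard : Cardinal.mk C ≤ Cardinal.aleph 1) :
    ∃ (R : Type) (_ : Field R) (_ : LinearOrder R) (_ : IsStrictOrderedRing R)
      (t : WithBot C → R), Factors R ∧ Scale R (WithBot C) t ∧
      Cardinal.mk R ≤ Cardinal.aleph 1 ∧ Short R := by
  obtain ⟨K, _, _, _, t, hF, hinf, hbel⟩ := exists_ultra (WithBot C)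
  obtain ⟨R, hS, hRF, hcardR, halg⟩ := exists_alg hF (Set.range t)
  have hmem : ∀ l, t l ∈ R := fun l => hS ⟨l, rfl⟩
  set t' : WithBot C → R := fun l => ⟨t l, hmem l⟩ with ht'
  have hinf' : ∀ l, Infl (t' l) := by
    intro l
    refine ⟨?_, fun n => ?_⟩
    · rw [← Subtype.coe_lt_coe]
      exact (hinf l).1
    · rw [← Subtype.coe_lt_coe]
      simpa using (hinf l).2 n
  have hbel' : ∀ l m, l < m → Below (t' l) (t' m) := by
    intro l m hlm n
    rw [← Subtype.coe_lt_coe]
    simpa using hbel l m hlm n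
  have hclass : ∀ x : R, x ≠ 0 → ∃ (d : ℕ) (k : WithBot C →₀ ℤ), 0 < d ∧
      ArchimedeanClass.mk ((x : K) ^ d) = ArchimedeanClass.mk (mon t k) := by
    intro x hx
    obtain ⟨P, hP, hc, h0⟩ := halg x x.2
    exact class_alg hinf hbel (fun h => hx (by ext; simpa using h)) hP hc h0
  refine ⟨R, inferInstance, inferInstance, inferInstance, t', hRF, ⟨hinf', hbel', ?_⟩, ?_, ?_⟩
  · intro x hx
    obtain ⟨d, k, hd, hk⟩ := hclass x hx.1.ne'
    have hx' : Infl (x : K) := by
      refine ⟨?_, fun n => ?_⟩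
      · have := hx.1
        rw [← Subtype.coe_lt_coe] at this
        exact this
      · have := hx.2 n
        rw [← Subtype.coe_lt_coe] at this
        simpa using this
    obtain ⟨l, n, hn, h1, h2⟩ := comm_of_class hinf hbel hx' hd hk
    refine ⟨l, n, hn, ?_, ?_⟩
    · rw [← Subtype.coe_le_coe]
      simpa using h1
    · rw [← Subtype.coe_le_coe]
      simpa using h2
  · refine hcardR.trans (max_le ?_ (Cardinal.aleph0_le_aleph 1))
    refine (Cardinal.mk_range_le).trans ?_
    have h1 : Cardinal.mk (WithBot C) = Cardinal.mk C + 1 := Cardinal.mk_option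
    rw [h1]
    exact Cardinal.add_le_of_le (Cardinal.aleph0_le_aleph 1) hcard
      (Cardinal.one_le_aleph0.trans (Cardinal.aleph0_le_aleph 1))
  · apply short_field
    refine short_class (short_withBot hC) hinf' hbel' fun x hx => ?_
    obtain ⟨d, k, hd, hk⟩ := hclass x hx
    refine ⟨d, k, hd, mk_of_coe ?_⟩
    rw [coe_mon]
    simpa using hk

end Pool.Agent.SpecR
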