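import Pool.Agent.SpecR.Defs

/-!
# Points of the real spectrum from positivity relations
-/

set_option autoImplicit false

namespace Pool.Agent.SpecR

universe u

/-- an ordered field from its positive elements -/
private theorem exists_order {K : Type u} [Field K] (Q : K → Prop) (h0 : ¬ Q 0)
    (hadd : ∀ x y, Q x → Q y → Q (x + y)) (htot : ∀ x, x ≠ 0 → Q x ∨ Q (-x))
    (hmul : ∀ x y, Q x → Q y → Q (x * y)) :
    ∃ o : LinearOrder K, IsStrictOrderedRing K ∧ ∀ x : K, 0 < x ↔ Q x := by
  classical
  have hneg : ∀ x, Q x → ¬ Q (-x) := by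
    intro x hx hx'
    apply h0
    have := hadd _ _ hx hx'
    rwa [add_neg_cancel] at this
  have h1 : Q 1 := by
    rcases htot 1 one_ne_zero with h | h
    · exact h
    · have := hmul _ _ h h
      rwa [neg_mul_neg, one_mul] at this
  let o : LinearOrder K :=
    { le := fun x y => x = y ∨ Q (y - x)
      lt := fun x y => Q (y - x)
      le_refl := fun x => Or.inl rfl
      le_trans := by
        rintro x y z (rfl | hxy) (rfl | hyz)
        · exact Or.inl rfl
        · exact Or.inr hyz
        · exact Or.inr hxy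
        · right
          have := hadd _ _ hyz hxy
          rwa [sub_add_sub_cancel] at this
      lt_iff_le_not_ge := by
        intro x y
        constructor
        · intro h
          refine ⟨Or.inr h, ?_⟩
          rintro (rfl | h')
          · rw [sub_self] at h
            exact h0 h
          · exact hneg _ h (by rwa [neg_sub])
        · rintro ⟨rfl | h, h'⟩
          · exact absurd (Or.inl rfl) h'
          · exact h
      le_antisymm := by
        rintro x y (h | h) (h' | h')
        · exact h
        · exact h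
        · exact h'.symm
        · exact absurd (by rwa [neg_sub]) (hneg _ h)
      le_total := by
        intro x y
        by_cases hxy : x = y
        · exact Or.inl (Or.inl hxy)
        · rcases htot (y - x) (sub_ne_zero.2 (Ne.symm hxy)) with h | h
          · exact Or.inl (Or.inr h)
          · rw [neg_sub] at h
            exact Or.inr (Or.inr h)
      toDecidableLE := Classical.decRel _ }
  have hlt : ∀ x y : K, x < y ↔ Q (y - x) := fun x y => Iff.rfl
  have hadd' : ∀ a b : K, a ≤ b → ∀ c, c + a ≤ c + b := by
    rintro a b (rfl | h) c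
    · exact Or.inl rfl
    · exact Or.inr (by rwa [add_sub_add_left_eq_sub])
  refine ⟨o, ?_, fun x => by rw [hlt, sub_zero]⟩
  haveI : IsOrderedAddMonoid K := { add_le_add_left := fun a b h c => by
                                      rw [add_comm a c, add_comm b c]
                                      exact hadd' a b h c }
  haveI : ZeroLEOneClass K := ⟨Or.inr (by rwa [sub_zero])⟩
  exact IsStrictOrderedRing.of_mul_pos fun a b ha hb => by
    rw [hlt, sub_zero] at ha hb ⊢
    exact hmul a b ha hb

section Points

variable {A : Type u} [CommRing A]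

theorem RealPt.isPos (α : RealPt A) : IsPos α.Pos := by
  letI := α.prime
  letI := α.order
  have := α.ordered
  let φ : A →+* FractionRing (A ⧸ α.ideal) :=
    (algebraMap (A ⧸ α.ideal) (FractionRing (A ⧸ α.ideal))).comp (Ideal.Quotient.mk α.ideal)
  have hφ : ∀ a, α.Pos a ↔ 0 < φ a := fun a => Iff.rfl
  constructor
  · rw [hφ, map_one]
    exact zero_lt_one
  · intro a ha ha'
    rw [hφ] at ha ha'
    rw [map_neg] at ha'
    exact lt_asymm ha (neg_pos.1 ha')
  · intro a b ha hb
    rw [hφ] at ha hb ⊢
    rw [map_add]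
    exact add_pos ha hb
  · intro a b ha hb
    rw [hφ] at ha hb ⊢
    rw [map_mul]
    exact mul_pos ha hb
  · intro a b h
    rw [hφ, map_add] at h
    rw [hφ, hφ]
    by_contra hcon
    push Not at hcon
    exact absurd h (not_lt.2 (add_nonpos hcon.1 hcon.2))
  · intro a b h
    rw [hφ, map_mul] at h
    rw [hφ, hφ, hφ, hφ, map_neg, map_neg, neg_pos, neg_pos]
    exact pos_and_pos_or_neg_and_neg_of_mul_pos h

private theorem IsPos.not_zero {P : A → Prop} (hP : IsPos P) : ¬ P 0 := by
  intro h
  have := hP.neg 0 h
  rw [neg_zero] at this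
  exact this h

/-- the ideal of the elements which are neither positive nor negative -/
private def zeroIdeal {P : A → Prop} (hP : IsPos P) : Ideal A where
  carrier := {a | ¬ P a ∧ ¬ P (-a)}
  zero_mem' := ⟨hP.not_zero, by rw [neg_zero]; exact hP.not_zero⟩
  add_mem' := by
    rintro a b ⟨ha, ha'⟩ ⟨hb, hb'⟩
    refine ⟨fun h => ?_, fun h => ?_⟩
    · rcases hP.of_add _ _ h with h1 | h1
      · exact ha h1
      · exact hb h1
    · rw [neg_add] at h
      rcases hP.of_add _ _ h with h1 | h1
      · exact ha' h1
      · exact hb' h1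
  smul_mem' := by
    rintro c a ⟨ha, ha'⟩
    rw [smul_eq_mul]
    refine ⟨fun h => ?_, fun h => ?_⟩
    · rcases hP.of_mul _ _ h with h1 | h1
      · exact ha h1.2
      · exact ha' h1.2
    · rw [← mul_neg] at h
      rcases hP.of_mul _ _ h with h1 | h1
      · exact ha' h1.2
      · rw [neg_neg] at h1
        exact ha h1.2

private theorem mem_zeroIdeal {P : A → Prop} (hP : IsPos P) (a : A) :
    a ∈ zeroIdeal hP ↔ ¬ P a ∧ ¬ P (-a) := Iff.rfl

private theorem zeroIdeal_prime {P : A → Prop} (hP : IsPos P) : (zeroIdeal hP).IsPrime := by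
  refine ⟨?_, ?_⟩
  · rw [Ideal.ne_top_iff_one, mem_zeroIdeal]
    exact fun h => h.1 hP.one
  · intro a b hab
    by_contra hcon
    push Not at hcon
    obtain ⟨ha, hb⟩ := hcon
    rw [mem_zeroIdeal] at ha hb hab
    have ha' : P a ∨ P (-a) := by
      by_contra h
      push Not at h
      exact ha h
    have hb' : P b ∨ P (-b) := by
      by_contra h
      push Not at h
      exact hb h
    rcases ha' with ha' | ha' <;> rcases hb' with hb' | hb'
    · exact hab.1 (hP.mul _ _ ha' hb')
    · apply hab.2
      rw [← mul_neg]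
      exact hP.mul _ _ ha' hb'
    · apply hab.2
      rw [← neg_mul]
      exact hP.mul _ _ ha' hb'
    · apply hab.1
      rw [← neg_mul_neg]
      exact hP.mul _ _ ha' hb'

private theorem IsPos.congr {P : A → Prop} (hP : IsPos P) {a b : A} (h : a - b ∈ zeroIdeal hP)
    (ha : P a) : P b := by
  rw [mem_zeroIdeal] at h
  have h1 : a = b + (a - b) := by ring
  rw [h1] at ha
  rcases hP.of_add _ _ ha with h2 | h2
  · exact h2
  · exact absurd h2 h.1

/-- an ordered fraction field from the positive elements of a domain -/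
private theorem exists_order_frac {D : Type u} [CommRing D] [IsDomain D] {Q : D → Prop}
    (hQ : IsPos Q) (htot : ∀ x, x ≠ 0 → Q x ∨ Q (-x)) :
    ∃ o : LinearOrder (FractionRing D), IsStrictOrderedRing (FractionRing D) ∧
      ∀ x : D, 0 < algebraMap D (FractionRing D) x ↔ Q x := by
  have hinj : Function.Injective (algebraMap D (FractionRing D)) :=
    IsFractionRing.injective D (FractionRing D)
  have hne : ∀ b : D, b ≠ 0 → algebraMap D (FractionRing D) b ≠ 0 := fun b hb h =>
    hb (hinj (by rw [h, map_zero]))
  have hsq : ∀ b : D, b ≠ 0 → Q (b * b) := by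
    intro b hb
    rcases htot b hb with h | h
    · exact hQ.mul _ _ h h
    · have := hQ.mul _ _ h h
      rwa [neg_mul_neg] at this
  have hfrac : ∀ x : FractionRing D, ∃ a b : D, b ≠ 0 ∧
      x = algebraMap D (FractionRing D) a / algebraMap D (FractionRing D) b := by
    intro x
    obtain ⟨a, b, hb, hx⟩ := IsFractionRing.div_surjective (A := D) x
    exact ⟨a, b, nonZeroDivisors.ne_zero hb, hx.symm⟩
  obtain ⟨o, ho, hpos⟩ := exists_order (K := FractionRing D)
    (fun x => ∃ a b : D, b ≠ 0 ∧
      x = algebraMap D (FractionRing D) a / algebraMap D (FractionRing D) b ∧ Q (a * b))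
    (by
      rintro ⟨a, b, hb, hx, h⟩
      have h1 : algebraMap D (FractionRing D) a = 0 := by
        rcases div_eq_zero_iff.1 hx.symm with h2 | h2
        · exact h2
        · exact absurd h2 (hne b hb)
      have h2 : a = 0 := hinj (by rw [h1, map_zero])
      rw [h2, zero_mul] at h
      exact hQ.not_zero h)
    (by
      rintro _ _ ⟨a, b, hb, rfl, h⟩ ⟨c, d, hd, rfl, h'⟩
      refine ⟨a * d + c * b, b * d, mul_ne_zero hb hd, ?_, ?_⟩
      · have h1 := hne b hb
        have h2 := hne d hd
        rw [map_add, map_mul, map_mul, map_mul]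
        field_simp
      · have h1 := hQ.mul _ _ h (hsq d hd)
        have h2 := hQ.mul _ _ h' (hsq b hb)
        have h3 := hQ.add _ _ h1 h2
        convert h3 using 1
        ring)
    (by
      intro x hx
      obtain ⟨a, b, hb, rfl⟩ := hfrac x
      have ha : a ≠ 0 := by
        rintro rfl
        rw [map_zero, zero_div] at hx
        exact hx rfl
      rcases htot (a * b) (mul_ne_zero ha hb) with h | h
      · exact Or.inl ⟨a, b, hb, rfl, h⟩
      · right
        refine ⟨-a, b, hb, ?_, ?_⟩
        · rw [map_neg, neg_div]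
        · rwa [neg_mul])
    (by
      rintro _ _ ⟨a, b, hb, rfl, h⟩ ⟨c, d, hd, rfl, h'⟩
      refine ⟨a * c, b * d, mul_ne_zero hb hd, ?_, ?_⟩
      · rw [map_mul, map_mul, div_mul_div_comm]
      · have h1 := hQ.mul _ _ h h'
        convert h1 using 1
        ring)
  refine ⟨o, ho, fun x => ?_⟩
  rw [hpos]
  constructor
  · rintro ⟨a, b, hb, hx, h⟩
    have h1 : a = x * b := by
      apply hinj
      rw [map_mul, hx, div_mul_cancel₀ _ (hne b hb)]
    rw [h1, mul_assoc] at h
    rcases hQ.of_mul _ _ h with h2 | h2
    · exact h2.1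
    · exact absurd h2.2 (hQ.neg _ (hsq b hb))
  · intro h
    exact ⟨x, 1, one_ne_zero, by rw [map_one, div_one], by rwa [mul_one]⟩

/-- every relation satisfying the axioms is given by a point of the real spectrum -/
theorem exists_point {P : A → Prop} (hP : IsPos P) : ∃ α : RealPt A, ∀ a, α.Pos a ↔ P a := by
  have := zeroIdeal_prime hP
  let mk := Ideal.Quotient.mk (zeroIdeal hP)
  have hsurj : Function.Surjective mk := Ideal.Quotient.mk_surjective
  let Q : A ⧸ zeroIdeal hP → Prop := fun q => ∃ a, mk a = q ∧ P a
  have hQ : ∀ a, Q (mk a) ↔ P a := by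
    intro a
    constructor
    · rintro ⟨b, hb, h⟩
      exact hP.congr (Ideal.Quotient.eq.1 hb) h
    · intro h
      exact ⟨a, rfl, h⟩
  have hQpos : IsPos Q := by
    constructor
    · rw [← map_one mk, hQ]
      exact hP.one
    · intro x
      obtain ⟨a, rfl⟩ := hsurj x
      rw [← map_neg, hQ, hQ]
      exact hP.neg a
    · intro x y
      obtain ⟨a, rfl⟩ := hsurj x
      obtain ⟨b, rfl⟩ := hsurj y
      rw [← map_add, hQ, hQ, hQ]
      exact hP.add a b
    · intro x y
      obtain ⟨a, rfl⟩ := hsurj x
      obtain ⟨b, rfl⟩ := hsurj y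
      rw [← map_mul, hQ, hQ, hQ]
      exact hP.mul a b
    · intro x y
      obtain ⟨a, rfl⟩ := hsurj x
      obtain ⟨b, rfl⟩ := hsurj y
      rw [← map_add, hQ, hQ, hQ]
      exact hP.of_add a b
    · intro x y
      obtain ⟨a, rfl⟩ := hsurj x
      obtain ⟨b, rfl⟩ := hsurj y
      rw [← map_mul, ← map_neg, ← map_neg, hQ, hQ, hQ, hQ, hQ]
      exact hP.of_mul a b
  have htot : ∀ x : A ⧸ zeroIdeal hP, x ≠ 0 → Q x ∨ Q (-x) := by
    intro x hx
    obtain ⟨a, rfl⟩ := hsurj x
    rw [← map_neg, hQ, hQ]
    by_contra hcon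
    push Not at hcon
    exact hx (Ideal.Quotient.eq_zero_iff_mem.2 ((mem_zeroIdeal hP a).2 hcon))
  obtain ⟨o, ho, hpos⟩ := exists_order_frac hQpos htot
  refine ⟨⟨zeroIdeal hP, inferInstance, o, ho⟩, fun a => ?_⟩
  rw [← hQ, ← hpos]
  exact Iff.rfl

end Points

end Pool.Agent.SpecR
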