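import Pool.Agent.SpecR.Compact

/-!
# Lattices isomorphic to the lattice of a real spectrum
-/

set_option autoImplicit false

open Polynomial

namespace Pool.Agent.SpecR

universe u

private theorem gen_finite {A : Type u} [CommRing A] {U : Set (RealPt A)}
    (hU : Gen {V | ∃ a : A, V = {α | α.Pos a}} U) :
    ∃ F : Finset A, ∀ α β : RealPt A, (∀ a ∈ F, (α.Pos a ↔ β.Pos a)) → (α ∈ U ↔ β ∈ U) := by
  classical
  induction hU with
  | base h =>
    obtain ⟨a, rfl⟩ := h
    exact ⟨{a}, fun α β h => h a (Finset.mem_singleton_self a)⟩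
  | empty => exact ⟨∅, fun _ _ _ => Iff.rfl⟩
  | univ => exact ⟨∅, fun _ _ _ => Iff.rfl⟩
  | union _ _ h1 h2 =>
    obtain ⟨F, hF⟩ := h1
    obtain ⟨G, hG⟩ := h2
    refine ⟨F ∪ G, fun α β h => ?_⟩
    exact or_congr (hF α β fun a ha => h a (Finset.mem_union_left _ ha))
      (hG α β fun a ha => h a (Finset.mem_union_right _ ha))
  | inter _ _ h1 h2 =>
    obtain ⟨F, hF⟩ := h1
    obtain ⟨G, hG⟩ := h2
    refine ⟨F ∪ G, fun α β h => ?_⟩
    exact and_congr (hF α β fun a ha => h a (Finset.mem_union_left _ ha))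
      (hG α β fun a ha => h a (Finset.mem_union_right _ ha))

theorem rep_of (D : LStr) {A : Type u} [CommRing A] {Y : Type} (π : Y → A → Prop)
    (hπ : ∀ y, IsPos (π y))
    (hd : ∀ (α : RealPt A) (F : Finset A), ∃ y, ∀ a ∈ F, (α.Pos a ↔ π y a))
    (ρ : D.carrier → Set Y) (hinj : Function.Injective ρ)
    (hsup : ∀ x y, ρ (D.sup x y) = ρ x ∪ ρ y) (hinf : ∀ x y, ρ (D.inf x y) = ρ x ∩ ρ y)
    (hzero : ρ D.zero = ∅) (hone : ρ D.one = Set.univ)
    (hrange : ∀ U, (∃ d, ρ d = U) ↔ Gen {V | ∃ a, V = {y | π y a}} U) : Rep.{u} D := by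
  classical
  choose p hp using fun y => exists_point (hπ y)
  let Tr : Set (RealPt A) → Set Y := fun U => {y | p y ∈ U}
  have hTr1 : ∀ U, Gen {V | ∃ a : A, V = {α | α.Pos a}} U →
      Gen {V | ∃ a, V = {y | π y a}} (Tr U) := by
    intro U hU
    induction hU with
    | base h =>
      obtain ⟨a, rfl⟩ := h
      refine Gen.base ⟨a, ?_⟩
      ext y
      exact hp y a
    | empty => exact Gen.empty
    | univ => exact Gen.univ
    | union _ _ h1 h2 => exact h1.union h2
    | inter _ _ h1 h2 => exact h1.inter h2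
  have hTr2 : ∀ V, Gen {V | ∃ a, V = {y | π y a}} V →
      ∃ U, Gen {V | ∃ a : A, V = {α | α.Pos a}} U ∧ Tr U = V := by
    intro V hV
    induction hV with
    | base h =>
      obtain ⟨a, rfl⟩ := h
      refine ⟨{α | α.Pos a}, Gen.base ⟨a, rfl⟩, ?_⟩
      ext y
      exact hp y a
    | empty => exact ⟨∅, Gen.empty, rfl⟩
    | univ => exact ⟨Set.univ, Gen.univ, rfl⟩
    | union _ _ h1 h2 =>
      obtain ⟨U1, h1, rfl⟩ := h1
      obtain ⟨U2, h2, rfl⟩ := h2
      exact ⟨U1 ∪ U2, h1.union h2, rfl⟩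
    | inter _ _ h1 h2 =>
      obtain ⟨U1, h1, rfl⟩ := h1
      obtain ⟨U2, h2, rfl⟩ := h2
      exact ⟨U1 ∩ U2, h1.inter h2, rfl⟩
  have hTr3 : ∀ U V, Gen {V | ∃ a : A, V = {α | α.Pos a}} U →
      Gen {V | ∃ a : A, V = {α | α.Pos a}} V → Tr U = Tr V → U = V := by
    intro U V hU hV h
    obtain ⟨F, hF⟩ := gen_finite hU
    obtain ⟨G, hG⟩ := gen_finite hV
    ext α
    obtain ⟨y, hy⟩ := hd α (F ∪ G)
    have h1 : ∀ a ∈ F ∪ G, (α.Pos a ↔ (p y).Pos a) := fun a ha => (hy a ha).trans (hp y a).symm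
    have h2 := hF α (p y) fun a ha => h1 a (Finset.mem_union_left _ ha)
    have h3 := hG α (p y) fun a ha => h1 a (Finset.mem_union_right _ ha)
    have h4 : p y ∈ U ↔ p y ∈ V := by
      have : y ∈ Tr U ↔ y ∈ Tr V := by rw [h]
      exact this
    exact h2.trans (h4.trans h3.symm)
  have hex : ∀ d, ∃ U, Gen {V | ∃ a : A, V = {α | α.Pos a}} U ∧ Tr U = ρ d :=
    fun d => hTr2 _ ((hrange (ρ d)).1 ⟨d, rfl⟩)
  choose f hf hfρ using hex
  let e : D.carrier → {U : Set (RealPt A) // IsOpen U ∧ IsCompact U} :=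
    fun d => ⟨f d, (gen_iff _).2 (hf d)⟩
  have he : Function.Bijective e := by
    constructor
    · intro x y hxy
      apply hinj
      have h1 : f x = f y := congrArg Subtype.val hxy
      rw [← hfρ x, ← hfρ y, h1]
    · rintro ⟨U, hU⟩
      have h1 := (gen_iff U).1 hU
      obtain ⟨d, h2⟩ := (hrange (Tr U)).2 (hTr1 U h1)
      refine ⟨d, Subtype.ext ?_⟩
      exact hTr3 _ _ (hf d) h1 ((hfρ d).trans h2)
  refine ⟨A, inferInstance, Equiv.ofBijective e he, fun x y => ?_, fun x y => ?_, ?_, ?_⟩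
  · refine hTr3 _ _ (hf _) ((hf x).union (hf y)) ?_
    show Tr (f (D.sup x y)) = Tr (f x) ∪ Tr (f y)
    rw [hfρ, hfρ, hfρ, hsup]
  · refine hTr3 _ _ (hf _) ((hf x).inter (hf y)) ?_
    show Tr (f (D.inf x y)) = Tr (f x) ∩ Tr (f y)
    rw [hfρ, hfρ, hfρ, hinf]
  · refine hTr3 _ _ (hf _) Gen.empty ?_
    show Tr (f D.zero) = ∅
    rw [hfρ, hzero]
  · refine hTr3 _ _ (hf _) Gen.univ ?_
    show Tr (f D.one) = Set.univ
    rw [hfρ, hone]

theorem rep_umap (D : LStr) (hD : Rep.{u} D) {Y : Type} (ρ : D.carrier → Set Y)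
    (hinj : Function.Injective ρ)
    (hsup : ∀ x y, ρ (D.sup x y) = ρ x ∪ ρ y) (hinf : ∀ x y, ρ (D.inf x y) = ρ x ∩ ρ y)
    (hzero : ρ D.zero = ∅) (hone : ρ D.one = Set.univ) :
    ∃ (A : Type u) (_ : CommRing A) (U : A → D.carrier),
      (∀ y, IsPos fun a => y ∈ ρ (U a)) ∧ ∀ d, GenD D (Set.range U) d := by
  obtain ⟨A, _, e, esup, einf, ezero, eone⟩ := hD
  let U : A → D.carrier := fun a => e.symm ⟨{α | α.Pos a}, (gen_iff _).2 (Gen.base ⟨a, rfl⟩)⟩
  have hU : ∀ a, (e (U a)).1 = {α | α.Pos a} := fun a => by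
    show (e (e.symm _)).1 = _
    rw [Equiv.apply_symm_apply]
  have hle : ∀ x y, (e x).1 ⊆ (e y).1 → ρ x ⊆ ρ y := by
    intro x y h
    have h1 : D.sup x y = y := by
      apply e.injective
      apply Subtype.ext
      rw [esup]
      exact Set.union_eq_self_of_subset_left h
    have h2 := hsup x y
    rw [h1] at h2
    rw [h2]
    exact Set.subset_union_left
  refine ⟨A, inferInstance, U, fun y => ⟨?_, ?_, ?_, ?_, ?_, ?_⟩, fun d => ?_⟩
  · have h1 : ρ D.one ⊆ ρ (U 1) := by
      apply hle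
      rw [hU]
      exact fun α _ => (RealPt.isPos α).one
    rw [hone] at h1
    exact h1 (Set.mem_univ y)
  · intro a h1 h2
    have h3 : ρ (D.inf (U a) (U (-a))) ⊆ ρ D.zero := by
      apply hle
      rw [einf, hU, hU]
      exact fun α hα => absurd hα.2 ((RealPt.isPos α).neg a hα.1)
    rw [hinf, hzero] at h3
    exact h3 ⟨h1, h2⟩
  · intro a b h1 h2
    have h3 : ρ (D.inf (U a) (U b)) ⊆ ρ (U (a + b)) := by
      apply hle
      rw [einf, hU, hU, hU]
      exact fun α hα => (RealPt.isPos α).add a b hα.1 hα.2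
    rw [hinf] at h3
    exact h3 ⟨h1, h2⟩
  · intro a b h1 h2
    have h3 : ρ (D.inf (U a) (U b)) ⊆ ρ (U (a * b)) := by
      apply hle
      rw [einf, hU, hU, hU]
      exact fun α hα => (RealPt.isPos α).mul a b hα.1 hα.2
    rw [hinf] at h3
    exact h3 ⟨h1, h2⟩
  · intro a b h1
    have h3 : ρ (U (a + b)) ⊆ ρ (D.sup (U a) (U b)) := by
      apply hle
      rw [esup, hU, hU, hU]
      exact fun α hα => (RealPt.isPos α).of_add a b hα
    rw [hsup] at h3
    exact h3 h1
  · intro a b h1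
    have h3 : ρ (U (a * b)) ⊆ ρ (D.sup (D.inf (U a) (U b)) (D.inf (U (-a)) (U (-b)))) := by
      apply hle
      rw [esup, einf, einf, hU, hU, hU, hU, hU]
      exact fun α hα => (RealPt.isPos α).of_mul a b hα
    rw [hsup, hinf, hinf] at h3
    exact h3 h1
  · have key : ∀ W, Gen {V | ∃ a : A, V = {α | α.Pos a}} W → ∀ x, (e x).1 = W →
        GenD D (Set.range U) x := by
      intro W hW
      induction hW with
      | base h =>
        obtain ⟨a, rfl⟩ := h
        intro x hx
        have h1 : x = U a := e.injective (Subtype.ext (by rw [hx, hU]))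
        exact GenD.base ⟨a, h1.symm⟩
      | empty =>
        intro x hx
        have h1 : x = D.zero := e.injective (Subtype.ext (by rw [hx, ezero]))
        rw [h1]
        exact GenD.zero
      | univ =>
        intro x hx
        have h1 : x = D.one := e.injective (Subtype.ext (by rw [hx, eone]))
        rw [h1]
        exact GenD.one
      | @union V V' hV hV' h1 h2 =>
        intro x hx
        have h3 : x = D.sup (e.symm ⟨V, (gen_iff _).2 hV⟩) (e.symm ⟨V', (gen_iff _).2 hV'⟩) := by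
          apply e.injective
          apply Subtype.ext
          rw [hx, esup, Equiv.apply_symm_apply, Equiv.apply_symm_apply]
        rw [h3]
        exact GenD.sup (h1 _ (by rw [Equiv.apply_symm_apply]))
          (h2 _ (by rw [Equiv.apply_symm_apply]))
      | @inter V V' hV hV' h1 h2 =>
        intro x hx
        have h3 : x = D.inf (e.symm ⟨V, (gen_iff _).2 hV⟩) (e.symm ⟨V', (gen_iff _).2 hV'⟩) := by
          apply e.injective
          apply Subtype.ext
          rw [hx, einf, Equiv.apply_symm_apply, Equiv.apply_symm_apply]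
        rw [h3]
        exact GenD.inf (h1 _ (by rw [Equiv.apply_symm_apply]))
          (h2 _ (by rw [Equiv.apply_symm_apply]))
    exact key _ ((gen_iff _).1 (e d).2) d rfl

theorem rep_lift (D : LStr) (hD : Rep.{0} D) : Rep.{u} D := by
  obtain ⟨A, _, e, esup, einf, ezero, eone⟩ := hD
  refine rep_of D (A := ULift.{u} A) (Y := RealPt A) (fun α a => α.Pos a.down) (fun α => ?_)
    (fun β F => ?_) (fun d => (e d).1) (fun x y h => e.injective (Subtype.ext h)) esup einf ezero
    eone (fun U => ?_)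
  · have h := RealPt.isPos α
    exact ⟨h.one, fun a => h.neg a.down, fun a b => h.add a.down b.down,
      fun a b => h.mul a.down b.down, fun a b => h.of_add a.down b.down,
      fun a b => h.of_mul a.down b.down⟩
  · have h := RealPt.isPos β
    have h1 : IsPos fun a : A => β.Pos (ULift.up a) :=
      ⟨h.one, fun a => h.neg _, fun a b => h.add _ _, fun a b => h.mul _ _,
        fun a b => h.of_add _ _, fun a b => h.of_mul _ _⟩
    obtain ⟨α, hα⟩ := exists_point h1
    exact ⟨α, fun a _ => (hα a.down).symm⟩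
  · have h1 : {V | ∃ a : ULift.{u} A, V = {y : RealPt A | y.Pos a.down}} =
        {V | ∃ a : A, V = {y : RealPt A | y.Pos a}} := by
      ext V
      constructor
      · rintro ⟨a, rfl⟩
        exact ⟨a.down, rfl⟩
      · rintro ⟨a, rfl⟩
        exact ⟨ULift.up a, rfl⟩
    rw [h1, ← gen_iff]
    constructor
    · rintro ⟨d, rfl⟩
      exact (e d).2
    · intro h2
      exact ⟨e.symm ⟨U, h2⟩, by rw [Equiv.apply_symm_apply]⟩

end Pool.Agent.SpecR
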