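import Pool.Agent.SpecR.Defs
import Pool.Agent.SpecR.Points
import Pool.Agent.SpecR.RepOf
import Pool.Agent.SpecR.RingA
import Pool.Agent.SpecR.Case1
import Pool.Agent.SpecR.Case2

/-!
# The good lattice is the lattice of a real spectrum (MP_1824d7_lc)
-/

set_option autoImplicit false

open Polynomial

namespace Pool.Agent.SpecR

variable {R : Type} [Field R] [LinearOrder R] [IsStrictOrderedRing R]

omit [IsStrictOrderedRing R] in
private theorem infl_lt_one {x : R} (hx : Infl x) : x < 1 := by
  have := hx.2 1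
  rwa [Nat.cast_one, one_mul] at this

private theorem infl_bdd' {x : R} (hx : Infl x) : Bdd x := ⟨1, by
  rw [abs_of_pos hx.1, Nat.cast_one]
  exact (infl_lt_one hx).le⟩

/-- the second condition in `chainPos` -/
private def Big {C : Type} (t : WithBot C → R) (l : WithTop C) (a : R) : Prop :=
  (∃ n : ℕ, 1 ≤ n * a) ∨ ∃ m : C, l = m ∧ ∃ n : ℕ, t m ^ n ≤ a

section Big

variable {C : Type} [LinearOrder C] {t : WithBot C → R} {l : WithTop C}

omit [LinearOrder C] in
private theorem big_mono {x y : R} (hx : Big t l x) (hxy : x ≤ y) : Big t l y := by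
  rcases hx with ⟨n, hn⟩ | ⟨m, hm, n, hn⟩
  · exact Or.inl ⟨n, hn.trans (mul_le_mul_of_nonneg_left hxy (Nat.cast_nonneg n))⟩
  · exact Or.inr ⟨m, hm, n, hn.trans hxy⟩

omit [LinearOrder C] in
private theorem big_of_nat_mul (ht : ∀ l, Infl (t l)) {x : R} (hx : 0 < x) (k : ℕ)
    (h : Big t l (k * x)) : Big t l x := by
  rcases h with ⟨n, hn⟩ | ⟨m, hm, n, hn⟩
  · refine Or.inl ⟨n * k, ?_⟩
    push_cast
    rwa [mul_assoc]
  · refine Or.inr ⟨m, hm, n + 1, ?_⟩
    have h1 : (k : R) * t m < 1 := (ht m).2 k
    have h2 : 0 < t m := (ht m).1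
    calc t m ^ (n + 1) = t m ^ n * t m := pow_succ _ _
      _ ≤ (k * x) * t m := mul_le_mul_of_nonneg_right hn h2.le
      _ = (k * t m) * x := by ring
      _ ≤ 1 * x := mul_le_mul_of_nonneg_right h1.le hx.le
      _ = x := one_mul x

omit [LinearOrder C] in
private theorem big_mul (ht : ∀ l, Infl (t l)) {x y : R} (hx : 0 < x) (hy : 0 < y)
    (h1 : Big t l x) (h2 : Big t l y) : Big t l (x * y) := by
  rcases h1 with ⟨n, hn⟩ | ⟨m, hm, n, hn⟩
  · -- `y ≤ n (x y)`
    refine big_of_nat_mul ht (mul_pos hx hy) n (big_mono h2 ?_)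
    calc y = 1 * y := (one_mul y).symm
      _ ≤ (n * x) * y := mul_le_mul_of_nonneg_right hn hy.le
      _ = n * (x * y) := by ring
  · rcases h2 with ⟨k, hk⟩ | ⟨m', hm', k, hk⟩
    · refine big_of_nat_mul ht (mul_pos hx hy) k (big_mono (Or.inr ⟨m, hm, n, hn⟩) ?_)
      calc x = 1 * x := (one_mul x).symm
        _ ≤ (k * y) * x := mul_le_mul_of_nonneg_right hk hx.le
        _ = k * (x * y) := by ring
    · refine Or.inr ⟨m, hm, n + k, ?_⟩
      have : m' = m := WithTop.coe_injective (hm'.symm.trans hm)
      subst this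
      rw [pow_add]
      exact mul_le_mul hn hk (pow_nonneg (ht _).1.le _) hx.le

omit [LinearOrder C] in
private theorem big_of_mul (ht : ∀ l, Infl (t l)) {x y : R} (hx : 0 < x) (hy : 0 < y)
    (hby : Bdd y) (h : Big t l (x * y)) : Big t l x := by
  obtain ⟨k, hk⟩ := hby
  rw [abs_of_pos hy] at hk
  refine big_of_nat_mul ht hx k (big_mono h ?_)
  rw [mul_comm]
  exact mul_le_mul_of_nonneg_right hk hx.le

omit [LinearOrder C] in
/-- on bounded elements `chainPos` is the positivity relation of a point -/
private theorem isPos_chain (ht : ∀ l, Infl (t l)) {A : Type} [CommRing A] (φ : A →+* R)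
    (hφ : ∀ a, Bdd (φ a)) : IsPos fun a => chainPos t l (φ a) where
  one := by
    change chainPos t l (φ 1)
    rw [map_one]
    exact ⟨one_pos, Or.inl ⟨1, by simp⟩⟩
  neg a h h' := by
    have h1 := h.1
    have h2 := h'.1
    rw [map_neg] at h2
    linarith
  add a b h h' := by
    change chainPos t l (φ (a + b))
    rw [map_add]
    exact ⟨add_pos h.1 h'.1, big_mono h.2 (by linarith [h'.1])⟩
  mul a b h h' := by
    change chainPos t l (φ (a * b))
    rw [map_mul]
    exact ⟨mul_pos h.1 h'.1, big_mul ht h.1 h'.1 h.2 h'.2⟩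
  of_add a b h := by
    change chainPos t l (φ a) ∨ chainPos t l (φ b)
    have h1 : 0 < φ (a + b) := h.1
    have h2 : Big t l (φ (a + b)) := h.2
    rw [map_add] at h1 h2
    rcases le_total (φ a) (φ b) with hab | hab
    · right
      have hb : 0 < φ b := by linarith
      refine ⟨hb, big_of_nat_mul ht hb 2 (big_mono h2 ?_)⟩
      push_cast
      linarith
    · left
      have ha : 0 < φ a := by linarith
      refine ⟨ha, big_of_nat_mul ht ha 2 (big_mono h2 ?_)⟩
      push_cast
      linarith
  of_mul a b h := by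
    change (chainPos t l (φ a) ∧ chainPos t l (φ b)) ∨
      (chainPos t l (φ (-a)) ∧ chainPos t l (φ (-b)))
    have h1 : 0 < φ (a * b) := h.1
    have h2 : Big t l (φ (a * b)) := h.2
    have key : ∀ a b : A, 0 < φ a → 0 < φ b → Big t l (φ a * φ b) →
        chainPos t l (φ a) ∧ chainPos t l (φ b) := fun a b ha hb hab =>
      ⟨⟨ha, big_of_mul ht ha hb (hφ b) hab⟩,
        ⟨hb, big_of_mul ht hb ha (hφ a) (by rwa [mul_comm])⟩⟩
    rw [map_mul] at h1 h2
    rcases pos_and_pos_or_neg_and_neg_of_mul_pos h1 with ⟨ha, hb⟩ | ⟨ha, hb⟩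
    · exact Or.inl (key a b ha hb h2)
    · refine Or.inr (key (-a) (-b) (by rw [map_neg]; linarith) (by rw [map_neg]; linarith) ?_)
      rw [map_neg, map_neg, neg_mul_neg]
      exact h2

end Big

/-- evaluation at a point of the line -/
private theorem isPos_ev {A : Type} [CommRing A] (φ : A →+* R) : IsPos fun a => 0 < φ a where
  one := by
    change 0 < φ 1
    rw [map_one]
    exact one_pos
  neg a h h' := by
    change 0 < φ (-a) at h'
    change 0 < φ a at h
    rw [map_neg] at h'
    linarith
  add a b h h' := by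
    change 0 < φ (a + b)
    rw [map_add]
    exact add_pos h h'
  mul a b h h' := by
    change 0 < φ (a * b)
    rw [map_mul]
    exact mul_pos h h'
  of_add a b h := by
    change 0 < φ a ∨ 0 < φ b
    change 0 < φ (a + b) at h
    rw [map_add] at h
    by_contra hc
    push Not at hc
    linarith [hc.1, hc.2]
  of_mul a b h := by
    change (0 < φ a ∧ 0 < φ b) ∨ (0 < φ (-a) ∧ 0 < φ (-b))
    change 0 < φ (a * b) at h
    rw [map_mul] at h
    rw [map_neg, map_neg]
    rcases pos_and_pos_or_neg_and_neg_of_mul_pos h with ⟨ha, hb⟩ | ⟨ha, hb⟩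
    · exact Or.inl ⟨ha, hb⟩
    · exact Or.inr ⟨by linarith, by linarith⟩

section Scale

variable {C : Type} [LinearOrder C] {t : WithBot C → R}

omit [IsStrictOrderedRing R] in
private theorem bot_le_t (ht : Scale R (WithBot C) t) (l : WithBot C) : t ⊥ ≤ t l := by
  rcases (bot_le : (⊥ : WithBot C) ≤ l).eq_or_lt with h | h
  · rw [← h]
  · have := ht.below _ _ h 1
    rw [pow_one] at this
    exact this.le

private theorem rank (ht : Scale R (WithBot C) t) (x : R) (hx : 0 < x) : ∃ n : ℕ, t ⊥ ^ n ≤ x := by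
  by_cases hn : ∃ n : ℕ, 1 ≤ n * x
  · obtain ⟨n, hn⟩ := hn
    refine ⟨1, ?_⟩
    rw [pow_one]
    have h1 := (ht.infl ⊥).2 n
    by_contra hc
    push Not at hc
    have h2 : (n : R) * x ≤ n * t ⊥ := mul_le_mul_of_nonneg_left hc.le (Nat.cast_nonneg n)
    linarith
  · have hinf : Infl x := ⟨hx, fun n => by
      by_contra hc
      exact hn ⟨n, not_lt.1 hc⟩⟩
    obtain ⟨l, N, hN, h1, h2⟩ := ht.class_ x hinf
    exact ⟨N, (pow_le_pow_left₀ (ht.infl ⊥).1.le (bot_le_t ht l) N).trans h2⟩

/-- an infinitesimal is not small only above the bottom -/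
private theorem not_small_t (ht : Scale R (WithBot C) t) {c : C} {n : ℕ} {a : R}
    (h : t c ^ n ≤ a) : ¬ Small (t ⊥) a := by
  rintro ⟨k, hk, h1⟩
  have h0 : 0 < t c := (ht.infl c).1
  have h2 : t c ^ (n * k) ≤ |a| ^ k := by
    rw [pow_mul]
    exact pow_le_pow_left₀ (pow_nonneg h0.le _) (h.trans (le_abs_self a)) k
  have h3 := ht.below ⊥ c (WithBot.bot_lt_coe c) (n * k)
  exact absurd (h2.trans h1) (not_le.2 h3)

private theorem not_small_large (ht : Scale R (WithBot C) t) {n : ℕ} {a : R}
    (h : 1 ≤ n * a) : ¬ Small (t ⊥) a := by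
  rintro ⟨k, hk, h1⟩
  have h2 : (1 : R) ≤ (n ^ k : ℕ) * |a| ^ k := by
    push_cast
    rw [← mul_pow]
    exact one_le_pow₀ (h.trans (mul_le_mul_of_nonneg_left (le_abs_self a) (Nat.cast_nonneg n)))
  have h3 := (ht.infl ⊥).2 (n ^ k)
  have h4 : ((n ^ k : ℕ) : R) * |a| ^ k ≤ (n ^ k : ℕ) * t ⊥ :=
    mul_le_mul_of_nonneg_left h1 (Nat.cast_nonneg _)
  linarith

private theorem not_small_big (ht : Scale R (WithBot C) t) {l : WithTop C} {a : R}
    (h : chainPos t l a) : ¬ Small (t ⊥) a := by
  rcases h.2 with ⟨n, hn⟩ | ⟨m, -, n, hn⟩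
  · exact not_small_large ht hn
  · exact not_small_t ht hn

/-- positive elements on the chain -/
private theorem chain_iff (ht : Scale R (WithBot C) t) {a : R} (ha : Infl a) {c : C}
    (hc : Comm a (t c)) (l : WithTop C) : chainPos t l a ↔ l ≤ c := by
  obtain ⟨N, hN, h1, h2⟩ := hc
  constructor
  · rintro ⟨-, ⟨n, hn⟩ | ⟨m, hm, n, hn⟩⟩
    · exact absurd hn (not_le.2 (ha.2 n))
    · rw [hm, WithTop.coe_le_coe]
      by_contra hlt
      push Not at hlt
      have h3 := ht.below c m (WithBot.coe_lt_coe.2 hlt) (n * N)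
      have h4 : t m ^ (n * N) ≤ a ^ N := by
        rw [pow_mul]
        exact pow_le_pow_left₀ (pow_nonneg (ht.infl m).1.le _) hn N
      exact absurd (h4.trans h1) (not_le.2 h3)
  · intro hl
    have hltop : l ≠ ⊤ := fun he => by
      rw [he] at hl
      exact absurd hl (not_le.2 (WithTop.coe_lt_top c))
    obtain ⟨m, hm⟩ := WithTop.ne_top_iff_exists.1 hltop
    rw [← hm, WithTop.coe_le_coe] at hl
    refine ⟨ha.1, Or.inr ⟨m, hm.symm, ?_⟩⟩
    rcases hl.eq_or_lt with he | hlt
    · exact ⟨N, by rw [he]; exact h2⟩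
    · refine ⟨1, ?_⟩
      rw [pow_one]
      exact (ht.below m c (WithBot.coe_lt_coe.2 hlt) N).le.trans h2

/-- the positivity relations of the points of `Option R ⊕ WithTop C` -/
private def pi (t : WithBot C → R) : Option R ⊕ WithTop C → ringA (t ⊥) → Prop
  | .inl y => fun G => 0 < G.1 y
  | .inr l => fun G => chainPos t l (G.1 none)

/-- the representation of the ordinal sum by sets -/
private def rho (R : Type) [Field R] [LinearOrder R] (C : Type) [LinearOrder C] :
    (ordSum (D1 R) C).carrier → Set (Option R ⊕ WithTop C)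
  | .inl U => Sum.inl '' U.1
  | .inr l => Set.range Sum.inl ∪ Sum.inr '' {k | k ≤ l}

private theorem small_of_abs_le {τ x y : R} (hy : Small τ y) (h : |x| ≤ |y|) : Small τ x := by
  obtain ⟨n, hn, h1⟩ := hy
  exact ⟨n, hn, (pow_le_pow_left₀ (abs_nonneg x) h n).trans h1⟩

/-- sets `{y | π y G}` -/
private theorem base_range (ht : Scale R (WithBot C) t) (G : ringA (t ⊥)) :
    ∃ d, rho R C d = {y | pi t y G} := by
  have hτ := ht.infl ⊥
  by_cases hs : Small (t ⊥) (G.1 none)
  · -- small value at infinity
    obtain ⟨a, f, n, ha, hf, hfs, hG⟩ := (mem_ringA hτ).1 G.2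
    have hn : G.1 none = a + f.coeff (2 * n) := by rw [hG]; rfl
    have has : Small (t ⊥) a := by
      have h1 : Small (t ⊥) (-f.coeff (2 * n)) := small_of_abs_le (hfs (2 * n)) (by rw [abs_neg])
      have h2 := small_add hτ hs h1
      rwa [hn, add_neg_cancel_right] at h2
    have hd : (f + Polynomial.C a * (1 + X ^ 2) ^ n : R[X]).natDegree ≤ 2 * n := by
      refine (natDegree_add_le _ _).trans (max_le hf ?_)
      refine (natDegree_C_mul_le _ _).trans ?_
      refine (natDegree_pow_le).trans ?_
      rw [mul_comm]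
      refine Nat.mul_le_mul_right _ ?_
      refine (natDegree_add_le _ _).trans (max_le ?_ ?_)
      · simp
      · simp
    have hev : G.1 = ev (f + Polynomial.C a * (1 + X ^ 2) ^ n) n := by
      rw [hG, ev_add]
      have h3 : ev (Polynomial.C a * (1 + X ^ 2) ^ n : R[X]) n = fun _ => a := by
        have h4 := ev_mul (f := (Polynomial.C a : R[X])) (g := (1 + X ^ 2 : R[X]) ^ n) (n := 0) (m := n)
          (by simp) (by
            refine (natDegree_pow_le).trans ?_
            rw [mul_comm]
            refine Nat.mul_le_mul_right _ ?_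
            refine (natDegree_add_le _ _).trans (max_le ?_ ?_)
            · simp
            · simp)
        rw [zero_add, ev_one_add] at h4
        rw [h4]
        funext x
        cases x <;> simp [ev]
      rw [h3, add_comm]
    refine ⟨Sum.inl ⟨posSet (f + Polynomial.C a * (1 + X ^ 2) ^ n) n, Gen.base ⟨_, n, hd, rfl⟩⟩, ?_⟩
    change Sum.inl '' posSet (f + Polynomial.C a * (1 + X ^ 2) ^ n) n = _
    ext y
    rcases y with y | l
    · simp only [Set.mem_image, Sum.inl.injEq, exists_eq_right]
      change 0 < ev (f + Polynomial.C a * (1 + X ^ 2) ^ n) n y ↔ 0 < G.1 y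
      rw [hev]
    · simp only [Set.mem_image, reduceCtorEq, and_false, exists_false, false_iff]
      intro h
      exact not_small_big ht h hs
  · have hne : G.1 none ≠ 0 := by
      intro h0
      apply hs
      rw [h0]
      exact ⟨1, one_pos, by simpa using hτ.1.le⟩
    have hy : ∀ y, ¬ |G.1 none| ≤ |G.1 y - G.1 none| := fun y h =>
      hs (small_of_abs_le (bdd_of_mem hτ G.2 y).2 h)
    rcases hne.lt_or_gt with h0 | h0
    · -- negative
      refine ⟨(ordSum (D1 R) C).zero, ?_⟩
      change Sum.inl '' (∅ : Set (Option R)) = _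
      rw [Set.image_empty]
      symm
      rw [Set.eq_empty_iff_forall_notMem]
      rintro (y | l) h
      · change 0 < G.1 y at h
        apply hy y
        rw [abs_of_neg h0, abs_of_pos (by linarith)]
        linarith
      · exact absurd h.1 (not_lt.2 h0.le)
    · have hpos : ∀ y, 0 < G.1 y := by
        intro y
        by_contra hc
        push Not at hc
        apply hy y
        rw [abs_of_pos h0, abs_of_nonpos (by linarith)]
        linarith
      have main : ∃ l' : WithTop C, ∀ l, chainPos t l (G.1 none) ↔ l ≤ l' := by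
        by_cases hn : ∃ n : ℕ, 1 ≤ n * G.1 none
        · exact ⟨⊤, fun l => iff_of_true ⟨h0, Or.inl hn⟩ le_top⟩
        · have hinf : Infl (G.1 none) := ⟨h0, fun n => by
            by_contra hc
            exact hn ⟨n, not_lt.1 hc⟩⟩
          obtain ⟨m, hm⟩ := ht.class_ _ hinf
          have hmb : m ≠ ⊥ := by
            intro he
            obtain ⟨N, hN, h1, h2⟩ := hm
            apply hs
            refine ⟨N, hN, ?_⟩
            rw [abs_of_pos h0]
            rw [he] at h1
            exact h1
          obtain ⟨c, hc⟩ := WithBot.ne_bot_iff_exists.1 hmb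
          rw [← hc] at hm
          exact ⟨c, fun l => chain_iff ht hinf hm l⟩
      obtain ⟨l', hl'⟩ := main
      refine ⟨Sum.inr l', ?_⟩
      change Set.range Sum.inl ∪ Sum.inr '' {k | k ≤ l'} = _
      ext y
      rcases y with y | l
      · simp only [Set.mem_union, Set.mem_range, exists_apply_eq_apply, true_or, true_iff]
        exact hpos y
      · simp only [Set.mem_union, Set.mem_range, reduceCtorEq, exists_false, Set.mem_image,
          Sum.inr.injEq, exists_eq_right, false_or, Set.mem_ofPred_eq]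
        exact (hl' l).symm

/-- the constant `t m` -/
private def const (t : WithBot C → R) (ht : Scale R (WithBot C) t) (m : WithBot C) :
    ringA (t ⊥) :=
  ⟨fun _ => t m, Subring.subset_closure (Or.inl ⟨t m, infl_bdd' (ht.infl m), rfl⟩)⟩

private theorem exists_scale (ht : Scale R (WithBot C) t) (f : R[X]) :
    ∃ K : ℕ, ∀ i, Small (t ⊥) ((Polynomial.C (t ⊥ ^ K) * f).coeff i) := by
  have h0 : 0 < t ⊥ := (ht.infl ⊥).1
  have h1 : t ⊥ < 1 := infl_lt_one (ht.infl ⊥)
  have h : ∀ i, ∃ k : ℕ, t ⊥ ^ k * |f.coeff i| ≤ 1 := by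
    intro i
    rcases (abs_nonneg (f.coeff i)).eq_or_lt with he | hlt
    · exact ⟨0, by rw [← he]; simp⟩
    · obtain ⟨k, hk⟩ := rank ht (|f.coeff i|)⁻¹ (inv_pos.2 hlt)
      refine ⟨k, ?_⟩
      calc t ⊥ ^ k * |f.coeff i| ≤ (|f.coeff i|)⁻¹ * |f.coeff i| :=
            mul_le_mul_of_nonneg_right hk hlt.le
        _ = 1 := inv_mul_cancel₀ hlt.ne'
  choose k hk using h
  refine ⟨f.support.sup k + 1, fun i => ?_⟩
  rw [coeff_C_mul]
  refine ⟨1, one_pos, ?_⟩
  rw [pow_one, abs_mul, abs_of_pos (pow_pos h0 _)]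
  by_cases hi : i ∈ f.support
  · have hle : k i ≤ f.support.sup k := Finset.le_sup hi
    calc t ⊥ ^ (f.support.sup k + 1) * |f.coeff i|
        = t ⊥ * (t ⊥ ^ (f.support.sup k) * |f.coeff i|) := by ring
      _ ≤ t ⊥ * (t ⊥ ^ (k i) * |f.coeff i|) := by
          apply mul_le_mul_of_nonneg_left _ h0.le
          exact mul_le_mul_of_nonneg_right (pow_le_pow_of_le_one h0.le h1.le hle) (abs_nonneg _)
      _ ≤ t ⊥ * 1 := mul_le_mul_of_nonneg_left (hk i) h0.le
      _ = t ⊥ := mul_one _
  · rw [mem_support_iff, not_not] at hi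
    rw [hi, abs_zero, mul_zero]
    exact h0.le

theorem rep_good {C : Type} [LinearOrder C] {t : WithBot C → R} (hR : Factors R)
    (ht : Scale R (WithBot C) t) : Rep.{0} (ordSum (D1 R) C) := by
  have hτ := ht.infl ⊥
  have h0 : 0 < t ⊥ := hτ.1
  let evA : Option R → ringA (t ⊥) →+* R := fun y =>
    (Pi.evalRingHom (fun _ : Option R => R) y).comp (ringA (t ⊥)).subtype
  have hsup : ∀ x y, rho R C ((ordSum (D1 R) C).sup x y) = rho R C x ∪ rho R C y := by
    rintro (x | x) (y | y)
    · change Sum.inl '' (x.1 ∪ y.1) = Sum.inl '' x.1 ∪ Sum.inl '' y.1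
      exact Set.image_union _ _ _
    · change Set.range Sum.inl ∪ Sum.inr '' {k | k ≤ y} =
        Sum.inl '' x.1 ∪ (Set.range Sum.inl ∪ Sum.inr '' {k | k ≤ y})
      rw [← Set.union_assoc, Set.union_eq_self_of_subset_left (Set.image_subset_range _ _)]
    · change Set.range Sum.inl ∪ Sum.inr '' {k | k ≤ x} =
        (Set.range Sum.inl ∪ Sum.inr '' {k | k ≤ x}) ∪ Sum.inl '' y.1
      rw [Set.union_right_comm, Set.union_eq_self_of_subset_right (Set.image_subset_range _ _)]
    · change Set.range Sum.inl ∪ Sum.inr '' {k | k ≤ max x y} =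
        (Set.range Sum.inl ∪ Sum.inr '' {k | k ≤ x}) ∪ (Set.range Sum.inl ∪ Sum.inr '' {k | k ≤ y})
      have : {k | k ≤ max x y} = {k | k ≤ x} ∪ {k | k ≤ y} := by
        ext k
        simp [le_max_iff]
      rw [this, Set.image_union, ← Set.union_union_distrib_left]
  have hinf : ∀ x y, rho R C ((ordSum (D1 R) C).inf x y) = rho R C x ∩ rho R C y := by
    have hmix : ∀ (U : Set (Option R)) (l : WithTop C),
        (Sum.inl '' U : Set (Option R ⊕ WithTop C)) =
        Sum.inl '' U ∩ (Set.range Sum.inl ∪ Sum.inr '' {k | k ≤ l}) := by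
      intro U l
      exact (Set.inter_eq_left.2 ((Set.image_subset_range _ _).trans Set.subset_union_left)).symm
    rintro (x | x) (y | y)
    · change Sum.inl '' (x.1 ∩ y.1) = Sum.inl '' x.1 ∩ Sum.inl '' y.1
      exact Set.image_inter Sum.inl_injective
    · exact hmix x.1 y
    · change Sum.inl '' y.1 = (Set.range Sum.inl ∪ Sum.inr '' {k | k ≤ x}) ∩ Sum.inl '' y.1
      rw [Set.inter_comm]
      exact hmix y.1 x
    · change Set.range Sum.inl ∪ Sum.inr '' {k | k ≤ min x y} =
        (Set.range Sum.inl ∪ Sum.inr '' {k | k ≤ x}) ∩ (Set.range Sum.inl ∪ Sum.inr '' {k | k ≤ y})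
      have : {k | k ≤ min x y} = {k | k ≤ x} ∩ {k | k ≤ y} := by
        ext k
        simp [le_min_iff]
      rw [this, Set.image_inter Sum.inr_injective, ← Set.union_inter_distrib_left]
  have hzero : rho R C (ordSum (D1 R) C).zero = ∅ := by
    change Sum.inl '' (∅ : Set (Option R)) = ∅
    exact Set.image_empty _
  have hone : rho R C (ordSum (D1 R) C).one = Set.univ := by
    change Set.range Sum.inl ∪ Sum.inr '' {k | k ≤ (⊤ : WithTop C)} = Set.univ
    rw [Set.eq_univ_iff_forall]
    rintro (y | l)
    · exact Or.inl ⟨y, rfl⟩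
    · exact Or.inr ⟨l, (le_top : l ≤ ⊤), rfl⟩
  refine rep_of (ordSum (D1 R) C) (pi t) ?_ ?_ (rho R C) ?_ hsup hinf hzero hone ?_
  · rintro (y | l)
    · exact isPos_ev (evA y)
    · exact isPos_chain ht.infl (evA none) fun G => (bdd_of_mem hτ G.2 none).1
  · intro α F
    have hP := RealPt.isPos α
    by_cases hT : α.Pos (const t ht ⊥)
    · obtain ⟨y, hy⟩ := case1 hR hτ (rank ht) hP (fun T hT' => by
        have : T = const t ht ⊥ := Subtype.ext hT'
        rw [this]
        exact hT) F
      exact ⟨Sum.inl y, hy⟩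
    · obtain ⟨l, hl⟩ := case2 hR ht hP (fun T hT' => by
        have : T = const t ht ⊥ := Subtype.ext hT'
        rw [this]
        exact hT) F
      exact ⟨Sum.inr l, hl⟩
  · rintro (x | x) (y | y) h
    · change Sum.inl '' x.1 = Sum.inl '' y.1 at h
      rw [Subtype.ext (Sum.inl_injective.image_injective h)]
    · exfalso
      change Sum.inl '' x.1 = Set.range Sum.inl ∪ Sum.inr '' {k | k ≤ y} at h
      have h1 : (Sum.inr y : Option R ⊕ WithTop C) ∈
          (Set.range Sum.inl ∪ Sum.inr '' {k | k ≤ y} : Set (Option R ⊕ WithTop C)) :=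
        Or.inr ⟨y, (le_rfl : y ≤ y), rfl⟩
      rw [← h] at h1
      obtain ⟨z, -, hz⟩ := h1
      exact absurd hz Sum.inl_ne_inr
    · exfalso
      change Set.range Sum.inl ∪ Sum.inr '' {k | k ≤ x} = Sum.inl '' y.1 at h
      have h1 : (Sum.inr x : Option R ⊕ WithTop C) ∈
          (Set.range Sum.inl ∪ Sum.inr '' {k | k ≤ x} : Set (Option R ⊕ WithTop C)) :=
        Or.inr ⟨x, (le_rfl : x ≤ x), rfl⟩
      rw [h] at h1
      obtain ⟨z, -, hz⟩ := h1
      exact absurd hz Sum.inl_ne_inr
    · change Set.range Sum.inl ∪ Sum.inr '' {k | k ≤ x} =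
        Set.range Sum.inl ∪ Sum.inr '' {k | k ≤ y} at h
      have key : ∀ x y : WithTop C, (Set.range Sum.inl ∪ Sum.inr '' {k | k ≤ x} :
          Set (Option R ⊕ WithTop C)) = Set.range Sum.inl ∪ Sum.inr '' {k | k ≤ y} → x ≤ y := by
        intro x y h
        have h1 : (Sum.inr x : Option R ⊕ WithTop C) ∈
            (Set.range Sum.inl ∪ Sum.inr '' {k | k ≤ x} : Set (Option R ⊕ WithTop C)) :=
          Or.inr ⟨x, (le_rfl : x ≤ x), rfl⟩
        rw [h] at h1
        rcases h1 with ⟨z, hz⟩ | ⟨z, hz, hz'⟩
        · exact absurd hz Sum.inl_ne_inr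
        · rw [← Sum.inr_injective hz']
          exact hz
      rw [le_antisymm (key x y h) (key y x h.symm)]
  · intro U
    constructor
    · rintro ⟨d, rfl⟩
      rcases d with ⟨U, hU⟩ | l
      · change Gen _ (Sum.inl '' U)
        induction hU with
        | base hU =>
          obtain ⟨f, n, hf, rfl⟩ := hU
          obtain ⟨K, hK⟩ := exists_scale ht f
          have hmem : ev (Polynomial.C (t ⊥ ^ K) * f) n ∈ ringA (t ⊥) :=
            Subring.subset_closure (Or.inr ⟨_, n, (natDegree_C_mul_le _ _).trans hf, hK, rfl⟩)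
          refine Gen.base ⟨⟨_, hmem⟩, ?_⟩
          ext y
          rcases y with y | l
          · simp only [Set.mem_image, Sum.inl.injEq, exists_eq_right]
            change 0 < ev f n y ↔ 0 < ev (Polynomial.C (t ⊥ ^ K) * f) n y
            have : ev (Polynomial.C (t ⊥ ^ K) * f) n y = t ⊥ ^ K * ev f n y := by
              cases y with
              | none =>
                change (Polynomial.C (t ⊥ ^ K) * f).coeff (2 * n) = t ⊥ ^ K * f.coeff (2 * n)
                exact coeff_C_mul _
              | some x => simp [ev, mul_div_assoc]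
            rw [this]
            exact (mul_pos_iff_of_pos_left (pow_pos h0 K)).symm
          · simp only [Set.mem_image, reduceCtorEq, and_false, exists_false, false_iff]
            intro h
            exact not_small_big ht h (hK (2 * n))
        | empty =>
          rw [Set.image_empty]
          exact Gen.empty
        | univ =>
          refine Gen.base ⟨const t ht ⊥, ?_⟩
          ext y
          rcases y with y | l
          · simp only [Set.image_univ, Set.mem_range, exists_apply_eq_apply, true_iff]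
            exact h0
          · simp only [Set.image_univ, Set.mem_range, reduceCtorEq, exists_false, false_iff]
            intro h
            exact not_small_big ht h ⟨1, one_pos, by
              rw [pow_one]
              exact (abs_of_pos h0).le⟩
        | union _ _ h1 h2 =>
          rw [Set.image_union]
          exact Gen.union h1 h2
        | inter _ _ h1 h2 =>
          rw [Set.image_inter Sum.inl_injective]
          exact Gen.inter h1 h2
      · induction l using WithTop.recTopCoe with
        | top =>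
          have := hone
          change Gen _ (rho R C (ordSum (D1 R) C).one)
          rw [this]
          exact Gen.univ
        | coe c =>
          refine Gen.base ⟨const t ht c, ?_⟩
          have hcc : Comm (t c) (t c) := ⟨1, one_pos, by simp, by simp⟩
          change Set.range Sum.inl ∪ Sum.inr '' {k | k ≤ (c : WithTop C)} = _
          ext y
          rcases y with y | l
          · simp only [Set.mem_union, Set.mem_range, exists_apply_eq_apply, true_or, true_iff]
            exact (ht.infl c).1
          · simp only [Set.mem_union, Set.mem_range, reduceCtorEq, exists_false, Set.mem_image,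
              Sum.inr.injEq, exists_eq_right, false_or, Set.mem_ofPred_eq]
            exact (chain_iff ht (ht.infl c) hcc l).symm
    · intro h
      induction h with
      | base hU =>
        obtain ⟨G, rfl⟩ := hU
        exact base_range ht G
      | empty => exact ⟨_, hzero⟩
      | univ => exact ⟨_, hone⟩
      | union _ _ h1 h2 =>
        obtain ⟨x, hx⟩ := h1
        obtain ⟨y, hy⟩ := h2
        exact ⟨_, by rw [hsup x y, hx, hy]⟩
      | inter _ _ h1 h2 =>
        obtain ⟨x, hx⟩ := h1
        obtain ⟨y, hy⟩ := h2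
        exact ⟨_, by rw [hinf x y, hx, hy]⟩

end Scale

end Pool.Agent.SpecR
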