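import Pool.Agent.SpecR.Defs

/-!
# SR5: back-and-forth between two trees
-/

set_option autoImplicit false

namespace Pool.Agent.SpecR

private lemma tbf_countable (a : Om) : (Set.Iio a).Countable := by
  have h : Cardinal.mk (Set.Iio a) < Cardinal.aleph 1 := by
    have key : ∀ o : Ordinal.{0}, o = (Cardinal.aleph 1).ord → ∀ a : o.ToType,
        Cardinal.mk (Set.Iio a) < Cardinal.aleph 1 := by
      rintro o rfl a
      exact Cardinal.mk_Iio_toType_ord_lt a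
    exact key _ (Cardinal.ord_aleph 1).symm a
  rw [← Cardinal.le_aleph0_iff_set_countable, ← Order.lt_succ_iff, Cardinal.succ_aleph0]
  exact h

private lemma tbf_uncountable : ¬ (Set.univ : Set Om).Countable := by
  intro h
  rw [← Cardinal.le_aleph0_iff_set_countable, Cardinal.mk_univ] at h
  have key : ∀ o : Ordinal.{0}, o = (Cardinal.aleph 1).ord →
      Cardinal.mk o.ToType = Cardinal.aleph 1 := by
    rintro o rfl
    exact Cardinal.mk_ord_toType _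
  rw [key _ (Cardinal.ord_aleph 1).symm, ← Cardinal.succ_aleph0] at h
  exact absurd h (not_le.2 (Order.lt_succ _))

private lemma tbf_bounded (S : Set Om) (hS : S.Countable) : ∃ b, ∀ a ∈ S, a ≤ b := by
  by_contra hcon
  push Not at hcon
  apply tbf_uncountable
  refine (hS.biUnion fun a _ => tbf_countable a).mono ?_
  intro b _
  obtain ⟨a, ha, hab⟩ := hcon b
  exact Set.mem_biUnion ha hab

/-- shift a value -/
private def tbfMap (k : ℤ) (x : WithBot ℤ) : WithBot ℤ := x.map fun z => z - k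

private lemma tbfMap_bot (k : ℤ) : tbfMap k ⊥ = ⊥ := rfl

private lemma tbfMap_coe (k z : ℤ) : tbfMap k (z : WithBot ℤ) = ((z - k : ℤ) : WithBot ℤ) := rfl

private lemma tbfMap_neg (k : ℤ) (x : WithBot ℤ) : tbfMap k (tbfMap (-k) x) = x := by
  induction x using WithBot.recBotCoe with
  | bot => rfl
  | coe z =>
    rw [tbfMap_coe, tbfMap_coe]
    congr 1
    ring

private lemma tbfMap_ne (k : ℤ) {x : WithBot ℤ} (h : x ≠ ⊥) : tbfMap k x ≠ ⊥ := by
  induction x using WithBot.recBotCoe with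
  | bot => exact absurd rfl h
  | coe z => exact WithBot.coe_ne_bot

private lemma tbfMap_lt (k : ℤ) (x y : WithBot ℤ) : tbfMap k x < tbfMap k y ↔ x < y := by
  induction x using WithBot.recBotCoe with
  | bot =>
    induction y using WithBot.recBotCoe with
    | bot => exact Iff.rfl
    | coe w => exact iff_of_true (WithBot.bot_lt_coe _) (WithBot.bot_lt_coe _)
  | coe z =>
    induction y using WithBot.recBotCoe with
    | bot => exact iff_of_false not_lt_bot not_lt_bot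
    | coe w =>
      rw [tbfMap_coe, tbfMap_coe, WithBot.coe_lt_coe, WithBot.coe_lt_coe]
      omega

private lemma tbfMap_inj (k : ℤ) (x y : WithBot ℤ) : tbfMap k x = tbfMap k y ↔ x = y := by
  constructor
  · intro h
    rcases lt_trichotomy x y with h1 | h1 | h1
    · exact absurd h ((tbfMap_lt k x y).2 h1).ne
    · exact h1
    · exact absurd h ((tbfMap_lt k y x).2 h1).ne'
  · intro h
    rw [h]

private lemma tbf_lt {e : Om → Om → ℤ} (x y : Tree e) :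
    x < y ↔ ∃ i, (∀ j, j < i → ofLex x.1 j = ofLex y.1 j) ∧ ofLex x.1 i < ofLex y.1 i := Iff.rfl

/-- the partial isomorphism given by a level and a function -/
private def tbfG (e : Om → Om → ℤ) (a : Om) (h : Om → ℤ) :
    Set (Tree e × Tree fun _ _ => 0) :=
  {p | (∀ ξ, a ≤ ξ → ofLex p.1.1 ξ = ⊥) ∧
    ∀ ξ, ofLex p.2.1 ξ = tbfMap (h ξ) (ofLex p.1.1 ξ)}

private lemma tbf_iff {e : Om → Om → ℤ} {a : Om} {h : Om → ℤ}
    {p q : Tree e × Tree fun _ _ => 0} (hp : p ∈ tbfG e a h) (hq : q ∈ tbfG e a h) :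
    p.1 < q.1 ↔ p.2 < q.2 := by
  rw [tbf_lt, tbf_lt]
  refine exists_congr fun i => and_congr (forall_congr' fun j => imp_congr_right fun _ => ?_) ?_
  · rw [hp.2, hq.2, tbfMap_inj]
  · rw [hp.2, hq.2, tbfMap_lt]

/-- extension -/
private lemma tbf_ext {e : Om → Om → ℤ} (he : Coherent e) {a : Om} {h : Om → ℤ}
    (hh : {ξ | ξ < a ∧ h ξ ≠ e a ξ}.Finite) (L : Set Om) (hL : L.Countable) :
    ∃ (b : Om) (h' : Om → ℤ), {ξ | ξ < b ∧ h' ξ ≠ e b ξ}.Finite ∧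
      tbfG e a h ⊆ tbfG e b h' ∧ ∀ c ∈ L, c ≤ b := by
  classical
  obtain ⟨b, hb⟩ := tbf_bounded (insert a L) (hL.insert a)
  have hab : a ≤ b := hb a (Set.mem_insert _ _)
  refine ⟨b, fun ξ => if ξ < a then h ξ else e b ξ, ?_, ?_,
    fun c hc => hb c (Set.mem_insert_of_mem _ hc)⟩
  · refine (hh.union (he.coh a b hab)).subset ?_
    rintro ξ ⟨_, h2⟩
    by_cases h3 : ξ < a
    · simp only [if_pos h3] at h2
      by_cases h4 : h ξ = e a ξ
      · right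
        refine ⟨h3, ?_⟩
        rw [← h4]
        exact h2
      · exact Or.inl ⟨h3, h4⟩
    · simp only [if_neg h3] at h2
      exact absurd rfl h2
  · rintro p ⟨h1, h2⟩
    refine ⟨fun ξ hξ => h1 ξ (hab.trans hξ), fun ξ => ?_⟩
    rw [h2]
    by_cases h3 : ξ < a
    · simp only [if_pos h3]
    · rw [h1 ξ (not_lt.1 h3)]
      rfl

/-- nearly equal functions -/
private lemma tbf_near {e : Om → Om → ℤ} (he : Coherent e) {b c : Om} {h : Om → ℤ}
    (hh : {ξ | ξ < b ∧ h ξ ≠ e b ξ}.Finite) (hc : c ≤ b) :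
    {ξ | ξ < c ∧ h ξ ≠ e c ξ}.Finite := by
  refine (hh.union (he.coh c b hc)).subset ?_
  rintro ξ ⟨h1, h2⟩
  by_cases h3 : h ξ = e b ξ
  · right
    refine ⟨h1, ?_⟩
    rw [← h3]
    exact h2.symm
  · exact Or.inl ⟨h1.trans_le hc, h3⟩

theorem tree_bf {e : Om → Om → ℤ} (he : Coherent e) : BF (Tree e) (Tree fun _ _ => 0) := by
  classical
  refine ⟨{G | ∃ (a : Om) (h : Om → ℤ), {ξ | ξ < a ∧ h ξ ≠ e a ξ}.Finite ∧ G = tbfG e a h},
    ?_, ?_, ?_, ?_⟩
  · obtain ⟨a, _⟩ := tbf_bounded ∅ Set.countable_empty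
    refine ⟨_, a, e a, ?_, rfl⟩
    refine Set.finite_empty.subset ?_
    rintro ξ ⟨_, h⟩
    exact h rfl
  · rintro _ ⟨a, h, hh, rfl⟩ p hp q hq
    exact tbf_iff hp hq
  · rintro _ ⟨a, h, hh, rfl⟩ S hS
    have hlev : ∀ x : Tree e, ∃ c : Om, (∀ ξ, c ≤ ξ → ofLex x.1 ξ = ⊥) ∧
        (∀ ξ, ξ < c → ofLex x.1 ξ ≠ ⊥) ∧
        {ξ | ξ < c ∧ ofLex x.1 ξ ≠ (e c ξ : WithBot ℤ)}.Finite := fun x => x.2
    choose lev hlev using hlev
    obtain ⟨b, h', h1, h2, h3⟩ := tbf_ext he hh (lev '' S) (hS.image lev)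
    refine ⟨_, ⟨b, h', h1, rfl⟩, h2, fun x hx => ?_⟩
    obtain ⟨l1, l2, l3⟩ := hlev x
    have hc : lev x ≤ b := h3 _ (Set.mem_image_of_mem _ hx)
    refine ⟨⟨toLex fun ξ => tbfMap (h' ξ) (ofLex x.1 ξ), lev x, ?_, ?_, ?_⟩, ?_, ?_⟩
    · intro ξ hξ
      change tbfMap (h' ξ) (ofLex x.1 ξ) = ⊥
      rw [l1 ξ hξ]
      rfl
    · intro ξ hξ
      exact tbfMap_ne _ (l2 ξ hξ)
    · refine (l3.union (tbf_near he h1 hc)).subset ?_
      rintro ξ ⟨k1, k2⟩
      change tbfMap (h' ξ) (ofLex x.1 ξ) ≠ ((0 : ℤ) : WithBot ℤ) at k2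
      by_cases k3 : ofLex x.1 ξ = (e (lev x) ξ : WithBot ℤ)
      · right
        refine ⟨k1, fun k4 => k2 ?_⟩
        rw [k3, k4, tbfMap_coe, sub_self]
      · exact Or.inl ⟨k1, k3⟩
    · intro ξ hξ
      exact l1 ξ (hc.trans hξ)
    · intro ξ
      rfl
  · rintro _ ⟨a, h, hh, rfl⟩ S hS
    have hlev : ∀ x : Tree fun _ _ => 0, ∃ c : Om, (∀ ξ, c ≤ ξ → ofLex x.1 ξ = ⊥) ∧
        (∀ ξ, ξ < c → ofLex x.1 ξ ≠ ⊥) ∧
        {ξ | ξ < c ∧ ofLex x.1 ξ ≠ ((0 : ℤ) : WithBot ℤ)}.Finite := fun x => x.2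
    choose lev hlev using hlev
    obtain ⟨b, h', h1, h2, h3⟩ := tbf_ext he hh (lev '' S) (hS.image lev)
    refine ⟨_, ⟨b, h', h1, rfl⟩, h2, fun x hx => ?_⟩
    obtain ⟨l1, l2, l3⟩ := hlev x
    have hc : lev x ≤ b := h3 _ (Set.mem_image_of_mem _ hx)
    refine ⟨⟨toLex fun ξ => tbfMap (-h' ξ) (ofLex x.1 ξ), lev x, ?_, ?_, ?_⟩, ?_, ?_⟩
    · intro ξ hξ
      change tbfMap (-h' ξ) (ofLex x.1 ξ) = ⊥
      rw [l1 ξ hξ]
      rfl
    · intro ξ hξ
      exact tbfMap_ne _ (l2 ξ hξ)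
    · refine (l3.union (tbf_near he h1 hc)).subset ?_
      rintro ξ ⟨k1, k2⟩
      change tbfMap (-h' ξ) (ofLex x.1 ξ) ≠ (e (lev x) ξ : WithBot ℤ) at k2
      by_cases k3 : ofLex x.1 ξ = ((0 : ℤ) : WithBot ℤ)
      · right
        refine ⟨k1, fun k4 => k2 ?_⟩
        rw [k3, ← k4, tbfMap_coe, zero_sub, neg_neg]
      · exact Or.inl ⟨k1, k3⟩
    · intro ξ hξ
      change tbfMap (-h' ξ) (ofLex x.1 ξ) = ⊥
      rw [l1 ξ (hc.trans hξ)]
      rfl
    · intro ξ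
      exact (tbfMap_neg (h' ξ) (ofLex x.1 ξ)).symm

theorem exists_strictMono : ∃ f : Om → Tree fun _ _ => 0, StrictMono f := by
  classical
  refine ⟨fun a => ⟨toLex fun ξ => if ξ < a then ((0 : ℤ) : WithBot ℤ) else ⊥, a, ?_, ?_, ?_⟩,
    ?_⟩
  · intro ξ hξ
    exact if_neg (not_lt.2 hξ)
  · intro ξ hξ
    change (if ξ < a then ((0 : ℤ) : WithBot ℤ) else ⊥) ≠ ⊥
    rw [if_pos hξ]
    exact WithBot.coe_ne_bot
  · refine Set.finite_empty.subset ?_
    rintro ξ ⟨h1, h2⟩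
    exact h2 (if_pos h1)
  · intro a b hab
    rw [tbf_lt]
    refine ⟨a, fun j hj => ?_, ?_⟩
    · change (if j < a then ((0 : ℤ) : WithBot ℤ) else ⊥) =
        if j < b then ((0 : ℤ) : WithBot ℤ) else ⊥
      rw [if_pos hj, if_pos (hj.trans hab)]
    · change (if a < a then ((0 : ℤ) : WithBot ℤ) else ⊥) <
        if a < b then ((0 : ℤ) : WithBot ℤ) else ⊥
      rw [if_neg (lt_irrefl a), if_pos hab]
      exact WithBot.bot_lt_coe _

end Pool.Agent.SpecR
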