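import Pool.Agent.SpecR.Defs

/-!
# SR6: the Aronszajn line has no monotone sequences of length `ω₁`
-/

set_option autoImplicit false

namespace Pool.Agent.SpecR

private lemma ts_mk_om : Cardinal.mk Om = Cardinal.aleph 1 := by
  rw [Cardinal.mk_toType, Ordinal.card_omega]

private lemma ts_countable_Iio (a : Om) : (Set.Iio a).Countable := by
  have h : Cardinal.mk (Set.Iio a) < Cardinal.aleph 1 := by
    have key : ∀ o : Ordinal.{0}, o = (Cardinal.aleph 1).ord → ∀ a : o.ToType,
        Cardinal.mk (Set.Iio a) < Cardinal.aleph 1 := by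
      rintro o rfl a
      have := Cardinal.mk_Iio_lt a (by simp)
      simpa using this
    exact key _ (Cardinal.ord_aleph 1).symm a
  rw [← Cardinal.le_aleph0_iff_set_countable, ← Order.lt_succ_iff, Cardinal.succ_aleph0]
  exact h

private lemma ts_uncountable : ¬ (Set.univ : Set Om).Countable := by
  intro h
  rw [← Cardinal.le_aleph0_iff_set_countable, Cardinal.mk_univ, ts_mk_om] at h
  exact absurd h (not_le.2 (Cardinal.aleph0_lt_aleph_one))

/-- countable families are bounded -/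
private lemma ts_bounded {α : Type} [Countable α] (f : α → Om) : ∃ a, ∀ x, f x ≤ a := by
  by_contra h
  push Not at h
  apply ts_uncountable
  refine (Set.countable_iUnion fun x => ts_countable_Iio (f x)).mono ?_
  intro a _
  obtain ⟨x, hx⟩ := h a
  exact Set.mem_iUnion.2 ⟨x, hx⟩

private lemma ts_exists_gt (a : Om) : ∃ b, a < b := by
  by_contra h
  push Not at h
  apply ts_uncountable
  refine ((ts_countable_Iio a).union (Set.countable_singleton a)).mono ?_
  intro b _
  exact (h b).lt_or_eq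

/-- a monotone family of subsets of a countable set is eventually constant -/
theorem eventually_const_set {α : Type} [Countable α] (s : Om → Set α) (hs : Monotone s) :
    ∃ a, ∀ b, a ≤ b → s b = s a := by
  classical
  obtain ⟨a, ha⟩ := ts_bounded fun x : {x : α // ∃ a, x ∈ s a} => x.2.choose
  refine ⟨a, fun b hab => Set.Subset.antisymm ?_ (hs hab)⟩
  intro x hx
  have h : ∃ a, x ∈ s a := ⟨b, hx⟩
  exact hs (ha ⟨x, h⟩) h.choose_spec

private def NodeAt (e : Om → Om → ℤ) (a : Om) (f : Om → WithBot ℤ) : Prop :=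
  (∀ ξ, a ≤ ξ → f ξ = ⊥) ∧ (∀ ξ, ξ < a → f ξ ≠ ⊥) ∧
    {ξ | ξ < a ∧ f ξ ≠ (e a ξ : WithBot ℤ)}.Finite

private def tcode (e : Om → Om → ℤ) (a : Om) (f : Om → WithBot ℤ) : Set (Om × WithBot ℤ) :=
  (fun ξ => (ξ, f ξ)) '' {ξ | ξ < a ∧ f ξ ≠ (e a ξ : WithBot ℤ)}

private lemma tcode_finite {e : Om → Om → ℤ} {a : Om} {f : Om → WithBot ℤ} (h : NodeAt e a f) :
    (tcode e a f).Finite := h.2.2.image _

private lemma tcode_inj {e : Om → Om → ℤ} {a : Om} {f g : Om → WithBot ℤ} (hf : NodeAt e a f)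
    (hg : NodeAt e a g) (h : tcode e a f = tcode e a g) : f = g := by
  funext ξ
  by_cases hξ : ξ < a
  · by_cases h1 : f ξ = (e a ξ : WithBot ℤ)
    · by_cases h2 : g ξ = (e a ξ : WithBot ℤ)
      · rw [h1, h2]
      · have h3 : (ξ, g ξ) ∈ tcode e a f := by
          rw [h]
          exact ⟨ξ, ⟨hξ, h2⟩, rfl⟩
        obtain ⟨ξ', _, h4⟩ := h3
        obtain ⟨rfl, h5⟩ := Prod.mk.inj h4
        exact h5
    · have h3 : (ξ, f ξ) ∈ tcode e a g := by
        rw [← h]
        exact ⟨ξ, ⟨hξ, h1⟩, rfl⟩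
      obtain ⟨ξ', _, h4⟩ := h3
      obtain ⟨rfl, h5⟩ := Prod.mk.inj h4
      exact h5.symm
  · rw [hf.1 ξ (not_lt.1 hξ), hg.1 ξ (not_lt.1 hξ)]

private lemma nodes_countable (e : Om → Om → ℤ) (a : Om) :
    {f : Om → WithBot ℤ | ∃ b, b ≤ a ∧ NodeAt e b f}.Countable := by
  have h1 : ∀ b, {f : Om → WithBot ℤ | NodeAt e b f}.Countable := by
    intro b
    have hc : (Set.Iio b ×ˢ (Set.univ : Set (WithBot ℤ))).Countable := by
      have : Countable (WithBot ℤ) := inferInstanceAs (Countable (Option ℤ))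
      exact (ts_countable_Iio b).prod Set.countable_univ
    refine Set.MapsTo.countable_of_injOn (f := tcode e b) ?_ ?_
      (Set.countable_ofPred_finite_subset hc)
    · intro f hf
      refine ⟨tcode_finite hf, ?_⟩
      rintro _ ⟨ξ, h, rfl⟩
      exact ⟨h.1, Set.mem_univ _⟩
    · intro f hf g hg h
      exact tcode_inj hf hg h
  have h2 : {f : Om → WithBot ℤ | ∃ b, b ≤ a ∧ NodeAt e b f} =
      ⋃ b ∈ Set.Iic a, {f : Om → WithBot ℤ | NodeAt e b f} := by
    ext f
    simp
  rw [h2]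
  refine Set.Countable.biUnion ?_ fun b _ => h1 b
  refine ((ts_countable_Iio a).union (Set.countable_singleton a)).mono ?_
  intro b hb
  exact (le_iff_lt_or_eq.1 (Set.mem_Iic.1 hb))

open Classical in
private noncomputable def res (a : Om) (f : Om → WithBot ℤ) : Om → WithBot ℤ :=
  fun ξ => if ξ < a then f ξ else ⊥

private lemma res_lt {a ξ : Om} (h : ξ < a) (f : Om → WithBot ℤ) : res a f ξ = f ξ := if_pos h

private lemma res_ge {a ξ : Om} (h : a ≤ ξ) (f : Om → WithBot ℤ) : res a f ξ = ⊥ :=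
  if_neg (not_lt.2 h)

private lemma res_res {a b : Om} (h : a ≤ b) (f : Om → WithBot ℤ) : res a (res b f) = res a f := by
  funext ξ
  by_cases hξ : ξ < a
  · rw [res_lt hξ, res_lt hξ, res_lt (hξ.trans_le h)]
  · rw [res_ge (not_lt.1 hξ), res_ge (not_lt.1 hξ)]

private lemma res_node {e : Om → Om → ℤ} (he : Coherent e) {a b : Om} {f : Om → WithBot ℤ}
    (hf : NodeAt e b f) : NodeAt e (min a b) (res a f) := by
  refine ⟨?_, ?_, ?_⟩
  · intro ξ hξ
    by_cases h : ξ < a
    · rw [res_lt h]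
      refine hf.1 ξ ?_
      rcases min_le_iff.1 hξ with h1 | h1
      · exact absurd h (not_lt.2 h1)
      · exact h1
    · exact res_ge (not_lt.1 h) f
  · intro ξ hξ
    rw [lt_min_iff] at hξ
    rw [res_lt hξ.1]
    exact hf.2.1 ξ hξ.2
  · refine (hf.2.2.union (he.coh (min a b) b (min_le_right a b))).subset ?_
    rintro ξ ⟨h1, h2⟩
    have h3 := lt_min_iff.1 h1
    rw [res_lt h3.1] at h2
    by_cases h4 : f ξ = (e b ξ : WithBot ℤ)
    · right
      refine ⟨h1, fun h5 => h2 ?_⟩
      rw [h4, h5]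
    · left
      exact ⟨h3.2, h4⟩

private lemma res_mono (a : Om) {f g : Om → WithBot ℤ} (h : toLex f ≤ toLex g) :
    toLex (res a f) ≤ toLex (res a g) := by
  rcases h.eq_or_lt with h | h
  · rw [toLex.injective h]
  · obtain ⟨i, h1, h2⟩ := h
    by_cases hi : i < a
    · refine le_of_lt ⟨i, ?_, ?_⟩
      · intro j hj
        show res a f j = res a g j
        rw [res_lt (hj.trans hi), res_lt (hj.trans hi)]
        exact h1 j hj
      · show res a f i < res a g i
        rw [res_lt hi, res_lt hi]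
        exact h2
    · refine le_of_eq ?_
      congr 1
      funext ξ
      by_cases hξ : ξ < a
      · rw [res_lt hξ, res_lt hξ]
        exact h1 ξ (hξ.trans_le (not_lt.1 hi))
      · rw [res_ge (not_lt.1 hξ), res_ge (not_lt.1 hξ)]

/-- the key argument -/
private lemma no_seq {e : Om → Om → ℤ} (he : Coherent e) (φ : Om → Om → WithBot ℤ)
    (hinj : Function.Injective φ) (hφ : ∀ ξ, ∃ a, NodeAt e a (φ ξ))
    (hc : ∀ a, ∃ x, ∀ ξ, x ≤ ξ → res a (φ ξ) = res a (φ x)) : False := by
  choose x hx using hc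
  choose t ht using ts_exists_gt
  have hG : ∀ a, NodeAt e a (res a (φ (x a))) := by
    intro a
    obtain ⟨b, hb⟩ := hφ (x a)
    have h1 := res_node he (a := a) hb
    by_cases hab : a ≤ b
    · rwa [min_eq_left hab] at h1
    · exfalso
      rw [not_le] at hab
      have h2 : ∀ ξ, x a ≤ ξ → φ ξ ∈ {f : Om → WithBot ℤ | ∃ c, c ≤ b ∧ NodeAt e c f} := by
        intro ξ hξ
        obtain ⟨c, hc⟩ := hφ ξ
        refine ⟨c, ?_, hc⟩
        by_contra hcb
        rw [not_le] at hcb
        have h3 := congrFun (hx a ξ hξ) b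
        rw [res_lt hab, res_lt hab, hb.1 b le_rfl] at h3
        exact hc.2.1 b hcb h3
      have h3 : (φ ⁻¹' {f : Om → WithBot ℤ | ∃ c, c ≤ b ∧ NodeAt e c f}).Countable :=
        (nodes_countable e b).preimage_of_injOn hinj.injOn
      apply ts_uncountable
      refine ((ts_countable_Iio (x a)).union h3).mono ?_
      intro ξ _
      rcases lt_or_ge ξ (x a) with h4 | h4
      · exact Or.inl h4
      · exact Or.inr (h2 ξ h4)
  have hcoh : ∀ a b, a ≤ b → res a (φ (x a)) = res a (res b (φ (x b))) := by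
    intro a b hab
    rw [← hx a (max (x a) (x b)) (le_max_left _ _), ← hx b (max (x a) (x b)) (le_max_right _ _),
      res_res hab]
  set F : Om → WithBot ℤ := fun ξ => res (t ξ) (φ (x (t ξ))) ξ with hF
  have hFG : ∀ a ξ, ξ < a → F ξ = res a (φ (x a)) ξ := by
    intro a ξ hξ
    rcases le_total a (t ξ) with h | h
    · rw [hcoh a (t ξ) h, res_lt hξ]
    · show res (t ξ) (φ (x (t ξ))) ξ = _
      rw [hcoh (t ξ) a h, res_lt (ht ξ)]
  have hFfin : ∀ (n : ℤ) a, {ξ | ξ < a ∧ F ξ = n}.Finite := by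
    intro n a
    refine ((he.finite a n).union (hG a).2.2).subset ?_
    rintro ξ ⟨h1, h2⟩
    by_cases h3 : e a ξ = n
    · exact Or.inl ⟨h1, h3⟩
    · right
      refine ⟨h1, ?_⟩
      rw [← hFG a ξ h1, h2]
      exact fun h4 => h3 (WithBot.coe_injective h4).symm
  have hbot : ∀ ξ, F ξ ≠ ⊥ := by
    intro ξ
    rw [hFG (t ξ) ξ (ht ξ)]
    exact (hG (t ξ)).2.1 ξ (ht ξ)
  obtain ⟨n, hn⟩ : ∃ n : ℤ, ¬ {ξ | F ξ = n}.Countable := by
    by_contra h
    push Not at h
    apply ts_uncountable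
    refine (Set.countable_iUnion h).mono ?_
    intro ξ _
    obtain ⟨n, hn⟩ := WithBot.ne_bot_iff_exists.1 (hbot ξ)
    exact Set.mem_iUnion.2 ⟨n, hn.symm⟩
  have hinf : {ξ | F ξ = n}.Infinite := fun h => hn h.countable
  let u := hinf.natEmbedding
  obtain ⟨a, ha⟩ := ts_bounded fun i => ((u i : {ξ | F ξ = n}) : Om)
  have h1 : (Set.range fun i => ((u i : {ξ | F ξ = n}) : Om)).Infinite :=
    Set.infinite_range_of_injective (Subtype.val_injective.comp u.injective)
  apply h1
  refine (hFfin n (t a)).subset ?_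
  rintro _ ⟨i, rfl⟩
  exact ⟨(ha i).trans_lt (ht a), (u i).2⟩

theorem tree_short {e : Om → Om → ℤ} (he : Coherent e) : Short (Tree e) := by
  have key : ∀ f : Om → Tree e, Function.Injective f →
      (∀ a, ∃ x, ∀ ξ, x ≤ ξ → res a (ofLex (f ξ).1) = res a (ofLex (f x).1)) → False := by
    intro f hf hc
    refine no_seq he (fun ξ => ofLex (f ξ).1) ?_ (fun ξ => (f ξ).2) hc
    intro ξ ξ' h
    exact hf (Subtype.ext (ofLex.injective h))
  have hmem : ∀ (f : Tree e) (a : Om),
      res a (ofLex f.1) ∈ {f : Om → WithBot ℤ | ∃ b, b ≤ a ∧ NodeAt e b f} := by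
    intro f a
    obtain ⟨b, hb⟩ := f.2
    exact ⟨min a b, min_le_left _ _, res_node he hb⟩
  constructor
  · intro f hf
    refine key f hf.injective fun a => ?_
    have hcount : Countable {f : Om → WithBot ℤ | ∃ b, b ≤ a ∧ NodeAt e b f} :=
      (nodes_countable e a).to_subtype
    obtain ⟨x, hx⟩ := eventually_const_set
      (fun ξ => {g : {f : Om → WithBot ℤ | ∃ b, b ≤ a ∧ NodeAt e b f} |
        toLex g.1 ≤ toLex (res a (ofLex (f ξ).1))}) (by
        intro ξ ξ' h g hg
        exact le_trans hg (res_mono a (hf.monotone h)))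
    refine ⟨x, fun ξ hξ => ?_⟩
    have h1 := hx ξ hξ
    have h2 : (⟨_, hmem (f ξ) a⟩ : {f : Om → WithBot ℤ | ∃ b, b ≤ a ∧ NodeAt e b f}) ∈
        {g : {f : Om → WithBot ℤ | ∃ b, b ≤ a ∧ NodeAt e b f} |
        toLex g.1 ≤ toLex (res a (ofLex (f x).1))} := by
      rw [← h1]
      exact le_refl (toLex (res a (ofLex (f ξ).1)))
    exact toLex.injective (le_antisymm h2 (res_mono a (hf.monotone hξ)))
  · intro f hf
    refine key f hf.injective fun a => ?_
    have hcount : Countable {f : Om → WithBot ℤ | ∃ b, b ≤ a ∧ NodeAt e b f} :=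
      (nodes_countable e a).to_subtype
    obtain ⟨x, hx⟩ := eventually_const_set
      (fun ξ => {g : {f : Om → WithBot ℤ | ∃ b, b ≤ a ∧ NodeAt e b f} |
        toLex (res a (ofLex (f ξ).1)) ≤ toLex g.1}) (by
        intro ξ ξ' h g hg
        exact le_trans (res_mono a (hf.antitone h)) hg)
    refine ⟨x, fun ξ hξ => ?_⟩
    have h1 := hx ξ hξ
    have h2 : (⟨_, hmem (f ξ) a⟩ : {f : Om → WithBot ℤ | ∃ b, b ≤ a ∧ NodeAt e b f}) ∈
        {g : {f : Om → WithBot ℤ | ∃ b, b ≤ a ∧ NodeAt e b f} |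
        toLex (res a (ofLex (f x).1)) ≤ toLex g.1} := by
      rw [← h1]
      exact le_refl (toLex (res a (ofLex (f ξ).1)))
    exact toLex.injective (le_antisymm (res_mono a (hf.antitone hξ)) h2)

theorem card_tree (e : Om → Om → ℤ) : Cardinal.mk (Tree e) ≤ Cardinal.aleph 1 := by
  classical
  have hinf : Cardinal.aleph0 ≤ Cardinal.aleph 1 := Cardinal.aleph0_le_aleph 1
  have hnode : ∀ f : Tree e, ∃ a, NodeAt e a (ofLex f.1) := fun f => f.2
  choose lv hlv using hnode
  let c : Tree e → Om × Finset (Om × WithBot ℤ) := fun f =>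
    (lv f, (tcode_finite (hlv f)).toFinset)
  have hc : Function.Injective c := by
    intro f g h
    obtain ⟨h1, h2⟩ := Prod.mk.inj h
    have h3 : tcode e (lv f) (ofLex f.1) = tcode e (lv g) (ofLex g.1) := by
      rw [Set.Finite.toFinset_inj] at h2
      exact h2
    rw [← h1] at h3
    have h4 := hlv g
    rw [← h1] at h4
    exact Subtype.ext (ofLex.injective (tcode_inj (hlv f) h4 h3))
  refine (Cardinal.mk_le_of_injective hc).trans ?_
  have hOm : Infinite Om := by
    rw [Cardinal.infinite_iff, ts_mk_om]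
    exact hinf
  have h5 : Cardinal.mk (Om × WithBot ℤ) ≤ Cardinal.aleph 1 := by
    have : Countable (WithBot ℤ) := inferInstanceAs (Countable (Option ℤ))
    rw [Cardinal.mk_prod, Cardinal.lift_id, Cardinal.lift_id]
    exact Cardinal.mul_le_of_le hinf ts_mk_om.le (Cardinal.mk_le_aleph0.trans hinf)
  rw [Cardinal.mk_prod, Cardinal.lift_id, Cardinal.lift_id]
  refine Cardinal.mul_le_of_le hinf ts_mk_om.le ?_
  rw [Cardinal.mk_finset_of_infinite]
  exact h5

end Pool.Agent.SpecR
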