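import Pool.Agent.SpecR.Coherent
import Pool.Agent.SpecR.TreeBF
import Pool.Agent.SpecR.TreeShort
import Pool.Agent.SpecR.Eqv
import Pool.Agent.SpecR.Field
import Pool.Agent.SpecR.Good
import Pool.Agent.SpecR.Bad
import Pool.Agent.SpecR.Card

/-!
# Real spectra and the logic `L_{ω₁ω₁}`: the theorem
-/

set_option autoImplicit false

open Polynomial

namespace Pool.Agent.SpecR

universe u

/-- there are two structures of size at most `ℵ₁` satisfying the same sentences of `L_{ω₁ω₁}`,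
one isomorphic to a lattice `Φ(A)` and the other not -/
theorem main_pair : ∃ D D' : LStr, Cardinal.mk D.carrier ≤ Cardinal.aleph 1 ∧
    Cardinal.mk D'.carrier ≤ Cardinal.aleph 1 ∧ (∀ φ : Fml, Models D φ ↔ Models D' φ) ∧
    Rep.{u} D ∧ ¬ Rep.{u} D' := by
  obtain ⟨e, he⟩ := exists_coherent
  obtain ⟨R, _, _, _, t, hR, ht, hcard, hshort⟩ := exists_field (Tree e) (tree_short he)
    (card_tree e)
  refine ⟨ordSum (D1 R) (Tree e), ordSum (D1 R) (Tree fun _ _ => 0),
    card_ordSum hcard _ (card_tree _), card_ordSum hcard _ (card_tree _),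
    fun φ => models_iff (D1 R) (tree_bf he) φ, rep_lift _ (rep_good hR ht), fun h => ?_⟩
  obtain ⟨c, hc⟩ := not_rep hR h
  obtain ⟨f, hf⟩ := exists_strictMono
  exact hshort.1 _ (hc.comp hf)

/-- no formula of `L_{ω₁ω₁}` defines the lattices `Φ(A)` among the structures of size at most
`ℵ₁` -/
theorem main (φ : Fml) : ∃ D : LStr, Cardinal.mk D.carrier ≤ Cardinal.aleph 1 ∧
    ¬ (Models D φ ↔ Rep.{u} D) := by
  obtain ⟨D, D', h1, h2, h3, h4, h5⟩ := main_pair.{u}
  by_cases h : Models D φ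
  · exact ⟨D', h2, fun h6 => h5 (h6.1 ((h3 φ).1 h))⟩
  · exact ⟨D, h1, fun h6 => h (h6.2 h4)⟩

end Pool.Agent.SpecR
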