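import Pool.Agent.SpecR.Defs

/-!
# An ultrapower of the field of real numbers
-/

set_option autoImplicit false

open Polynomial Filter

namespace Pool.Agent.SpecR

section Fac

variable {K L : Type} [Field K] [LinearOrder K] [IsStrictOrderedRing K] [Field L]

private lemma ultra_irr (φ : K →+* L) (I : L) (hI : I ^ 2 = -1)
    (hw : ∀ w : L, ∃ u v : K, w = φ u + I * φ v)
    (hroot : ∀ f : K[X], 0 < f.natDegree → ∃ w : L, f.eval₂ φ w = 0) (f : K[X])
    (hf : Irreducible f) : (∃ c a : K, c ≠ 0 ∧ f = C c * (X - C a)) ∨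
      ∃ c u v : K, c ≠ 0 ∧ v ≠ 0 ∧ f = C c * ((X - C u) ^ 2 + C (v ^ 2)) := by
  have hdeg : 0 < f.natDegree := hf.natDegree_pos
  obtain ⟨w, hwf⟩ := hroot f hdeg
  obtain ⟨u, v, rfl⟩ := hw w
  by_cases hv : v = 0
  · left
    rw [hv, map_zero, mul_zero, add_zero, eval₂_at_apply, map_eq_zero_iff _ φ.injective] at hwf
    obtain ⟨h, hh⟩ := dvd_iff_isRoot.mpr hwf
    have hu : IsUnit h := by
      rcases hf.isUnit_or_isUnit hh with h' | h'
      · exact absurd h' (irreducible_X_sub_C u).not_isUnit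
      · exact h'
    obtain ⟨c, hc, rfl⟩ := isUnit_iff.mp hu
    exact ⟨c, u, hc.ne_zero, by rw [hh, mul_comm]⟩
  · right
    set g : K[X] := (X - C u) ^ 2 + C (v ^ 2) with hg
    have hpos : ∀ x : K, g.eval x ≠ 0 := by
      intro x
      rw [hg, eval_add, eval_pow, eval_sub, eval_X, eval_C, eval_C]
      have h1 : 0 < v ^ 2 := by positivity
      have h2 := sq_nonneg (x - u)
      exact (by linarith : 0 < (x - u) ^ 2 + v ^ 2).ne'
    have hgw : g.eval₂ φ (φ u + I * φ v) = 0 := by
      rw [hg, eval₂_add, eval₂_pow, eval₂_sub, eval₂_X, eval₂_C, eval₂_C, map_pow]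
      have : (φ u + I * φ v - φ u) ^ 2 = I ^ 2 * φ v ^ 2 := by ring
      rw [this, hI]
      ring
    have hdvd : f ∣ g := by
      by_contra hnd
      have hcop : IsCoprime f g := hf.coprime_iff_not_dvd.mpr hnd
      obtain ⟨a, b, hab⟩ := hcop
      have h1 := congrArg (eval₂ φ (φ u + I * φ v)) hab
      rw [eval₂_add, eval₂_mul, eval₂_mul, hwf, hgw, mul_zero, mul_zero, add_zero,
        eval₂_one] at h1
      exact zero_ne_one h1
    obtain ⟨h, hh⟩ := hdvd
    have hg2 : g.natDegree = 2 := by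
      rw [hg]
      rw [natDegree_add_C, natDegree_pow, natDegree_X_sub_C]
    have hg0 : g ≠ 0 := by
      intro h0
      rw [h0, natDegree_zero] at hg2
      omega
    have hh0 : h ≠ 0 := by
      rintro rfl
      rw [mul_zero] at hh
      exact hg0 hh
    have hd := congrArg natDegree hh
    rw [hg2, natDegree_mul hf.ne_zero hh0] at hd
    have hf1 : f.natDegree ≠ 1 := by
      intro h1
      obtain ⟨x, hx⟩ := exists_root_of_degree_eq_one (degree_eq_iff_natDegree_eq hf.ne_zero |>.mpr h1)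
      apply hpos x
      rw [hh, eval_mul, hx.eq_zero, zero_mul]
    have hh1 : h.natDegree = 0 := by omega
    obtain ⟨c, rfl⟩ : ∃ c, h = C c := ⟨_, eq_C_of_natDegree_eq_zero hh1⟩
    have hc : c ≠ 0 := by
      rintro rfl
      exact hh0 (map_zero C)
    refine ⟨c⁻¹, u, v, inv_ne_zero hc, hv, ?_⟩
    rw [← hg, hh, mul_comm f, ← mul_assoc, ← C_mul, inv_mul_cancel₀ hc, C_1, one_mul]

private lemma ultra_factors (φ : K →+* L) (I : L) (hI : I ^ 2 = -1)
    (hw : ∀ w : L, ∃ u v : K, w = φ u + I * φ v)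
    (hroot : ∀ f : K[X], 0 < f.natDegree → ∃ w : L, f.eval₂ φ w = 0) : Factors K := by
  intro f
  induction f using WfDvdMonoid.induction_on_irreducible with
  | zero => intro h; exact absurd rfl h
  | unit f hu =>
    intro _
    obtain ⟨c, hc, rfl⟩ := isUnit_iff.mp hu
    exact ⟨c, 0, 0, hc.ne_zero, by simp, by simp⟩
  | mul a i ha hi ih =>
    intro _
    obtain ⟨c, s, q, hc, hq, hfac⟩ := ih ha
    rcases ultra_irr φ I hI hw hroot i hi with ⟨d, b, hd, hib⟩ | ⟨d, u, v, hd, hv, hib⟩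
    · refine ⟨d * c, b ::ₘ s, q, mul_ne_zero hd hc, hq, ?_⟩
      rw [hib, hfac, Multiset.map_cons, Multiset.prod_cons, C_mul]
      ring
    · refine ⟨d * c, s, (u, v) ::ₘ q, mul_ne_zero hd hc, ?_, ?_⟩
      · intro p hp
        rcases Multiset.mem_cons.mp hp with rfl | hp
        · exact hv
        · exact hq p hp
      · rw [hib, hfac, Multiset.map_cons, Multiset.prod_cons, C_mul]
        ring

end Fac

/-! ### germs -/

section Germs

variable {J : Type} (U : Ultrafilter J)

private noncomputable def ultraHom : Germ (U : Filter J) ℝ →+* Germ (U : Filter J) ℂ where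
  toFun := Germ.map Complex.ofReal
  map_one' := by
    show (((fun _ => Complex.ofReal 1) : J → ℂ) : Germ (U : Filter J) ℂ) = ((1 : J → ℂ) : Germ (U : Filter J) ℂ)
    rw [Complex.ofReal_one]
    rfl
  map_mul' x y := by
    induction x using Germ.inductionOn with | _ f
    induction y using Germ.inductionOn with | _ g
    show (((fun j => Complex.ofReal (f j * g j)) : J → ℂ) : Germ (U : Filter J) ℂ) =
      (((fun j => Complex.ofReal (f j) * Complex.ofReal (g j)) : J → ℂ) : Germ (U : Filter J) ℂ)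
    simp only [Complex.ofReal_mul]
  map_zero' := by
    show (((fun _ => Complex.ofReal 0) : J → ℂ) : Germ (U : Filter J) ℂ) = ((0 : J → ℂ) : Germ (U : Filter J) ℂ)
    rw [Complex.ofReal_zero]
    rfl
  map_add' x y := by
    induction x using Germ.inductionOn with | _ f
    induction y using Germ.inductionOn with | _ g
    show (((fun j => Complex.ofReal (f j + g j)) : J → ℂ) : Germ (U : Filter J) ℂ) =
      (((fun j => Complex.ofReal (f j) + Complex.ofReal (g j)) : J → ℂ) : Germ (U : Filter J) ℂ)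
    simp only [Complex.ofReal_add]

private lemma ultraHom_coe (f : J → ℝ) :
    ultraHom U (f : Germ (U : Filter J) ℝ) = (((fun j => (f j : ℂ)) : J → ℂ) : Germ (U : Filter J) ℂ) := rfl

private lemma ultra_dec (w : Germ (U : Filter J) ℂ) : ∃ u v : Germ (U : Filter J) ℝ,
    w = ultraHom U u + (((fun _ => Complex.I) : J → ℂ) : Germ (U : Filter J) ℂ) * ultraHom U v := by
  induction w using Germ.inductionOn with | _ z
  refine ⟨((fun j => (z j).re : J → ℝ) : Germ (U : Filter J) ℝ),
    ((fun j => (z j).im : J → ℝ) : Germ (U : Filter J) ℝ), ?_⟩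
  rw [ultraHom_coe, ultraHom_coe, ← Germ.coe_mul, ← Germ.coe_add]
  congr 1
  funext j
  show z j = (z j).re + Complex.I * (z j).im
  rw [mul_comm]
  exact (Complex.re_add_im (z j)).symm

private lemma ultra_root (f : (Germ (U : Filter J) ℝ)[X]) (hf : 0 < f.natDegree) :
    ∃ w : Germ (U : Filter J) ℂ, f.eval₂ (ultraHom U) w = 0 := by
  classical
  have hc : ∀ i, ∃ c : J → ℝ, f.coeff i = (c : Germ (U : Filter J) ℝ) := by
    intro i
    induction f.coeff i using Germ.inductionOn with | _ c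
    exact ⟨c, rfl⟩
  choose c hc using hc
  set d := f.natDegree with hd
  let p : J → ℂ[X] := fun j => ∑ i ∈ Finset.range (d + 1), C (c i j : ℂ) * X ^ i
  have hz : ∀ j, ∃ z : ℂ, c d j ≠ 0 → (p j).eval z = 0 := by
    intro j
    by_cases hj : c d j = 0
    · exact ⟨0, fun h => absurd hj h⟩
    · have hcoef : (p j).coeff d ≠ 0 := by
        simp only [p, finsetSum_coeff, coeff_C_mul_X_pow]
        rw [Finset.sum_eq_single d]
        · simpa using hj
        · intro b _ hb
          rw [if_neg (Ne.symm hb)]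
        · intro h
          exact absurd (Finset.mem_range.mpr (Nat.lt_succ_self d)) h
      have hdeg : (p j).degree ≠ 0 := by
        intro h
        have h1 : (p j).natDegree = 0 := natDegree_eq_zero_iff_degree_le_zero.mpr h.le
        have h2 := le_natDegree_of_ne_zero hcoef
        omega
      obtain ⟨z, hz⟩ := IsAlgClosed.exists_root (p j) hdeg
      exact ⟨z, fun _ => hz⟩
  choose z hz using hz
  refine ⟨(z : Germ (U : Filter J) ℂ), ?_⟩
  rw [eval₂_eq_sum_range]
  have h1 : ∀ i, ultraHom U (f.coeff i) * (z : Germ (U : Filter J) ℂ) ^ i =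
      Germ.coeRingHom (U : Filter J) (fun j => (c i j : ℂ) * z j ^ i) := by
    intro i
    rw [hc i, ultraHom_coe, Germ.coe_coeRingHom, ← Germ.coe_pow, ← Germ.coe_mul]
    rfl
  rw [Finset.sum_congr rfl fun i _ => h1 i, ← map_sum]
  show ((∑ i ∈ Finset.range (d + 1), (fun j => (c i j : ℂ) * z j ^ i) : J → ℂ) :
    Germ (U : Filter J) ℂ) = ((0 : J → ℂ) : Germ (U : Filter J) ℂ)
  rw [Germ.coe_eq]
  have hlead : ∀ᶠ j in (U : Filter J), c d j ≠ 0 := by
    have h2 : f.coeff d ≠ 0 := by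
      rw [hd]
      intro h
      have h0 := leadingCoeff_eq_zero.mp h
      have h1 : d = 0 := by
        rw [hd, h0, natDegree_zero]
      omega
    have h3 : ¬ ∀ᶠ j in (U : Filter J), c d j = 0 := by
      intro h
      apply h2
      rw [hc d]
      exact Germ.coe_eq.mpr h
    exact (Ultrafilter.eventually_not.mpr h3)
  filter_upwards [hlead] with j hj
  have h4 := hz j hj
  simp only [p, eval_finsetSum, eval_mul, eval_C, eval_pow, eval_X] at h4
  rw [Finset.sum_apply]
  exact h4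

private lemma ultra_fac : Factors (Germ (U : Filter J) ℝ) := by
  refine ultra_factors (ultraHom U) (((fun _ => Complex.I) : J → ℂ) : Germ (U : Filter J) ℂ) ?_
    (ultra_dec U) (ultra_root U)
  rw [← Germ.coe_pow]
  show (((fun _ => Complex.I ^ 2) : J → ℂ) : Germ (U : Filter J) ℂ) =
    (((fun _ => -1) : J → ℂ) : Germ (U : Filter J) ℂ)
  simp only [Complex.I_sq]

end Germs

/-! ### the family of infinitesimals -/

section Family

variable {Λ : Type} [LinearOrder Λ]

/-- the number of elements of `F` which are at least `l` -/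
private def ultraRk (F : Finset Λ) (l : Λ) : ℕ := (F.filter fun m => l ≤ m).card

private noncomputable def ultraFun (l : Λ) (j : Finset Λ × ℕ) : ℝ :=
  (1 / 2) ^ ((j.2 + 2) ^ ultraRk j.1 l)

private lemma ultraRk_pos {F : Finset Λ} {l : Λ} (h : l ∈ F) : 1 ≤ ultraRk F l := by
  rw [ultraRk, Nat.one_le_iff_ne_zero, Ne, Finset.card_eq_zero]
  apply Finset.Nonempty.ne_empty
  exact ⟨l, Finset.mem_filter.mpr ⟨h, le_refl l⟩⟩

private lemma ultraRk_lt {F : Finset Λ} {l m : Λ} (hl : l ∈ F) (hlm : l < m) :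
    ultraRk F m < ultraRk F l := by
  apply Finset.card_lt_card
  rw [Finset.ssubset_iff_of_subset]
  · exact ⟨l, Finset.mem_filter.mpr ⟨hl, le_refl l⟩, fun h =>
      absurd (Finset.mem_filter.mp h).2 (not_le.mpr hlm)⟩
  · intro x hx
    rw [Finset.mem_filter] at hx ⊢
    exact ⟨hx.1, hlm.le.trans hx.2⟩

private lemma ultraFun_infl {l : Λ} {j : Finset Λ × ℕ} (hl : l ∈ j.1) {n : ℕ} (hn : n ≤ j.2) :
    n * ultraFun l j < 1 := by
  have h1 : j.2 + 2 ≤ (j.2 + 2) ^ ultraRk j.1 l := by
    calc j.2 + 2 = (j.2 + 2) ^ 1 := (pow_one _).symm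
      _ ≤ _ := Nat.pow_le_pow_right (by omega) (ultraRk_pos hl)
  have h2 : ultraFun l j ≤ (1 / 2) ^ (j.2 + 2) :=
    pow_le_pow_of_le_one (by norm_num) (by norm_num) h1
  have h3 : (n : ℝ) < 2 ^ (j.2 + 2) := by
    have : n < 2 ^ (j.2 + 2) := lt_of_le_of_lt (by omega : n ≤ j.2 + 2) Nat.lt_two_pow_self
    exact_mod_cast this
  calc (n : ℝ) * ultraFun l j ≤ n * (1 / 2) ^ (j.2 + 2) := by gcongr
    _ = n / 2 ^ (j.2 + 2) := by rw [one_div, inv_pow, div_eq_mul_inv]
    _ < 1 := by
        rw [div_lt_one (by positivity)]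
        exact h3

private lemma ultraFun_below {l m : Λ} (hlm : l < m) {j : Finset Λ × ℕ} (hl : l ∈ j.1) {n : ℕ}
    (hn : n ≤ j.2) : ultraFun l j < ultraFun m j ^ n := by
  rw [ultraFun, ultraFun, ← pow_mul]
  apply pow_lt_pow_right_of_lt_one₀ (by norm_num) (by norm_num)
  have h1 : (j.2 + 2) ^ (ultraRk j.1 m + 1) ≤ (j.2 + 2) ^ ultraRk j.1 l :=
    Nat.pow_le_pow_right (by omega) (ultraRk_lt hl hlm)
  have h2 : 0 < (j.2 + 2) ^ ultraRk j.1 m := by positivity
  calc (j.2 + 2) ^ ultraRk j.1 m * n < (j.2 + 2) ^ ultraRk j.1 m * (j.2 + 2) :=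
        Nat.mul_lt_mul_of_pos_left (by omega) h2
    _ = (j.2 + 2) ^ (ultraRk j.1 m + 1) := (pow_succ _ _).symm
    _ ≤ _ := h1

end Family

theorem exists_ultra (Λ : Type) [LinearOrder Λ] : ∃ (K : Type) (_ : Field K) (_ : LinearOrder K)
    (_ : IsStrictOrderedRing K) (t : Λ → K), Factors K ∧ (∀ l, Infl (t l)) ∧
      ∀ l m, l < m → Below (t l) (t m) := by
  classical
  let U : Ultrafilter (Finset Λ × ℕ) := Ultrafilter.of atTop
  have hU : (U : Filter (Finset Λ × ℕ)) ≤ atTop := Ultrafilter.of_le _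
  have hev : ∀ (l : Λ) (n : ℕ), ∀ᶠ j in (U : Filter (Finset Λ × ℕ)), l ∈ j.1 ∧ n ≤ j.2 := by
    intro l n
    have h1 : ∀ᶠ j in (atTop : Filter (Finset Λ × ℕ)), (({l}, n) : Finset Λ × ℕ) ≤ j :=
      eventually_ge_atTop _
    filter_upwards [hU h1] with j hj
    exact ⟨hj.1 (Finset.mem_singleton_self l), hj.2⟩
  refine ⟨Germ (U : Filter (Finset Λ × ℕ)) ℝ, inferInstance, inferInstance, inferInstance,
    fun l => ((ultraFun l : Finset Λ × ℕ → ℝ) : Germ (U : Filter (Finset Λ × ℕ)) ℝ), ultra_fac U,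
    ?_, ?_⟩
  · intro l
    refine ⟨?_, ?_⟩
    · rw [Germ.coe_pos]
      refine Eventually.of_forall fun j => ?_
      unfold ultraFun
      positivity
    · intro n
      have h1 : (n : Germ (U : Filter (Finset Λ × ℕ)) ℝ) *
          ((ultraFun l : Finset Λ × ℕ → ℝ) : Germ (U : Filter (Finset Λ × ℕ)) ℝ) =
          (((fun j => (n : ℝ) * ultraFun l j) : Finset Λ × ℕ → ℝ) :
            Germ (U : Filter (Finset Λ × ℕ)) ℝ) := rfl
      have h2 : (1 : Germ (U : Filter (Finset Λ × ℕ)) ℝ) =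
        (((fun _ => 1) : Finset Λ × ℕ → ℝ) : Germ (U : Filter (Finset Λ × ℕ)) ℝ) := rfl
      rw [h1, h2, Germ.coe_lt]
      filter_upwards [hev l n] with j hj
      exact ultraFun_infl hj.1 hj.2
  · intro l m hlm n
    rw [← Germ.coe_pow, Germ.coe_lt]
    filter_upwards [hev l n] with j hj
    exact ultraFun_below hlm hj.1 hj.2

end Pool.Agent.SpecR
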